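import Mathlib

/-!
Numerical semigroup rings `k[[t^s : s ∈ S]]` as subrings of the power series ring.
-/

set_option autoImplicit false

open PowerSeries

namespace Pool.Agent.helper42.SemigroupRing

universe u

/-- The semigroup ring `k[[t^s : s ∈ S]]`: the power series all of whose exponents lie in the
additive submonoid `S` of the natural numbers. -/
def semigroupRing (k : Type u) [Field k] (S : AddSubmonoid ℕ) : Subring (PowerSeries k) where
  carrier := {f | ∀ n, n ∉ S → coeff n f = 0}
  mul_mem' := by
    intro f g hf hg n hn
    rw [coeff_mul]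
    refine Finset.sum_eq_zero fun p hp => ?_
    rw [Finset.HasAntidiagonal.mem_antidiagonal] at hp
    by_cases h1 : p.1 ∈ S
    · by_cases h2 : p.2 ∈ S
      · exact absurd (hp ▸ S.add_mem h1 h2) hn
      · rw [hg _ h2, mul_zero]
    · rw [hf _ h1, zero_mul]
  one_mem' := by
    intro n hn
    rw [coeff_one, if_neg]
    rintro rfl
    exact hn S.zero_mem
  add_mem' := by
    intro f g hf hg n hn
    rw [map_add, hf n hn, hg n hn, add_zero]
  zero_mem' := fun n _ => by rw [map_zero]
  neg_mem' := by
    intro f hf n hn
    rw [map_neg, hf n hn, neg_zero]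

variable {k : Type u} [Field k] {S : AddSubmonoid ℕ}

lemma mem_semigroupRing {f : PowerSeries k} :
    f ∈ semigroupRing k S ↔ ∀ n, n ∉ S → coeff n f = 0 := Iff.rfl

lemma inv_mem {f : PowerSeries k} (hf : f ∈ semigroupRing k S) (h0 : constantCoeff f ≠ 0) :
    f⁻¹ ∈ semigroupRing k S := by
  have hmul : f * f⁻¹ = 1 := PowerSeries.mul_inv_cancel f h0
  intro n
  induction n using Nat.strong_induction_on with
  | _ n ih =>
    intro hn
    have hn0 : n ≠ 0 := by rintro rfl; exact hn S.zero_mem
    have h1 := congrArg (coeff n) hmul
    rw [coeff_mul, coeff_one, if_neg hn0] at h1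
    have h2 : ∑ p ∈ Finset.HasAntidiagonal.antidiagonal n, coeff p.1 f * coeff p.2 f⁻¹ =
        coeff 0 f * coeff n f⁻¹ := by
      refine Finset.sum_eq_single (0, n) ?_ ?_
      · rintro ⟨i, j⟩ hij hne
        rw [Finset.HasAntidiagonal.mem_antidiagonal] at hij
        simp only at hij ⊢
        by_cases hi : i ∈ S
        · have hi0 : i ≠ 0 := by
            rintro rfl
            apply hne
            rw [zero_add] at hij
            rw [hij]
          have hj : j ∉ S := fun hj => hn (hij ▸ S.add_mem hi hj)
          rw [ih j (by omega) hj, mul_zero]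
        · rw [hf i hi, zero_mul]
      · intro h; exact absurd (by simp) h
    rw [h2, coeff_zero_eq_constantCoeff_apply] at h1
    exact (mul_eq_zero.1 h1).resolve_left h0

lemma isUnit_iff (f : semigroupRing k S) :
    IsUnit f ↔ constantCoeff (f : PowerSeries k) ≠ 0 := by
  constructor
  · rintro ⟨u, rfl⟩ h
    have h1 : (u : semigroupRing k S) * (u⁻¹ : (semigroupRing k S)ˣ) = 1 := u.mul_inv
    have h2 := congrArg (fun z : semigroupRing k S => constantCoeff (z : PowerSeries k)) h1
    simp only [Subring.coe_mul, map_mul, h, zero_mul, Subring.coe_one, map_one] at h2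
    exact zero_ne_one h2
  · intro h
    refine IsUnit.of_mul_eq_one ⟨(f : PowerSeries k)⁻¹, inv_mem f.2 h⟩ ?_
    exact Subtype.ext (PowerSeries.mul_inv_cancel _ h)

instance : IsLocalRing (semigroupRing k S) := by
  refine IsLocalRing.of_isUnit_or_isUnit_one_sub_self fun f => ?_
  by_cases h : constantCoeff (f : PowerSeries k) = 0
  · right
    rw [isUnit_iff]
    simp [h]
  · left
    rwa [isUnit_iff]

lemma mem_maximalIdeal_iff (f : semigroupRing k S) :
    f ∈ IsLocalRing.maximalIdeal (semigroupRing k S) ↔ coeff 0 (f : PowerSeries k) = 0 := by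
  rw [IsLocalRing.mem_maximalIdeal, mem_nonunits_iff, isUnit_iff, not_not,
    coeff_zero_eq_constantCoeff_apply]

/-- The ring of power series in `t^N`, mapped to the semigroup ring, for `N ∈ S`. -/
noncomputable def toRing (N : ℕ) (hN : N ≠ 0) (hNS : N ∈ S) :
    PowerSeries k →+* semigroupRing k S :=
  (PowerSeries.expand N hN (R := k)).toRingHom.codRestrict (semigroupRing k S) (by
    intro f n hn
    change coeff n (PowerSeries.expand N hN f) = 0
    rw [PowerSeries.coeff_expand, if_neg]
    rintro ⟨m, rfl⟩
    apply hn
    have := S.nsmul_mem hNS m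
    rwa [smul_eq_mul, mul_comm] at this)

lemma isNoetherianRing_of_mem (N : ℕ) (hN : N ≠ 0) (hNS : N ∈ S) :
    IsNoetherianRing (semigroupRing k S) := by
  let A := PowerSeries k
  let ψ : A →+* semigroupRing k S := toRing N hN hNS
  let _ : Algebra A (semigroupRing k S) := ψ.toAlgebra
  have hsmul : ∀ (a : A) (f : semigroupRing k S),
      ((a • f : semigroupRing k S) : PowerSeries k) =
        PowerSeries.expand N hN a * (f : PowerSeries k) := fun a f => rfl
  let L : semigroupRing k S →ₗ[A] (Fin N → A) :=
    { toFun := fun f r => PowerSeries.mk fun n => coeff (N * n + r) (f : PowerSeries k)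
      map_add' := by
        intro f g; ext r n; simp
      map_smul' := by
        intro a f
        ext r n
        simp only [PowerSeries.coeff_mk, RingHom.id_apply, Pi.smul_apply, smul_eq_mul, hsmul]
        rw [coeff_mul, coeff_mul]
        symm
        have hNpos : 0 < N := Nat.pos_of_ne_zero hN
        refine Finset.sum_of_injOn (fun p : ℕ × ℕ => (N * p.1, N * p.2 + r)) ?_ ?_ ?_ ?_
        · rintro ⟨p, q⟩ - ⟨p', q'⟩ - h
          simp only [Prod.mk.injEq] at h
          have h1 := Nat.eq_of_mul_eq_mul_left hNpos h.1
          have h2 : N * q = N * q' := by omega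
          rw [h1, Nat.eq_of_mul_eq_mul_left hNpos h2]
        · rintro ⟨p, q⟩ h
          rw [Finset.mem_coe, Finset.HasAntidiagonal.mem_antidiagonal] at h ⊢
          simp only at h ⊢
          rw [← h]; ring
        · rintro ⟨i, j⟩ hij hnot
          rw [Finset.HasAntidiagonal.mem_antidiagonal] at hij
          simp only at hij ⊢
          rw [PowerSeries.coeff_expand]
          by_cases hdvd : N ∣ i
          · exfalso
            apply hnot
            obtain ⟨p, rfl⟩ := hdvd
            have hpn : p ≤ n := by
              by_contra hcon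
              have h1 : N * (n + 1) ≤ N * p := Nat.mul_le_mul_left N (by omega)
              have h2 : N * (n + 1) = N * n + N := by ring
              have := r.2
              omega
            refine ⟨(p, n - p), by simp; omega, ?_⟩
            simp only [Prod.mk.injEq, true_and]
            have : N * n = N * p + N * (n - p) := by
              rw [← Nat.mul_add]; congr 1; omega
            omega
          · rw [if_neg hdvd, zero_mul]
        · rintro ⟨p, q⟩ -
          simp only [PowerSeries.coeff_mk]
          rw [PowerSeries.coeff_expand_mul] }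
  have hinj : Function.Injective L := by
    intro f g hfg
    apply Subtype.ext
    ext n
    have h1 := congrFun hfg ⟨n % N, Nat.mod_lt _ (Nat.pos_of_ne_zero hN)⟩
    have h2 := congrArg (coeff (n / N)) h1
    simp only [L, LinearMap.coe_mk, AddHom.coe_mk, PowerSeries.coeff_mk] at h2
    rwa [Nat.div_add_mod] at h2
  have hnoeth : IsNoetherian A (semigroupRing k S) := isNoetherian_of_injective L hinj
  exact isNoetherian_of_tower A hnoeth

end Pool.Agent.helper42.SemigroupRing
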