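import Mathlib

/-!
Vanishing of Mathlib's `Tor` from an explicit free resolution.
-/

set_option autoImplicit false

open CategoryTheory MonoidalCategory Limits

namespace Pool.Agent.helper42.TorTools

universe u

variable {R : Type u} [CommRing R] {P X : Type u} [AddCommGroup P] [Module R P]
  [AddCommGroup X] [Module R X]

/-- The chain complex with all terms `P` and differentials `∂ n : P_{n+1} → P_n`. -/
noncomputable def cx (D : ℕ → P →ₗ[R] P) (h : ∀ n, D n ∘ₗ D (n + 1) = 0) :
    ChainComplex (ModuleCat.{u} R) ℕ :=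
  ChainComplex.of (fun _ => ModuleCat.of R P) (fun n => ModuleCat.ofHom (D n)) (by
    intro n
    rw [← ModuleCat.ofHom_comp, h n]
    rfl)

variable (D : ℕ → P →ₗ[R] P) (h : ∀ n, D n ∘ₗ D (n + 1) = 0)

lemma cx_d (n : ℕ) : (cx D h).d (n + 1) n = ModuleCat.ofHom (D n) := by
  simp [cx, ChainComplex.of_d]

/-- The augmentation of the complex. -/
noncomputable def aug (e : P →ₗ[R] X) (he : e ∘ₗ D 0 = 0) :
    cx D h ⟶ (ChainComplex.single₀ (ModuleCat.{u} R)).obj (ModuleCat.of R X) :=
  (ChainComplex.toSingle₀Equiv _ _).symm ⟨ModuleCat.ofHom e, by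
    have h1 : (cx D h).d 1 0 = ModuleCat.ofHom (D 0) := cx_d D h 0
    have h2 : ModuleCat.ofHom (D 0) ≫ ModuleCat.ofHom e = 0 := by
      rw [← ModuleCat.ofHom_comp, he]
      rfl
    rw [h1]
    exact h2⟩

lemma aug_quasiIso (e : P →ₗ[R] X) (he : Function.Exact (D 0) e) (hs : Function.Surjective e)
    (hex : ∀ n, Function.Exact (D (n + 1)) (D n)) :
    QuasiIso (aug D h e he.linearMap_comp_eq_zero) where
  quasiIsoAt m := by
    induction m with
    | zero =>
      rw [ChainComplex.quasiIsoAt₀_iff, ShortComplex.quasiIso_iff_of_zeros' _ rfl rfl rfl]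
      constructor
      · rw [ShortComplex.ShortExact.moduleCat_exact_iff_function_exact]
        simpa [aug, cx, ChainComplex.toSingle₀Equiv] using! he
      · rw [ModuleCat.epi_iff_surjective]
        simpa [aug, cx, ChainComplex.toSingle₀Equiv] using! hs
    | succ m _ =>
      rw [quasiIsoAt_iff_exactAt' (hL := ChainComplex.exactAt_succ_single_obj ..),
          HomologicalComplex.exactAt_iff' _ (m + 2) (m + 1) m (by simp) (by simp)]
      rw [ShortComplex.ShortExact.moduleCat_exact_iff_function_exact]
      have h1 : ((cx D h).sc' (m + 2) (m + 1) m).f = ModuleCat.ofHom (D (m + 1)) := cx_d D h (m + 1)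
      have h2 : ((cx D h).sc' (m + 2) (m + 1) m).g = ModuleCat.ofHom (D m) := cx_d D h m
      rw [h1, h2]
      exact hex m

/-- The projective resolution given by an exact sequence. -/
noncomputable def res [Module.Projective R P] (e : P →ₗ[R] X) (he : Function.Exact (D 0) e)
    (hs : Function.Surjective e) (hex : ∀ n, Function.Exact (D (n + 1)) (D n)) :
    ProjectiveResolution (ModuleCat.of R X) where
  complex := cx D h
  projective n := by
    change Projective (ModuleCat.of R P)
    infer_instance
  π := aug D h e he.linearMap_comp_eq_zero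
  quasiIso := aug_quasiIso D h e he hs hex

/-- Vanishing of `Tor` in positive degrees. -/
theorem isZero_tor [Module.Projective R P] (e : P →ₗ[R] X) (he : Function.Exact (D 0) e)
    (hs : Function.Surjective e) (hex : ∀ n, Function.Exact (D (n + 1)) (D n))
    (M : ModuleCat.{u} R)
    (hM : ∀ n, Function.Exact (LinearMap.lTensor M (D (n + 1))) (LinearMap.lTensor M (D n)))
    (n : ℕ) :
    IsZero (((Tor (ModuleCat.{u} R) (n + 1)).obj M).obj (ModuleCat.of R X)) := by
  have h : ∀ n, D n ∘ₗ D (n + 1) = 0 := fun n => (hex n).linearMap_comp_eq_zero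
  let Q := res D h e he hs hex
  refine IsZero.of_iso ?_ (Q.isoLeftDerivedObj ((tensoringLeft (ModuleCat.{u} R)).obj M) (n + 1))
  change IsZero (HomologicalComplex.homology ((((tensoringLeft (ModuleCat.{u} R)).obj
    M).mapHomologicalComplex _).obj Q.complex) (n + 1))
  rw [← HomologicalComplex.exactAt_iff_isZero_homology,
    HomologicalComplex.exactAt_iff' _ (n + 2) (n + 1) n (by simp) (by simp),
    ShortComplex.ShortExact.moduleCat_exact_iff_function_exact]
  have h1 : (((((tensoringLeft (ModuleCat.{u} R)).obj M).mapHomologicalComplex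
      (ComplexShape.down ℕ)).obj Q.complex).sc' (n + 2) (n + 1) n).f =
      M ◁ (ModuleCat.ofHom (D (n + 1))) := by
    exact congrArg (fun z => M ◁ z) (cx_d D h (n + 1))
  have h2 : (((((tensoringLeft (ModuleCat.{u} R)).obj M).mapHomologicalComplex
      (ComplexShape.down ℕ)).obj Q.complex).sc' (n + 2) (n + 1) n).g =
      M ◁ (ModuleCat.ofHom (D n)) := by
    exact congrArg (fun z => M ◁ z) (cx_d D h n)
  rw [h1, h2]
  exact hM n

end Pool.Agent.helper42.TorTools
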