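import Mathlib
import Pool.Agent.helper42.TorTools

/-!
A free resolution over `R` from a resolution by `2 × 2` matrices modulo a regular element,
and the behaviour of its tensor product with an ideal `J`.
-/

set_option autoImplicit false

open CategoryTheory MonoidalCategory Limits Matrix TensorProduct

namespace Pool.Agent.helper42.TwistedRes

universe u

variable {R : Type u} [CommRing R] [IsDomain R]

/-- The data from which the resolution is built. -/
structure Data (m J : Ideal R) (x : R) (D H : ℕ → Matrix (Fin 2) (Fin 2) R)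
    (κ : Fin 2 → R) : Prop where
  x_ne : x ≠ 0
  DD : ∀ n, D n * D (n + 1) = x • H n
  K1 : ∀ (n : ℕ) (f g : Fin 2 → R), D n *ᵥ f = x • g →
    ∃ f' f'' : Fin 2 → R, f = D (n + 1) *ᵥ f' + x • f''
  xJ : x ∈ J
  Jm : J ≤ m
  mmJ : ∀ a ∈ m, ∀ b ∈ m, a * b ∈ J
  Dm : ∀ n i j, D n i j ∈ m
  Hm : ∀ n i j, H n i j ∈ m
  K2 : ∀ (n : ℕ) (f : Fin 2 → R), (∀ i, (D (n + 1) *ᵥ f) i ∈ J) → ∀ i, f i ∈ m
  K3 : ∀ (n : ℕ) (f : Fin 2 → R), (∀ i, f i ∈ m) → ∃ u : Fin 2 → R,
    ∀ i, (f - D (n + 1) *ᵥ u) i ∈ J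
  K4 : ∀ i, (D 0 *ᵥ κ) i ∈ J
  κm : ∃ i, κ i ∉ m

variable {m J : Ideal R} {x : R} {D H : ℕ → Matrix (Fin 2) (Fin 2) R} {κ : Fin 2 → R}

/-- The index set of the free modules. -/
abbrev I4 : Type := Fin 2 ⊕ Fin 2

variable (x D H) in
/-- The differentials. -/
def B (n : ℕ) : Matrix I4 I4 R :=
  Matrix.fromBlocks (D (n + 1)) (x • 1) (-(H n)) (-(D n))

variable (x D) in
/-- The augmentation. -/
noncomputable def eps : (I4 → R) →ₗ[R] (Fin 2 → R) :=
  (D 0).mulVecLin ∘ₗ LinearMap.funLeft R R Sum.inl + x • LinearMap.funLeft R R Sum.inr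

omit [IsDomain R] in
lemma eps_apply (v : I4 → R) : eps x D v = D 0 *ᵥ (v ∘ Sum.inl) + x • (v ∘ Sum.inr) := rfl

omit [IsDomain R] in
lemma B_mulVec (n : ℕ) (v : I4 → R) :
    B x D H n *ᵥ v = Sum.elim (D (n + 1) *ᵥ (v ∘ Sum.inl) + x • (v ∘ Sum.inr))
      (-(H n *ᵥ (v ∘ Sum.inl)) - D n *ᵥ (v ∘ Sum.inr)) := by
  rw [B, Matrix.fromBlocks_mulVec]
  simp only [Matrix.smul_mulVec, Matrix.one_mulVec, Matrix.neg_mulVec, sub_eq_add_neg]

lemma smul_cancel (hx : x ≠ 0) {ι : Type} {f g : ι → R} (h : x • f = x • g) : f = g := by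
  funext i
  have := congrFun h i
  simp only [Pi.smul_apply, smul_eq_mul] at this
  exact mul_left_cancel₀ hx this

lemma HD (d : Data m J x D H κ) (n : ℕ) : H n * D (n + 2) = D n * H (n + 1) := by
  have h1 : x • (H n * D (n + 2)) = x • (D n * H (n + 1)) := by
    rw [← Matrix.smul_mul, ← d.DD n, Matrix.mul_assoc, d.DD (n + 1), Matrix.mul_smul]
  ext i j
  have := congrFun (congrFun h1 i) j
  simp only [Matrix.smul_apply, smul_eq_mul] at this
  exact mul_left_cancel₀ d.x_ne this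

lemma BB (d : Data m J x D H κ) (n : ℕ) : B x D H n * B x D H (n + 1) = 0 := by
  rw [B, B, Matrix.fromBlocks_multiply]
  have h1 : D (n + 1) * D (n + 1 + 1) + (x • (1 : Matrix (Fin 2) (Fin 2) R)) * -(H (n + 1)) = 0 := by
    rw [d.DD (n + 1), Matrix.smul_mul, Matrix.one_mul, smul_neg, add_neg_cancel]
  have h2 : D (n + 1) * (x • (1 : Matrix (Fin 2) (Fin 2) R)) +
      (x • (1 : Matrix (Fin 2) (Fin 2) R)) * -(D (n + 1)) = 0 := by
    rw [Matrix.mul_smul, Matrix.mul_one, Matrix.smul_mul, Matrix.one_mul, smul_neg, add_neg_cancel]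
  have h3 : -(H n) * D (n + 1 + 1) + -(D n) * -(H (n + 1)) = 0 := by
    rw [Matrix.neg_mul, Matrix.neg_mul, Matrix.mul_neg, neg_neg, HD d n, neg_add_cancel]
  have h4 : -(H n) * (x • (1 : Matrix (Fin 2) (Fin 2) R)) + -(D n) * -(D (n + 1)) = 0 := by
    rw [Matrix.neg_mul, Matrix.neg_mul, Matrix.mul_neg, neg_neg, Matrix.mul_smul, Matrix.mul_one,
      d.DD n, neg_add_cancel]
  rw [h1, h2, h3, h4, Matrix.fromBlocks_zero]

omit [IsDomain R] in
lemma eps_B (d : Data m J x D H κ) (v : I4 → R) : eps x D (B x D H 0 *ᵥ v) = 0 := by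
  rw [eps_apply, B_mulVec]
  simp only [Sum.elim_comp_inl, Sum.elim_comp_inr]
  rw [Matrix.mulVec_add, Matrix.mulVec_mulVec, d.DD 0, Matrix.mulVec_smul, smul_sub, smul_neg,
    Matrix.smul_mulVec]
  abel

lemma exact_eps (d : Data m J x D H κ) {v : I4 → R} (hv : eps x D v = 0) :
    ∃ w, B x D H 0 *ᵥ w = v := by
  rw [eps_apply] at hv
  have h1 : D 0 *ᵥ (v ∘ Sum.inl) = x • (-(v ∘ Sum.inr)) := by
    rw [smul_neg]; exact eq_neg_of_add_eq_zero_left hv
  obtain ⟨f', f'', hf⟩ := d.K1 0 _ _ h1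
  refine ⟨Sum.elim f' f'', ?_⟩
  rw [B_mulVec]
  simp only [Sum.elim_comp_inl, Sum.elim_comp_inr]
  rw [zero_add] at hf
  rw [zero_add, ← hf]
  have h2 : -(H 0 *ᵥ f') - D 0 *ᵥ f'' = v ∘ Sum.inr := by
    apply smul_cancel d.x_ne
    have h3 : x • (v ∘ Sum.inr) = -(D 0 *ᵥ (v ∘ Sum.inl)) := by
      rw [h1, smul_neg, neg_neg]
    rw [h3, hf, Matrix.mulVec_add, Matrix.mulVec_mulVec, d.DD 0, Matrix.mulVec_smul, smul_sub,
      smul_neg, Matrix.smul_mulVec]
    abel
  rw [h2]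
  exact Sum.elim_comp_inl_inr v

lemma exact_B (d : Data m J x D H κ) (n : ℕ) {v : I4 → R} (hv : B x D H n *ᵥ v = 0) :
    ∃ w, B x D H (n + 1) *ᵥ w = v := by
  rw [B_mulVec] at hv
  have hv1 : D (n + 1) *ᵥ (v ∘ Sum.inl) + x • (v ∘ Sum.inr) = 0 := by
    have := congrArg (fun z : I4 → R => z ∘ Sum.inl) hv
    simp only [Sum.elim_comp_inl] at this
    exact this
  have h1 : D (n + 1) *ᵥ (v ∘ Sum.inl) = x • (-(v ∘ Sum.inr)) := by
    rw [smul_neg]; exact eq_neg_of_add_eq_zero_left hv1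
  obtain ⟨f', f'', hf⟩ := d.K1 (n + 1) _ _ h1
  refine ⟨Sum.elim f' f'', ?_⟩
  rw [B_mulVec]
  simp only [Sum.elim_comp_inl, Sum.elim_comp_inr]
  rw [← hf]
  have h2 : -(H (n + 1) *ᵥ f') - D (n + 1) *ᵥ f'' = v ∘ Sum.inr := by
    apply smul_cancel d.x_ne
    have h3 : x • (v ∘ Sum.inr) = -(D (n + 1) *ᵥ (v ∘ Sum.inl)) := by
      rw [h1, smul_neg, neg_neg]
    rw [h3, hf, Matrix.mulVec_add, Matrix.mulVec_mulVec, d.DD (n + 1), Matrix.mulVec_smul,
      smul_sub, smul_neg, Matrix.smul_mulVec]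
    abel
  rw [h2]
  exact Sum.elim_comp_inl_inr v

omit [IsDomain R] in
lemma mulVec_mem {I₁ I₂ I₃ : Ideal R} {A : Matrix (Fin 2) (Fin 2) R} {f : Fin 2 → R}
    (hmul : ∀ a ∈ I₁, ∀ b ∈ I₂, a * b ∈ I₃) (hA : ∀ i j, A i j ∈ I₁) (hf : ∀ i, f i ∈ I₂)
    (i : Fin 2) : (A *ᵥ f) i ∈ I₃ := by
  rw [Matrix.mulVec, dotProduct]
  exact Ideal.sum_mem _ fun j _ => hmul _ (hA i j) _ (hf j)

lemma exact_J (d : Data m J x D H κ) (n : ℕ) {v : I4 → R} (hvJ : ∀ i, v i ∈ J)
    (hv : B x D H n *ᵥ v = 0) :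
    ∃ w : I4 → R, (∀ i, w i ∈ J) ∧ B x D H (n + 1) *ᵥ w = v := by
  obtain ⟨w, hw⟩ := exact_B d n hv
  set f := w ∘ Sum.inl with hf
  set g := w ∘ Sum.inr with hg
  have hw' := hw
  rw [B_mulVec] at hw'
  have e1 : D (n + 2) *ᵥ f + x • g = v ∘ Sum.inl := by
    have := congrArg (fun z : I4 → R => z ∘ Sum.inl) hw'
    simp only [Sum.elim_comp_inl] at this
    exact this
  have e2 : -(H (n + 1) *ᵥ f) - D (n + 1) *ᵥ g = v ∘ Sum.inr := by
    have := congrArg (fun z : I4 → R => z ∘ Sum.inr) hw'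
    simp only [Sum.elim_comp_inr] at this
    exact this
  have hxg : ∀ i, (x • g) i ∈ J := fun i => J.mul_mem_right _ d.xJ
  have hfm : ∀ i, f i ∈ m := by
    apply d.K2 (n + 1)
    intro i
    have h1 : (D (n + 1 + 1) *ᵥ f) i = (v ∘ Sum.inl) i - (x • g) i := by
      rw [← e1, Pi.add_apply, add_sub_cancel_right]
    rw [h1]
    exact J.sub_mem (hvJ _) (hxg i)
  have hHf : ∀ i, (H (n + 1) *ᵥ f) i ∈ J := mulVec_mem d.mmJ (d.Hm (n + 1)) hfm
  have hgm : ∀ i, g i ∈ m := by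
    apply d.K2 n
    intro i
    have h1 : (D (n + 1) *ᵥ g) i = -(v ∘ Sum.inr) i - (H (n + 1) *ᵥ f) i := by
      rw [← e2, Pi.sub_apply, Pi.neg_apply]; ring
    rw [h1]
    exact J.sub_mem (J.neg_mem (hvJ _)) (hHf i)
  obtain ⟨u, hu⟩ := d.K3 (n + 2) f hfm
  have hHu : ∀ i, (g + H (n + 2) *ᵥ u) i ∈ m := by
    intro i
    refine m.add_mem (hgm i) ?_
    exact mulVec_mem (I₂ := ⊤) (fun a ha b _ => m.mul_mem_right _ ha) (d.Hm (n + 2))
      (fun _ => trivial) i
  obtain ⟨u', hu'⟩ := d.K3 (n + 1) (g + H (n + 2) *ᵥ u) hHu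
  refine ⟨w - B x D H (n + 2) *ᵥ Sum.elim u (-u'), ?_, ?_⟩
  · intro i
    rw [B_mulVec]
    simp only [Sum.elim_comp_inl, Sum.elim_comp_inr]
    rcases i with i | i
    · have h1 : (w - Sum.elim (D (n + 2 + 1) *ᵥ u + x • (-u'))
          (-(H (n + 2) *ᵥ u) - D (n + 2) *ᵥ (-u'))) (Sum.inl i) =
          (f - D (n + 2 + 1) *ᵥ u) i + (x • u') i := by
        simp only [Pi.sub_apply, Sum.elim_inl, Pi.neg_apply, Pi.add_apply, hf,
          Function.comp_apply, smul_neg]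
        ring
      rw [h1]
      exact J.add_mem (hu i) (J.mul_mem_right _ d.xJ)
    · have h1 : (w - Sum.elim (D (n + 2 + 1) *ᵥ u + x • (-u'))
          (-(H (n + 2) *ᵥ u) - D (n + 2) *ᵥ (-u'))) (Sum.inr i) =
          (g + H (n + 2) *ᵥ u - D (n + 1 + 1) *ᵥ u') i := by
        simp only [Pi.sub_apply, Sum.elim_inr, Pi.neg_apply, Pi.add_apply, hg, Function.comp_apply,
          Matrix.mulVec_neg]
        ring
      rw [h1]
      exact hu' i
  · rw [Matrix.mulVec_sub, Matrix.mulVec_mulVec, BB d (n + 1), Matrix.zero_mulVec, sub_zero, hw]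

/-- The element whose class spans a socle element of the tensor product. -/
def vec (x : R) (D : ℕ → Matrix (Fin 2) (Fin 2) R) (κ : Fin 2 → R) : I4 → R :=
  Sum.elim (x • κ) (-(D 0 *ᵥ κ))

omit [IsDomain R] in
lemma vec_mem (d : Data m J x D H κ) (i : I4) : vec x D κ i ∈ J := by
  rcases i with i | i
  · exact J.mul_mem_right _ d.xJ
  · exact J.neg_mem (d.K4 i)

omit [IsDomain R] in
lemma vec_eq : vec x D κ = B x D H 0 *ᵥ (Sum.elim (0 : Fin 2 → R) κ : I4 → R) := by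
  rw [B_mulVec, vec]
  simp only [Sum.elim_comp_inl, Sum.elim_comp_inr, Matrix.mulVec_zero, zero_add, neg_zero, zero_sub]

lemma vec_not_mem (d : Data m J x D H κ) :
    ¬ ∃ w : I4 → R, (∀ i, w i ∈ J) ∧ B x D H 0 *ᵥ w = vec x D κ := by
  rintro ⟨w, hwJ, hw⟩
  have h1 : B x D H 0 *ᵥ ((Sum.elim (0 : Fin 2 → R) κ : I4 → R) - w) = 0 := by
    rw [Matrix.mulVec_sub, hw, ← vec_eq, sub_self]
  obtain ⟨u, hu⟩ := exact_B d 0 h1
  rw [B_mulVec] at hu
  obtain ⟨i, hi⟩ := d.κm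
  apply hi
  have h2 := congrFun hu (Sum.inr i)
  simp only [Sum.elim_inr, Pi.sub_apply, Pi.neg_apply] at h2
  have h3 : κ i = w (Sum.inr i) + (-(H (0 + 1) *ᵥ (u ∘ Sum.inl)) i -
      (D (0 + 1) *ᵥ (u ∘ Sum.inr)) i) := by
    rw [h2]; ring
  rw [h3]
  have hm : ∀ a ∈ m, ∀ b ∈ (⊤ : Ideal R), a * b ∈ m := fun a ha b _ => m.mul_mem_right _ ha
  refine m.add_mem (d.Jm (hwJ _)) (m.sub_mem (m.neg_mem ?_) ?_)
  · exact mulVec_mem hm (d.Hm _) (fun _ => trivial) i
  · exact mulVec_mem hm (d.Dm _) (fun _ => trivial) i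

lemma smul_vec (d : Data m J x D H κ) {r : R} (hr : r ∈ m) :
    ∃ w : I4 → R, (∀ i, w i ∈ J) ∧ B x D H 0 *ᵥ w = r • vec x D κ := by
  obtain ⟨u, hu⟩ := d.K3 0 (r • κ) (fun i => m.mul_mem_right _ hr)
  refine ⟨(Sum.elim (0 : Fin 2 → R) (r • κ) : I4 → R) + B x D H 1 *ᵥ
    (Sum.elim (0 : Fin 2 → R) u : I4 → R), ?_, ?_⟩
  · rw [B_mulVec]
    simp only [Sum.elim_comp_inl, Sum.elim_comp_inr, Matrix.mulVec_zero, zero_add, neg_zero,
      zero_sub]
    rintro (i | i)
    · simp only [Pi.add_apply, Sum.elim_inl, Pi.zero_apply, zero_add]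
      exact J.mul_mem_right _ d.xJ
    · have := hu i
      simp only [Pi.add_apply, Sum.elim_inr, Pi.neg_apply, Pi.sub_apply] at this ⊢
      rw [← sub_eq_add_neg]
      exact this
  · rw [Matrix.mulVec_add, Matrix.mulVec_mulVec, BB d 0, Matrix.zero_mulVec, add_zero,
      vec_eq (H := H), ← Matrix.mulVec_smul]
    congr 1
    funext i
    rcases i with i | i <;> simp

section Tensor

variable (J)

/-- A matrix acting on vectors with entries in the ideal. -/
noncomputable def actJ (A : Matrix I4 I4 R) : (I4 → J) →ₗ[R] (I4 → J) where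
  toFun v i := ∑ j, A i j • v j
  map_add' v w := by
    funext i
    simp [Finset.sum_add_distrib]
  map_smul' r v := by
    funext i
    simp only [Pi.smul_apply, RingHom.id_apply, Finset.smul_sum]
    refine Finset.sum_congr rfl fun j _ => ?_
    rw [smul_comm]

omit [IsDomain R] in
lemma coe_actJ (A : Matrix I4 I4 R) (v : I4 → J) (i : I4) :
    ((actJ J A v i : J) : R) = (A *ᵥ (fun j => (v j : R))) i := by
  simp only [actJ, LinearMap.coe_mk, AddHom.coe_mk, Matrix.mulVec, dotProduct]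
  rw [← Submodule.subtype_apply, map_sum]
  rfl

omit [IsDomain R] in
lemma ladder (A : Matrix I4 I4 R) :
    (A.mulVecLin.lTensor J) ∘ₗ ((TensorProduct.piScalarRight R R J I4).symm : (I4 → J) →ₗ[R] _) =
      ((TensorProduct.piScalarRight R R J I4).symm : (I4 → J) →ₗ[R] _) ∘ₗ actJ J A := by
  have h : ((TensorProduct.piScalarRight R R J I4) : (J ⊗[R] (I4 → R)) →ₗ[R] _) ∘ₗ
      (A.mulVecLin.lTensor J) =
      actJ J A ∘ₗ ((TensorProduct.piScalarRight R R J I4) : (J ⊗[R] (I4 → R)) →ₗ[R] _) := by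
    apply TensorProduct.ext'
    intro a w
    funext i
    simp only [LinearMap.comp_apply, LinearMap.lTensor_tmul, LinearEquiv.coe_coe,
      TensorProduct.piScalarRight_apply, TensorProduct.piScalarRightHom_tmul, actJ,
      LinearMap.coe_mk, AddHom.coe_mk, Matrix.mulVecLin_apply, Matrix.mulVec, dotProduct,
      Finset.sum_smul, smul_smul]
  apply LinearMap.ext
  intro v
  have h1 := LinearMap.congr_fun h ((TensorProduct.piScalarRight R R J I4).symm v)
  simp only [LinearMap.comp_apply, LinearEquiv.coe_coe, LinearEquiv.apply_symm_apply] at h1 ⊢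
  rw [← h1, LinearEquiv.symm_apply_apply]

variable {J}

lemma exact_actJ (d : Data m J x D H κ) (n : ℕ) :
    Function.Exact (actJ J (B x D H (n + 1))) (actJ J (B x D H n)) := by
  intro v
  constructor
  · intro hv
    have h1 : B x D H n *ᵥ (fun j => (v j : R)) = 0 := by
      funext i
      rw [← coe_actJ, hv]
      rfl
    obtain ⟨w, hwJ, hw⟩ := exact_J d n (fun i => (v i).2) h1
    refine ⟨fun i => ⟨w i, hwJ i⟩, ?_⟩
    funext i
    apply Subtype.ext
    rw [coe_actJ]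
    exact congrFun hw i
  · rintro ⟨w, rfl⟩
    funext i
    apply Subtype.ext
    rw [coe_actJ]
    have h1 : (fun j => ((actJ J (B x D H (n + 1)) w j : J) : R)) =
        B x D H (n + 1) *ᵥ (fun j => (w j : R)) := by
      funext j; exact coe_actJ J _ _ _
    rw [h1, Matrix.mulVec_mulVec, BB d n, Matrix.zero_mulVec]
    rfl

lemma exact_lTensor (d : Data m J x D H κ) (n : ℕ) :
    Function.Exact ((B x D H (n + 1)).mulVecLin.lTensor J) ((B x D H n).mulVecLin.lTensor J) :=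
  Function.Exact.of_ladder_linearEquiv_of_exact (ladder J _) (ladder J _) (exact_actJ d n)

/-- The module `X`. -/
noncomputable abbrev Xmod (x : R) (D : ℕ → Matrix (Fin 2) (Fin 2) R) : Submodule R (Fin 2 → R) :=
  LinearMap.range (eps x D)

lemma exact0 (d : Data m J x D H κ) :
    Function.Exact (B x D H 0).mulVecLin (eps x D).rangeRestrict := by
  intro v
  constructor
  · intro hv
    have h1 : eps x D v = 0 := congrArg Subtype.val hv
    obtain ⟨w, hw⟩ := exact_eps d h1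
    exact ⟨w, hw⟩
  · rintro ⟨w, rfl⟩
    apply Subtype.ext
    exact eps_B d w

lemma exactn (d : Data m J x D H κ) (n : ℕ) :
    Function.Exact (B x D H (n + 1)).mulVecLin (B x D H n).mulVecLin := by
  intro v
  constructor
  · intro hv
    obtain ⟨w, hw⟩ := exact_B d n hv
    exact ⟨w, hw⟩
  · rintro ⟨w, rfl⟩
    simp only [Matrix.mulVecLin_apply, Matrix.mulVec_mulVec, BB d n, Matrix.zero_mulVec]

/-- `Tor` vanishing. -/
theorem tor_vanish (d : Data m J x D H κ) (n : ℕ) :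
    IsZero (((Tor (ModuleCat.{u} R) (n + 1)).obj (ModuleCat.of R J)).obj
      (ModuleCat.of R (Xmod x D))) :=
  TorTools.isZero_tor (fun n => (B x D H n).mulVecLin) (eps x D).rangeRestrict (exact0 d)
    (LinearMap.surjective_rangeRestrict _) (exactn d) _ (exact_lTensor d) n

/-- The tensor product has a nonzero element killed by `m`. -/
theorem exists_socle (d : Data m J x D H κ) :
    ∃ z : J ⊗[R] (Xmod x D), z ≠ 0 ∧ ∀ r ∈ m, r • z = 0 := by
  let v : I4 → J := fun i => ⟨vec x D κ i, vec_mem d i⟩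
  let φ := (TensorProduct.piScalarRight R R J I4).symm
  have hex : Function.Exact ((B x D H 0).mulVecLin.lTensor J) ((eps x D).rangeRestrict.lTensor J) :=
    lTensor_exact J (exact0 d) (LinearMap.surjective_rangeRestrict _)
  refine ⟨(eps x D).rangeRestrict.lTensor J (φ v), ?_, ?_⟩
  · intro h
    obtain ⟨y, hy⟩ := (hex _).1 h
    have h1 := LinearMap.congr_fun (ladder J (B x D H 0)) (φ.symm y)
    simp only [LinearMap.comp_apply, LinearEquiv.coe_coe] at h1
    have h2 : φ (φ.symm y) = y := φ.apply_symm_apply y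
    rw [show (TensorProduct.piScalarRight R R J I4).symm (φ.symm y) = y from h2, hy] at h1
    have h3 : v = actJ J (B x D H 0) (φ.symm y) := φ.injective h1
    apply vec_not_mem d
    refine ⟨fun i => (φ.symm y i : R), fun i => (φ.symm y i).2, ?_⟩
    funext i
    have h4 := congrArg Subtype.val (congrFun h3 i)
    rw [coe_actJ] at h4
    exact h4.symm
  · intro r hr
    rw [← map_smul, ← map_smul]
    obtain ⟨w, hwJ, hw⟩ := smul_vec d hr
    let w' : I4 → J := fun i => ⟨w i, hwJ i⟩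
    have h1 : r • v = actJ J (B x D H 0) w' := by
      funext i
      apply Subtype.ext
      rw [coe_actJ]
      exact (congrFun hw i).symm
    have h2 := LinearMap.congr_fun (ladder J (B x D H 0)) w'
    simp only [LinearMap.comp_apply, LinearEquiv.coe_coe] at h2
    rw [h1]
    change (eps x D).rangeRestrict.lTensor J
      ((TensorProduct.piScalarRight R R J I4).symm (actJ J (B x D H 0) w')) = 0
    rw [← h2]
    exact (hex _).2 ⟨_, rfl⟩

end Tensor

end Pool.Agent.helper42.TwistedRes
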