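import Mathlib
import Pool.Agent.helper42.SemigroupRing
import Pool.Agent.helper42.TwistedRes

/-!
The numerical semigroup generated by `8, 9, 10, 11, 13` and the data needed for
`TwistedRes` over its semigroup ring.
-/

set_option autoImplicit false

open PowerSeries Pool.Agent.helper42.SemigroupRing

namespace Pool.Agent.helper42.Semi8

universe u

/-- The numerical semigroup generated by `8, 9, 10, 11, 13`. -/
def S : AddSubmonoid ℕ := AddSubmonoid.closure {8, 9, 10, 11, 13}

lemma gen_mem {n : ℕ} (h : n ∈ ({8, 9, 10, 11, 13} : Set ℕ)) : n ∈ S :=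
  AddSubmonoid.subset_closure h

lemma mem_S_iff (n : ℕ) : n ∈ S ↔ (n = 0 ∨ (8 ≤ n ∧ n ≠ 12 ∧ n ≠ 14 ∧ n ≠ 15)) := by
  constructor
  · intro h
    induction h using AddSubmonoid.closure_induction with
    | mem x hx =>
      simp only [Set.mem_insert_iff, Set.mem_singleton_iff] at hx
      omega
    | zero => left; rfl
    | add x y _ _ hx hy => omega
  · have h8 : 8 ∈ S := gen_mem (by simp)
    have h9 : 9 ∈ S := gen_mem (by simp)
    have h10 : 10 ∈ S := gen_mem (by simp)
    have h11 : 11 ∈ S := gen_mem (by simp)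
    have h13 : 13 ∈ S := gen_mem (by simp)
    induction n using Nat.strong_induction_on with
    | _ n ih =>
      intro h
      by_cases h24 : 24 ≤ n
      · have h1 : n - 8 ∈ S := ih (n - 8) (by omega) (by omega)
        have h2 : n = (n - 8) + 8 := by omega
        rw [h2]
        exact S.add_mem h1 h8
      · have h3 : n = 0 ∨ n = 8 ∨ n = 9 ∨ n = 10 ∨ n = 11 ∨ n = 13 ∨ n = 8 + 8 ∨ n = 8 + 9 ∨
            n = 8 + 10 ∨ n = 8 + 11 ∨ n = 9 + 11 ∨ n = 8 + 13 ∨ n = 11 + 11 ∨ n = 10 + 13 := by
          omega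
        rcases h3 with h | h | h | h | h | h | h | h | h | h | h | h | h | h <;> rw [h]
        · exact S.zero_mem
        all_goals first | assumption | exact S.add_mem ‹_› ‹_›

lemma compl_finite : ((S : Set ℕ)ᶜ).Finite := by
  refine (Set.finite_lt_nat 16).subset ?_
  intro n hn
  rw [Set.mem_compl_iff, SetLike.mem_coe, mem_S_iff] at hn
  change n < 16
  omega

variable {k : Type u} [Field k]

variable (k) in
/-- The semigroup ring. -/
abbrev R : Type u := semigroupRing k S

/-- Coefficients of an element of the semigroup ring. -/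
noncomputable def co (j : ℕ) (f : R k) : k := coeff j (f : PowerSeries k)

lemma co_gap (f : R k) {j : ℕ} (hj : ¬ (j = 0 ∨ (8 ≤ j ∧ j ≠ 12 ∧ j ≠ 14 ∧ j ≠ 15))) :
    co j f = 0 := f.2 j (by rwa [mem_S_iff])

lemma co_add (j : ℕ) (f g : R k) : co j (f + g) = co j f + co j g := by
  simp [co]

lemma co_sub (j : ℕ) (f g : R k) : co j (f - g) = co j f - co j g := by
  simp [co]

lemma co_neg (j : ℕ) (f : R k) : co j (-f) = -co j f := by
  simp [co]

lemma co_zero (j : ℕ) : co j (0 : R k) = 0 := by
  simp [co]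

/-- Constants. -/
noncomputable def cst (r : k) : R k := ⟨C r, fun n hn => by
  rw [coeff_C, if_neg]
  rintro rfl
  exact hn S.zero_mem⟩

/-- Powers of the variable. -/
noncomputable def T (n : ℕ) (hn : n = 0 ∨ (8 ≤ n ∧ n ≠ 12 ∧ n ≠ 14 ∧ n ≠ 15)) : R k :=
  ⟨X ^ n, fun m hm => by
    rw [coeff_X_pow, if_neg]
    rintro rfl
    exact hm ((mem_S_iff _).2 hn)⟩

lemma co_cst_mul (j : ℕ) (r : k) (f : R k) : co j (cst r * f) = r * co j f := by
  simp [co, cst]

lemma co_T_mul (j n : ℕ) (hn) (f : R k) :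
    co j (T n hn * f) = if n ≤ j then co (j - n) f else 0 := by
  simp only [co, T, Subring.coe_mul]
  exact coeff_X_pow_mul' _ _ _

lemma co_T (j n : ℕ) (hn) : co j (T n hn : R k) = if j = n then 1 else 0 := by
  simp only [co, T]
  exact coeff_X_pow _ _

lemma co_cst (j : ℕ) (r : k) : co j (cst r : R k) = if j = 0 then r else 0 := by
  simp only [co, cst]
  exact coeff_C _ _

/-- Elements with prescribed coefficients. -/
noncomputable def el (v0 v9 v10 v11 v13 : k) : R k :=
  cst v0 + cst v9 * T 9 (by decide) + cst v10 * T 10 (by decide) + cst v11 * T 11 (by decide) +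
    cst v13 * T 13 (by decide)

lemma co_el (j : ℕ) (v0 v9 v10 v11 v13 : k) : co j (el v0 v9 v10 v11 v13) =
    (if j = 0 then v0 else 0) + v9 * (if j = 9 then 1 else 0) + v10 * (if j = 10 then 1 else 0) +
      v11 * (if j = 11 then 1 else 0) + v13 * (if j = 13 then 1 else 0) := by
  simp only [el, co_add, co_cst_mul, co_T, co_cst]

/-- The Apéry criterion. -/
lemma exists_mul (f : R k) (h0 : co 0 f = 0) (h9 : co 9 f = 0) (h10 : co 10 f = 0)
    (h11 : co 11 f = 0) (h13 : co 13 f = 0) (h20 : co 20 f = 0) (h22 : co 22 f = 0)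
    (h23 : co 23 f = 0) : ∃ g : R k, f = T 8 (by decide) * g := by
  refine ⟨⟨PowerSeries.mk fun n => coeff (n + 8) (f : PowerSeries k), ?_⟩, ?_⟩
  · intro n hn
    rw [mem_S_iff] at hn
    rw [coeff_mk]
    change co (n + 8) f = 0
    have h1 : n = 1 ∨ n = 2 ∨ n = 3 ∨ n = 4 ∨ n = 5 ∨ n = 6 ∨ n = 7 ∨ n = 12 ∨ n = 14 ∨ n = 15 := by
      omega
    rcases h1 with h | h | h | h | h | h | h | h | h | h <;> rw [h]
    · exact h9
    · exact h10
    · exact h11
    · exact co_gap f (by decide)
    · exact h13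
    · exact co_gap f (by decide)
    · exact co_gap f (by decide)
    · exact h20
    · exact h22
    · exact h23
  · apply Subtype.ext
    ext n
    change co n f = co n (_ * _)
    rw [co_T_mul]
    split_ifs with h
    · simp only [co, coeff_mk, Nat.sub_add_cancel h]
    · by_cases hn : n = 0
      · rw [hn, h0]
      · exact co_gap f (by omega)

/-- The linear form. -/
noncomputable def lam (f : R k) : k := co 9 f - co 10 f + co 11 f - 3 * co 13 f

lemma co_mul_0 (f g : R k) : co 0 (f * g) = co 0 f * co 0 g := by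
  simp [co]

lemma co_mul_small (j : ℕ) (hj : j = 9 ∨ j = 10 ∨ j = 11 ∨ j = 13) (f g : R k) :
    co j (f * g) = co 0 f * co j g + co j f * co 0 g := by
  change coeff j ((f : PowerSeries k) * (g : PowerSeries k)) = _
  rw [coeff_mul]
  have h0j : ((0, j) : ℕ × ℕ) ≠ (j, 0) := by
    intro h
    simp only [Prod.mk.injEq] at h
    omega
  rw [← Finset.sum_subset (s₁ := {(0, j), (j, 0)})]
  · rw [Finset.sum_pair h0j]
    rfl
  · intro p hp
    simp only [Finset.mem_insert, Finset.mem_singleton] at hp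
    rw [Finset.HasAntidiagonal.mem_antidiagonal]
    rcases hp with rfl | rfl <;> simp
  · rintro ⟨p, q⟩ hp hp'
    rw [Finset.HasAntidiagonal.mem_antidiagonal] at hp
    simp only [Finset.mem_insert, Finset.mem_singleton, Prod.mk.injEq, not_or, not_and] at hp hp'
    by_cases h1 : p = 0 ∨ (8 ≤ p ∧ p ≠ 12 ∧ p ≠ 14 ∧ p ≠ 15)
    · have h2 : ¬ (q = 0 ∨ (8 ≤ q ∧ q ≠ 12 ∧ q ≠ 14 ∧ q ≠ 15)) := by omega
      have h3 : coeff q (g : PowerSeries k) = 0 := co_gap g h2
      simp only [h3, mul_zero]
    · have h3 : coeff p (f : PowerSeries k) = 0 := co_gap f h1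
      simp only [h3, zero_mul]

lemma lam_mul (f g : R k) : lam (f * g) = co 0 f * lam g + lam f * co 0 g := by
  simp only [lam, co_mul_small 9 (by decide), co_mul_small 10 (by decide),
    co_mul_small 11 (by decide), co_mul_small 13 (by decide)]
  ring

lemma lam_add (f g : R k) : lam (f + g) = lam f + lam g := by
  simp only [lam, co_add]; ring

lemma lam_sub (f g : R k) : lam (f - g) = lam f - lam g := by
  simp only [lam, co_sub]; ring

variable (k) in
/-- The ideal `J`. -/
noncomputable def J : Ideal (R k) where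
  carrier := {f | co 0 f = 0 ∧ lam f = 0}
  add_mem' := by
    rintro f g ⟨h1, h2⟩ ⟨h3, h4⟩
    exact ⟨by rw [co_add, h1, h3, add_zero], by rw [lam_add, h2, h4, add_zero]⟩
  zero_mem' := ⟨co_zero 0, by simp [lam, co_zero]⟩
  smul_mem' := by
    rintro r f ⟨h1, h2⟩
    refine ⟨?_, ?_⟩
    · rw [smul_eq_mul, co_mul_0, h1, mul_zero]
    · rw [smul_eq_mul, lam_mul, h1, h2, mul_zero, mul_zero, add_zero]

lemma mem_J {f : R k} : f ∈ J k ↔ co 0 f = 0 ∧ lam f = 0 := Iff.rfl

lemma mem_m {f : R k} : f ∈ IsLocalRing.maximalIdeal (R k) ↔ co 0 f = 0 :=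
  mem_maximalIdeal_iff f

/-- The element `t^8`. -/
noncomputable def x : R k := T 8 (by decide)
/-- The element `t^9`. -/
noncomputable def a : R k := T 9 (by decide)
/-- The element `t^10`. -/
noncomputable def b : R k := T 10 (by decide)
/-- The element `t^11`. -/
noncomputable def c : R k := T 11 (by decide)
/-- The element `t^13`. -/
noncomputable def d : R k := T 13 (by decide)

/-- The even matrices. -/
noncomputable def E (s : k) : Matrix (Fin 2) (Fin 2) (R k) :=
  !![-c, -a + b + cst s * c; b, c + d]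

/-- The odd matrices. -/
noncomputable def O (s : k) : Matrix (Fin 2) (Fin 2) (R k) :=
  !![a - d, -(cst (s + 1) * a) + b + cst s * c; b, -a + c]

/-- The quotients `E_s O_s / x`. -/
noncomputable def P (s : k) : Matrix (Fin 2) (Fin 2) (R k) :=
  !![x * x - c + cst s * d, b - c; c + d, x * x - cst (s + 1) * c + cst s * d]

/-- The quotients `O_s E_{s+1} / x`. -/
noncomputable def Q (s : k) : Matrix (Fin 2) (Fin 2) (R k) :=
  !![x * x - cst (s + 1) * c + cst s * d, -b + c + d - x * x; -c, x * x - c + cst (s + 1) * d]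

lemma E_mul_O (s : k) : E s * O s = (x : R k) • P s := by
  refine Matrix.ext fun i j => Subtype.ext ?_
  fin_cases i <;> fin_cases j <;>
    simp [E, O, P, x, a, b, c, d, T, cst, Matrix.mul_apply, Fin.sum_univ_two] <;> ring

lemma O_mul_E (s : k) : O s * E (s + 1) = (x : R k) • Q s := by
  refine Matrix.ext fun i j => Subtype.ext ?_
  fin_cases i <;> fin_cases j <;>
    simp [E, O, Q, x, a, b, c, d, T, cst, Matrix.mul_apply, Fin.sum_univ_two] <;> ring

lemma mulVec_E (s : k) (f : Fin 2 → R k) : Matrix.mulVec (E s) f =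
    ![-(c * f 0) + (-(a * f 1) + b * f 1 + cst s * (c * f 1)), b * f 0 + (c * f 1 + d * f 1)] := by
  funext i
  fin_cases i <;> simp [E, Matrix.mulVec, dotProduct, Fin.sum_univ_two] <;> ring

lemma mulVec_O (s : k) (f : Fin 2 → R k) : Matrix.mulVec (O s) f =
    ![a * f 0 - d * f 0 + (-(cst (s + 1) * (a * f 1)) + b * f 1 + cst s * (c * f 1)),
      b * f 0 + (-(a * f 1) + c * f 1)] := by
  funext i
  fin_cases i <;> simp [O, Matrix.mulVec, dotProduct, Fin.sum_univ_two] <;> ring

lemma gap1 (q : R k) : co 1 q = 0 := co_gap q (by decide)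
lemma gap2 (q : R k) : co 2 q = 0 := co_gap q (by decide)
lemma gap3 (q : R k) : co 3 q = 0 := co_gap q (by decide)
lemma gap4 (q : R k) : co 4 q = 0 := co_gap q (by decide)
lemma gap5 (q : R k) : co 5 q = 0 := co_gap q (by decide)
lemma gap6 (q : R k) : co 6 q = 0 := co_gap q (by decide)
lemma gap7 (q : R k) : co 7 q = 0 := co_gap q (by decide)
lemma gap12 (q : R k) : co 12 q = 0 := co_gap q (by decide)
lemma gap14 (q : R k) : co 14 q = 0 := co_gap q (by decide)
lemma gap15 (q : R k) : co 15 q = 0 := co_gap q (by decide)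

lemma K1_E (s : k) (f g : Fin 2 → R k) (h : Matrix.mulVec (E s) f = (x : R k) • g) :
    ∃ f' f'' : Fin 2 → R k, f = Matrix.mulVec (O s) f' + (x : R k) • f'' := by
  rw [mulVec_E] at h
  have h0 : -(c * f 0) + (-(a * f 1) + b * f 1 + cst s * (c * f 1)) = x * g 0 := congrFun h 0
  have h1 : b * f 0 + (c * f 1 + d * f 1) = x * g 1 := congrFun h 1
  have hr : ∀ j, co j (-(c * f 0) + (-(a * f 1) + b * f 1 + cst s * (c * f 1))) =
      co j (x * g 0) := fun j => by rw [h0]
  have hs : ∀ j, co j (b * f 0 + (c * f 1 + d * f 1)) = co j (x * g 1) := fun j => by rw [h1]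
  simp only [co_add, co_neg, co_cst_mul, a, b, c, d, x, co_T_mul] at hr hs
  have r9 := hr 9
  have r11 := hr 11
  have r20 := hr 20
  have r22 := hr 22
  have r23 := hr 23
  have s10 := hs 10
  have s20 := hs 20
  have s22 := hs 22
  have s23 := hs 23
  norm_num [gap1, gap2, gap3, gap4, gap5, gap6, gap7, gap12, gap14, gap15] at r9 r11 r20 r22 r23 s10 s20 s22 s23
  let u : R k := el (co 10 (f 1)) (co 23 (f 1) + s * co 22 (f 1) - co 22 (f 0)) (-(co 23 (f 0)))
    (co 20 (f 0) + (s + 1) * co 22 (f 1) - s * (co 20 (f 1) + co 23 (f 0) + co 22 (f 1)))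
    (co 23 (f 1))
  let w : R k := el (co 11 (f 1)) (co 20 (f 1) + co 23 (f 0) + co 22 (f 1)) 0 (co 22 (f 1)) 0
  obtain ⟨g0, hg0⟩ := exists_mul
    (f 0 - (a * u - d * u + (-(cst (s + 1) * (a * w)) + b * w + cst s * (c * w))))
    (by
      simp only [co_add, co_sub, co_neg, co_cst_mul, a, b, c, d, co_T_mul, u, w, co_el]
      norm_num [gap1, gap2, gap3, gap4, gap5, gap6, gap7, gap12, gap14, gap15]
      linear_combination s10)
    (by
      simp only [co_add, co_sub, co_neg, co_cst_mul, a, b, c, d, co_T_mul, u, w, co_el]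
      norm_num [gap1, gap2, gap3, gap4, gap5, gap6, gap7, gap12, gap14, gap15]
      linear_combination -r20 + s * s22)
    (by
      simp only [co_add, co_sub, co_neg, co_cst_mul, a, b, c, d, co_T_mul, u, w, co_el]
      norm_num [gap1, gap2, gap3, gap4, gap5, gap6, gap7, gap12, gap14, gap15]
      linear_combination s20 - s22)
    (by
      simp only [co_add, co_sub, co_neg, co_cst_mul, a, b, c, d, co_T_mul, u, w, co_el]
      norm_num [gap1, gap2, gap3, gap4, gap5, gap6, gap7, gap12, gap14, gap15]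
      linear_combination -r22 - r23)
    (by
      simp only [co_add, co_sub, co_neg, co_cst_mul, a, b, c, d, co_T_mul, u, w, co_el]
      norm_num [gap1, gap2, gap3, gap4, gap5, gap6, gap7, gap12, gap14, gap15]
      linear_combination s23)
    (by
      simp only [co_add, co_sub, co_neg, co_cst_mul, a, b, c, d, co_T_mul, u, w, co_el]
      norm_num [gap1, gap2, gap3, gap4, gap5, gap6, gap7, gap12, gap14, gap15])
    (by
      simp only [co_add, co_sub, co_neg, co_cst_mul, a, b, c, d, co_T_mul, u, w, co_el]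
      norm_num [gap1, gap2, gap3, gap4, gap5, gap6, gap7, gap12, gap14, gap15]
      linear_combination 0)
    (by
      simp only [co_add, co_sub, co_neg, co_cst_mul, a, b, c, d, co_T_mul, u, w, co_el]
      norm_num [gap1, gap2, gap3, gap4, gap5, gap6, gap7, gap12, gap14, gap15])
  obtain ⟨g1, hg1⟩ := exists_mul (f 1 - (b * u + (-(a * w) + c * w)))
    (by
      simp only [co_add, co_sub, co_neg, co_cst_mul, a, b, c, d, co_T_mul, u, w, co_el]
      norm_num [gap1, gap2, gap3, gap4, gap5, gap6, gap7, gap12, gap14, gap15]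
      linear_combination r9)
    (by
      simp only [co_add, co_sub, co_neg, co_cst_mul, a, b, c, d, co_T_mul, u, w, co_el]
      norm_num [gap1, gap2, gap3, gap4, gap5, gap6, gap7, gap12, gap14, gap15]
      linear_combination s22)
    (by
      simp only [co_add, co_sub, co_neg, co_cst_mul, a, b, c, d, co_T_mul, u, w, co_el]
      norm_num [gap1, gap2, gap3, gap4, gap5, gap6, gap7, gap12, gap14, gap15])
    (by
      simp only [co_add, co_sub, co_neg, co_cst_mul, a, b, c, d, co_T_mul, u, w, co_el]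
      norm_num [gap1, gap2, gap3, gap4, gap5, gap6, gap7, gap12, gap14, gap15])
    (by
      simp only [co_add, co_sub, co_neg, co_cst_mul, a, b, c, d, co_T_mul, u, w, co_el]
      norm_num [gap1, gap2, gap3, gap4, gap5, gap6, gap7, gap12, gap14, gap15]
      linear_combination r23)
    (by
      simp only [co_add, co_sub, co_neg, co_cst_mul, a, b, c, d, co_T_mul, u, w, co_el]
      norm_num [gap1, gap2, gap3, gap4, gap5, gap6, gap7, gap12, gap14, gap15])
    (by
      simp only [co_add, co_sub, co_neg, co_cst_mul, a, b, c, d, co_T_mul, u, w, co_el]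
      norm_num [gap1, gap2, gap3, gap4, gap5, gap6, gap7, gap12, gap14, gap15])
    (by
      simp only [co_add, co_sub, co_neg, co_cst_mul, a, b, c, d, co_T_mul, u, w, co_el]
      norm_num [gap1, gap2, gap3, gap4, gap5, gap6, gap7, gap12, gap14, gap15])
  refine ⟨![u, w], ![g0, g1], ?_⟩
  rw [mulVec_O]
  funext i
  fin_cases i
  · change f 0 = (a * u - d * u + (-(cst (s + 1) * (a * w)) + b * w + cst s * (c * w))) + x * g0
    rw [x, ← hg0]; ring
  · change f 1 = (b * u + (-(a * w) + c * w)) + x * g1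
    rw [x, ← hg1]; ring

lemma K1_O (s : k) (f g : Fin 2 → R k) (h : Matrix.mulVec (O s) f = (x : R k) • g) :
    ∃ f' f'' : Fin 2 → R k, f = Matrix.mulVec (E (s + 1)) f' + (x : R k) • f'' := by
  rw [mulVec_O] at h
  have h0 : a * f 0 - d * f 0 + (-(cst (s + 1) * (a * f 1)) + b * f 1 + cst s * (c * f 1)) =
    x * g 0 := congrFun h 0
  have h1 : b * f 0 + (-(a * f 1) + c * f 1) = x * g 1 := congrFun h 1
  have hr : ∀ j, co j (a * f 0 - d * f 0 + (-(cst (s + 1) * (a * f 1)) + b * f 1 +
      cst s * (c * f 1))) = co j (x * g 0) := fun j => by rw [h0]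
  have hs : ∀ j, co j (b * f 0 + (-(a * f 1) + c * f 1)) = co j (x * g 1) := fun j => by rw [h1]
  simp only [co_add, co_sub, co_neg, co_cst_mul, a, b, c, d, x, co_T_mul] at hr hs
  have r10 := hr 10
  have r13 := hr 13
  have r20 := hr 20
  have r22 := hr 22
  have r23 := hr 23
  have s20 := hs 20
  have s22 := hs 22
  have s23 := hs 23
  norm_num [gap1, gap2, gap3, gap4, gap5, gap6, gap7, gap12, gap14, gap15] at r10 r13 r20 r22 r23 s20 s22 s23
  let u : R k := el (co 10 (f 1)) (-(co 20 (f 0)) - co 22 (f 1)) (co 20 (f 1))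
    (-(co 22 (f 0)) - co 23 (f 0) + (s + 1) * co 22 (f 1)) (co 23 (f 1))
  let w : R k := el (co 11 (f 1)) 0 0 (co 22 (f 1)) (co 23 (f 0))
  obtain ⟨g0, hg0⟩ := exists_mul
    (f 0 - (-(c * u) + (-(a * w) + b * w + cst (s + 1) * (c * w))))
    (by
      simp only [co_add, co_sub, co_neg, co_cst_mul, a, b, c, d, co_T_mul, u, w, co_el]
      norm_num [gap1, gap2, gap3, gap4, gap5, gap6, gap7, gap12, gap14, gap15]
      linear_combination r13)
    (by
      simp only [co_add, co_sub, co_neg, co_cst_mul, a, b, c, d, co_T_mul, u, w, co_el]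
      norm_num [gap1, gap2, gap3, gap4, gap5, gap6, gap7, gap12, gap14, gap15]
      linear_combination -r22 + s23 + (s + 1) * s22)
    (by
      simp only [co_add, co_sub, co_neg, co_cst_mul, a, b, c, d, co_T_mul, u, w, co_el]
      norm_num [gap1, gap2, gap3, gap4, gap5, gap6, gap7, gap12, gap14, gap15]
      linear_combination -r23 - s22)
    (by
      simp only [co_add, co_sub, co_neg, co_cst_mul, a, b, c, d, co_T_mul, u, w, co_el]
      norm_num [gap1, gap2, gap3, gap4, gap5, gap6, gap7, gap12, gap14, gap15]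
      linear_combination r20 - s * (s20 + r23 + s22))
    (by
      simp only [co_add, co_sub, co_neg, co_cst_mul, a, b, c, d, co_T_mul, u, w, co_el]
      norm_num [gap1, gap2, gap3, gap4, gap5, gap6, gap7, gap12, gap14, gap15]
      linear_combination s23)
    (by
      simp only [co_add, co_sub, co_neg, co_cst_mul, a, b, c, d, co_T_mul, u, w, co_el]
      norm_num [gap1, gap2, gap3, gap4, gap5, gap6, gap7, gap12, gap14, gap15])
    (by
      simp only [co_add, co_sub, co_neg, co_cst_mul, a, b, c, d, co_T_mul, u, w, co_el]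
      norm_num [gap1, gap2, gap3, gap4, gap5, gap6, gap7, gap12, gap14, gap15]
      linear_combination 0)
    (by
      simp only [co_add, co_sub, co_neg, co_cst_mul, a, b, c, d, co_T_mul, u, w, co_el]
      norm_num [gap1, gap2, gap3, gap4, gap5, gap6, gap7, gap12, gap14, gap15])
  obtain ⟨g1, hg1⟩ := exists_mul (f 1 - (b * u + (c * w + d * w)))
    (by
      simp only [co_add, co_sub, co_neg, co_cst_mul, a, b, c, d, co_T_mul, u, w, co_el]
      norm_num [gap1, gap2, gap3, gap4, gap5, gap6, gap7, gap12, gap14, gap15]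
      linear_combination r10)
    (by
      simp only [co_add, co_sub, co_neg, co_cst_mul, a, b, c, d, co_T_mul, u, w, co_el]
      norm_num [gap1, gap2, gap3, gap4, gap5, gap6, gap7, gap12, gap14, gap15]
      linear_combination s20 + r23 + s22)
    (by
      simp only [co_add, co_sub, co_neg, co_cst_mul, a, b, c, d, co_T_mul, u, w, co_el]
      norm_num [gap1, gap2, gap3, gap4, gap5, gap6, gap7, gap12, gap14, gap15])
    (by
      simp only [co_add, co_sub, co_neg, co_cst_mul, a, b, c, d, co_T_mul, u, w, co_el]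
      norm_num [gap1, gap2, gap3, gap4, gap5, gap6, gap7, gap12, gap14, gap15])
    (by
      simp only [co_add, co_sub, co_neg, co_cst_mul, a, b, c, d, co_T_mul, u, w, co_el]
      norm_num [gap1, gap2, gap3, gap4, gap5, gap6, gap7, gap12, gap14, gap15]
      linear_combination -s22)
    (by
      simp only [co_add, co_sub, co_neg, co_cst_mul, a, b, c, d, co_T_mul, u, w, co_el]
      norm_num [gap1, gap2, gap3, gap4, gap5, gap6, gap7, gap12, gap14, gap15])
    (by
      simp only [co_add, co_sub, co_neg, co_cst_mul, a, b, c, d, co_T_mul, u, w, co_el]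
      norm_num [gap1, gap2, gap3, gap4, gap5, gap6, gap7, gap12, gap14, gap15])
    (by
      simp only [co_add, co_sub, co_neg, co_cst_mul, a, b, c, d, co_T_mul, u, w, co_el]
      norm_num [gap1, gap2, gap3, gap4, gap5, gap6, gap7, gap12, gap14, gap15])
  refine ⟨![u, w], ![g0, g1], ?_⟩
  rw [mulVec_E]
  funext i
  fin_cases i
  · change f 0 = (-(c * u) + (-(a * w) + b * w + cst (s + 1) * (c * w))) + x * g0
    rw [x, ← hg0]; ring
  · change f 1 = (b * u + (c * w + d * w)) + x * g1
    rw [x, ← hg1]; ring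

variable (k) in
/-- The sequence of matrices. -/
noncomputable def D (n : ℕ) : Matrix (Fin 2) (Fin 2) (R k) :=
  if n % 2 = 0 then E ((n / 2 : ℕ) : k) else O ((n / 2 : ℕ) : k)

variable (k) in
/-- The sequence of quotients. -/
noncomputable def H (n : ℕ) : Matrix (Fin 2) (Fin 2) (R k) :=
  if n % 2 = 0 then P ((n / 2 : ℕ) : k) else Q ((n / 2 : ℕ) : k)

lemma D_even (j : ℕ) : D k (2 * j) = E (j : k) := by
  rw [D, if_pos (by omega)]
  congr 2; omega

lemma D_odd (j : ℕ) : D k (2 * j + 1) = O (j : k) := by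
  rw [D, if_neg (by omega)]
  congr 2; omega

lemma H_even (j : ℕ) : H k (2 * j) = P (j : k) := by
  rw [H, if_pos (by omega)]
  congr 2; omega

lemma H_odd (j : ℕ) : H k (2 * j + 1) = Q (j : k) := by
  rw [H, if_neg (by omega)]
  congr 2; omega

lemma D_odd_succ (j : ℕ) : D k (2 * j + 1 + 1) = E ((j : k) + 1) := by
  rw [show 2 * j + 1 + 1 = 2 * (j + 1) by ring, D_even]
  push_cast
  rfl

variable (k) in
/-- The kernel vector. -/
noncomputable def κ : Fin 2 → R k := ![cst 2, cst (-1)]

lemma lam_neg (f : R k) : lam (-f) = -lam f := by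
  simp only [lam, co_neg]; ring

lemma lam_a (f : R k) : lam (a * f) = co 0 f := by
  rw [lam_mul]
  simp [lam, a, co_T]

lemma lam_b (f : R k) : lam (b * f) = -co 0 f := by
  rw [lam_mul]
  simp [lam, b, co_T]

lemma lam_c (f : R k) : lam (c * f) = co 0 f := by
  rw [lam_mul]
  simp [lam, c, co_T]

lemma lam_d (f : R k) : lam (d * f) = -3 * co 0 f := by
  rw [lam_mul]
  simp [lam, d, co_T]

lemma lam_cst_mul (r : k) (f : R k) : lam (cst r * f) = r * lam f := by
  simp only [lam, co_cst_mul]; ring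

lemma co0_a (f : R k) : co 0 (a * f) = 0 := by
  rw [co_mul_0]
  simp [a, co_T]

lemma co0_b (f : R k) : co 0 (b * f) = 0 := by
  rw [co_mul_0]
  simp [b, co_T]

lemma co0_c (f : R k) : co 0 (c * f) = 0 := by
  rw [co_mul_0]
  simp [c, co_T]

lemma co0_d (f : R k) : co 0 (d * f) = 0 := by
  rw [co_mul_0]
  simp [d, co_T]

lemma co0_E (s : k) (f : Fin 2 → R k) (i : Fin 2) : co 0 (Matrix.mulVec (E s) f i) = 0 := by
  rw [mulVec_E]
  fin_cases i
  · change co 0 (-(c * f 0) + (-(a * f 1) + b * f 1 + cst s * (c * f 1))) = 0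
    simp only [co_add, co_neg, co_cst_mul, co0_a, co0_b, co0_c]
    ring
  · change co 0 (b * f 0 + (c * f 1 + d * f 1)) = 0
    simp only [co_add, co0_b, co0_c, co0_d]
    ring

lemma co0_O (s : k) (f : Fin 2 → R k) (i : Fin 2) : co 0 (Matrix.mulVec (O s) f i) = 0 := by
  rw [mulVec_O]
  fin_cases i
  · change co 0 (a * f 0 - d * f 0 + (-(cst (s + 1) * (a * f 1)) + b * f 1 +
      cst s * (c * f 1))) = 0
    simp only [co_add, co_sub, co_neg, co_cst_mul, co0_a, co0_b, co0_c, co0_d]
    ring
  · change co 0 (b * f 0 + (-(a * f 1) + c * f 1)) = 0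
    simp only [co_add, co_neg, co0_b, co0_c, co0_a]
    ring

lemma lam_E0 (s : k) (f : Fin 2 → R k) :
    lam (Matrix.mulVec (E s) f 0) = -co 0 (f 0) + (s - 2) * co 0 (f 1) := by
  rw [mulVec_E]
  change lam (-(c * f 0) + (-(a * f 1) + b * f 1 + cst s * (c * f 1))) = _
  simp only [lam_add, lam_neg, lam_cst_mul, lam_a, lam_b, lam_c]
  ring

lemma lam_E1 (s : k) (f : Fin 2 → R k) :
    lam (Matrix.mulVec (E s) f 1) = -co 0 (f 0) - 2 * co 0 (f 1) := by
  rw [mulVec_E]
  change lam (b * f 0 + (c * f 1 + d * f 1)) = _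
  simp only [lam_add, lam_b, lam_c, lam_d]
  ring

lemma lam_O0 (s : k) (f : Fin 2 → R k) :
    lam (Matrix.mulVec (O s) f 0) = 4 * co 0 (f 0) - 2 * co 0 (f 1) := by
  rw [mulVec_O]
  change lam (a * f 0 - d * f 0 + (-(cst (s + 1) * (a * f 1)) + b * f 1 +
      cst s * (c * f 1))) = _
  simp only [lam_add, lam_sub, lam_neg, lam_cst_mul, lam_a, lam_b, lam_c, lam_d]
  ring

lemma lam_O1 (s : k) (f : Fin 2 → R k) :
    lam (Matrix.mulVec (O s) f 1) = -co 0 (f 0) := by
  rw [mulVec_O]
  change lam (b * f 0 + (-(a * f 1) + c * f 1)) = _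
  simp only [lam_add, lam_neg, lam_a, lam_b, lam_c]
  ring

lemma co0_x : co 0 (x : R k) = 0 := by simp [x, co_T]
lemma co0_a' : co 0 (a : R k) = 0 := by simp [a, co_T]
lemma co0_b' : co 0 (b : R k) = 0 := by simp [b, co_T]
lemma co0_c' : co 0 (c : R k) = 0 := by simp [c, co_T]
lemma co0_d' : co 0 (d : R k) = 0 := by simp [d, co_T]

lemma E_mem (s : k) (i j : Fin 2) : E s i j ∈ IsLocalRing.maximalIdeal (R k) := by
  rw [mem_m]
  fin_cases i <;> fin_cases j <;>
    simp [E, co_add, co_neg, co_cst_mul, co0_a', co0_b', co0_c', co0_d']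

lemma O_mem (s : k) (i j : Fin 2) : O s i j ∈ IsLocalRing.maximalIdeal (R k) := by
  rw [mem_m]
  fin_cases i <;> fin_cases j <;>
    simp [O, co_add, co_sub, co_neg, co_cst_mul, co0_a', co0_b', co0_c', co0_d']

lemma P_mem (s : k) (i j : Fin 2) : P s i j ∈ IsLocalRing.maximalIdeal (R k) := by
  rw [mem_m]
  fin_cases i <;> fin_cases j <;>
    simp [P, co_add, co_sub, co_mul_0, co_cst_mul, co0_b', co0_c', co0_d', co0_x]

lemma Q_mem (s : k) (i j : Fin 2) : Q s i j ∈ IsLocalRing.maximalIdeal (R k) := by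
  rw [mem_m]
  fin_cases i <;> fin_cases j <;>
    simp [Q, co_add, co_sub, co_neg, co_mul_0, co_cst_mul, co0_b', co0_c', co0_d', co0_x]

lemma x_ne : (x : R k) ≠ 0 := by
  intro h
  have h1 := congrArg (co 8) h
  rw [co_zero, x, co_T, if_pos rfl] at h1
  exact one_ne_zero h1

/-- The data over the semigroup ring. -/
theorem data [CharZero k] : TwistedRes.Data (IsLocalRing.maximalIdeal (R k)) (J k) x (D k) (H k)
    (κ k) where
  x_ne := x_ne
  DD n := by
    obtain ⟨j, rfl | rfl⟩ := Nat.even_or_odd' n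
    · rw [D_even, D_odd, H_even, E_mul_O]
    · rw [D_odd, D_odd_succ, H_odd, O_mul_E]
  K1 n f g h := by
    obtain ⟨j, rfl | rfl⟩ := Nat.even_or_odd' n
    · rw [D_even] at h
      rw [D_odd]
      exact K1_E _ f g h
    · rw [D_odd] at h
      rw [D_odd_succ]
      exact K1_O _ f g h
  xJ := by
    rw [mem_J]
    simp [lam, x, co_T]
  Jm f hf := mem_m.2 (mem_J.1 hf).1
  mmJ f hf g hg := by
    rw [mem_m] at hf hg
    rw [mem_J, co_mul_0, lam_mul, hf, hg]
    simp
  Dm n := by
    obtain ⟨j, rfl | rfl⟩ := Nat.even_or_odd' n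
    · rw [D_even]; exact E_mem _
    · rw [D_odd]; exact O_mem _
  Hm n := by
    obtain ⟨j, rfl | rfl⟩ := Nat.even_or_odd' n
    · rw [H_even]; exact P_mem _
    · rw [H_odd]; exact Q_mem _
  K2 n f h := by
    obtain ⟨j, rfl | rfl⟩ := Nat.even_or_odd' n
    · rw [D_odd] at h
      have h0 := (mem_J.1 (h 0)).2
      have h1 := (mem_J.1 (h 1)).2
      rw [lam_O0] at h0
      rw [lam_O1] at h1
      have e0 : co 0 (f 0) = 0 := by linear_combination -h1
      have e1 : co 0 (f 1) = 0 := by
        have h2 : (2 : k) * co 0 (f 1) = 0 := by linear_combination -h0 + 4 * e0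
        exact (mul_eq_zero.1 h2).resolve_left two_ne_zero
      intro i
      rw [mem_m]
      fin_cases i
      · exact e0
      · exact e1
    · rw [D_odd_succ] at h
      have h0 := (mem_J.1 (h 0)).2
      have h1 := (mem_J.1 (h 1)).2
      rw [lam_E0] at h0
      rw [lam_E1] at h1
      have e1 : co 0 (f 1) = 0 := by
        have h2 : ((j : k) + 1) * co 0 (f 1) = 0 := by linear_combination h0 - h1
        exact (mul_eq_zero.1 h2).resolve_left (Nat.cast_add_one_ne_zero j)
      have e0 : co 0 (f 0) = 0 := by linear_combination -h1 - 2 * e1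
      intro i
      rw [mem_m]
      fin_cases i
      · exact e0
      · exact e1
  K3 n f hf := by
    have hf' : ∀ i, co 0 (f i) = 0 := fun i => mem_m.1 (hf i)
    obtain ⟨j, rfl | rfl⟩ := Nat.even_or_odd' n
    · rw [D_odd]
      let p : k := -lam (f 1)
      let q : k := -(lam (f 0)) / 2 - 2 * lam (f 1)
      refine ⟨![cst p, cst q], ?_⟩
      have h00 : co 0 ((![cst p, cst q] : Fin 2 → R k) 0) = p := by simp [co_cst]
      have h01 : co 0 ((![cst p, cst q] : Fin 2 → R k) 1) = q := by simp [co_cst]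
      intro i
      rw [mem_J, Pi.sub_apply, co_sub, hf', co0_O, sub_zero, lam_sub]
      refine ⟨rfl, ?_⟩
      fin_cases i
      · change lam (f 0) - lam (Matrix.mulVec (O (j : k)) _ 0) = 0
        rw [lam_O0, h00, h01]
        simp only [p, q]
        field_simp
        ring
      · change lam (f 1) - lam (Matrix.mulVec (O (j : k)) _ 1) = 0
        rw [lam_O1, h00]
        simp only [p]
        ring
    · rw [D_odd_succ]
      have hj : (j : k) + 1 ≠ 0 := Nat.cast_add_one_ne_zero j
      let q : k := (lam (f 0) - lam (f 1)) / ((j : k) + 1)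
      let p : k := -lam (f 1) - 2 * q
      refine ⟨![cst p, cst q], ?_⟩
      have h00 : co 0 ((![cst p, cst q] : Fin 2 → R k) 0) = p := by simp [co_cst]
      have h01 : co 0 ((![cst p, cst q] : Fin 2 → R k) 1) = q := by simp [co_cst]
      have hq : q * ((j : k) + 1) = lam (f 0) - lam (f 1) := div_mul_cancel₀ _ hj
      intro i
      rw [mem_J, Pi.sub_apply, co_sub, hf', co0_E, sub_zero, lam_sub]
      refine ⟨rfl, ?_⟩
      fin_cases i
      · change lam (f 0) - lam (Matrix.mulVec (E ((j : k) + 1)) _ 0) = 0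
        rw [lam_E0, h00, h01]
        simp only [p]
        linear_combination -hq
      · change lam (f 1) - lam (Matrix.mulVec (E ((j : k) + 1)) _ 1) = 0
        rw [lam_E1, h00, h01]
        simp only [p]
        ring
  K4 i := by
    have h0 : D k 0 = E (0 : k) := by
      have := D_even (k := k) 0
      simpa using this
    have h00 : co 0 (κ k 0) = 2 := by simp [κ, co_cst]
    have h01 : co 0 (κ k 1) = -1 := by simp [κ, co_cst]
    rw [h0, mem_J]
    refine ⟨co0_E _ _ _, ?_⟩
    fin_cases i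
    · change lam (Matrix.mulVec (E (0 : k)) _ 0) = 0
      rw [lam_E0, h00, h01]
      ring
    · change lam (Matrix.mulVec (E (0 : k)) _ 1) = 0
      rw [lam_E1, h00, h01]
      ring
  κm := by
    refine ⟨1, ?_⟩
    rw [mem_m]
    simp [κ, co_cst]

end Pool.Agent.helper42.Semi8
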