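import Mathlib

/-!
Tools for depth computations over Noetherian rings, built on the Rees theorem of Mathlib.
-/

set_option autoImplicit false

open CategoryTheory Abelian Pointwise

namespace Pool.Agent.helper42.DepthTools

universe u

variable {R : Type u} [CommRing R] (I : Ideal R)

/-- All `Ext` groups from finitely generated modules supported in `V(I)` vanish below `n`. -/
def ExtVan (M : ModuleCat.{u} R) (n : ℕ) : Prop :=
  ∀ N : ModuleCat.{u} R, Nontrivial N → Module.Finite R N →
    Module.support R N ⊆ PrimeSpectrum.zeroLocus (I : Set R) →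
      ∀ i < n, Subsingleton (Ext N M i)

variable {I}

lemma ExtVan.mono {M : ModuleCat.{u} R} {m n : ℕ} (h : ExtVan I M n) (hmn : m ≤ n) :
    ExtVan I M m := fun N h1 h2 h3 i hi => h N h1 h2 h3 i (by omega)

lemma extVan_zero (M : ModuleCat.{u} R) : ExtVan I M 0 := fun _ _ _ _ i hi => by omega

/-- Depth lemma, left term. -/
lemma ExtVan.left {S : ShortComplex (ModuleCat.{u} R)} (hS : S.ShortExact) {n : ℕ}
    (h2 : ExtVan I S.X₂ (n + 1)) (h3 : ExtVan I S.X₃ n) : ExtVan I S.X₁ (n + 1) := by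
  intro N hN hf hs i hi
  refine ⟨fun a b => ?_⟩
  rw [← sub_eq_zero]
  set x := a - b with hx
  have hx0 : x.comp (Ext.mk₀ S.f) (add_zero i) = 0 := by
    have := h2 N hN hf hs i hi
    exact Subsingleton.elim _ _
  rcases i with _ | i
  · have : Mono S.f := hS.mono_f
    have := Ext.postcomp_mk₀_injective_of_mono N S.f
    apply this
    rw [map_zero]
    exact hx0
  · obtain ⟨x₃, hx₃⟩ := Ext.covariant_sequence_exact₁ N hS x hx0 (rfl : i + 1 = i + 1)
    have h3' := h3 N hN hf hs i (by omega)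
    have : x₃ = 0 := Subsingleton.elim _ _
    rw [← hx₃, this, Ext.zero_comp]

/-- Depth lemma, middle term. -/
lemma ExtVan.mid {S : ShortComplex (ModuleCat.{u} R)} (hS : S.ShortExact) {n : ℕ}
    (h1 : ExtVan I S.X₁ n) (h3 : ExtVan I S.X₃ n) : ExtVan I S.X₂ n := by
  intro N hN hf hs i hi
  refine ⟨fun a b => ?_⟩
  rw [← sub_eq_zero]
  set x := a - b with hx
  have hx0 : x.comp (Ext.mk₀ S.g) (add_zero i) = 0 := by
    have := h3 N hN hf hs i hi
    exact Subsingleton.elim _ _
  obtain ⟨x₁, hx₁⟩ := Ext.covariant_sequence_exact₂ N hS x hx0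
  have h1' := h1 N hN hf hs i hi
  have : x₁ = 0 := Subsingleton.elim _ _
  rw [← hx₁, this, Ext.zero_comp]

/-- Depth lemma, right term. -/
lemma ExtVan.right {S : ShortComplex (ModuleCat.{u} R)} (hS : S.ShortExact) {n : ℕ}
    (h1 : ExtVan I S.X₁ (n + 1)) (h2 : ExtVan I S.X₂ n) : ExtVan I S.X₃ n := by
  intro N hN hf hs i hi
  refine ⟨fun a b => ?_⟩
  rw [← sub_eq_zero]
  set x := a - b with hx
  have hx0 : x.comp hS.extClass (rfl : i + 1 = i + 1) = 0 := by
    have := h1 N hN hf hs (i + 1) (by omega)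
    exact Subsingleton.elim _ _
  obtain ⟨x₂, hx₂⟩ := Ext.covariant_sequence_exact₃ N hS x (rfl : i + 1 = i + 1) hx0
  have h2' := h2 N hN hf hs i hi
  have : x₂ = 0 := Subsingleton.elim _ _
  rw [← hx₂, this, Ext.zero_comp]

/-- Rees theorem, in the form we use. -/
lemma extVan_iff_exists_isRegular [IsNoetherianRing R] (M : ModuleCat.{u} R)
    [Module.Finite R M] (hM : I • (⊤ : Submodule R M) < ⊤) (n : ℕ) :
    ExtVan I M n ↔ ∃ rs : List R, rs.length = n ∧ (∀ r ∈ rs, r ∈ I) ∧
      RingTheory.Sequence.IsRegular M rs :=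
  (ModuleCat.exists_isRegular_tfae I n M hM).out 0 3


section Quotients

variable (a b : Ideal R)

/-- The Mayer-Vietoris sequence `0 → R/(a ⊓ b) → R/a × R/b → R/(a ⊔ b) → 0`. -/
noncomputable def mvF : (R ⧸ (a ⊓ b)) →ₗ[R] (R ⧸ a) × (R ⧸ b) :=
  LinearMap.prod (Submodule.factor inf_le_left) (Submodule.factor inf_le_right)

/-- The second map of the Mayer-Vietoris sequence. -/
noncomputable def mvG : ((R ⧸ a) × (R ⧸ b)) →ₗ[R] R ⧸ (a ⊔ b) :=
  LinearMap.coprod (Submodule.factor le_sup_left) (-(Submodule.factor le_sup_right))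

lemma mv_exact : Function.Exact (mvF a b) (mvG a b) := by
  rw [LinearMap.exact_iff]
  apply le_antisymm
  · rintro ⟨x, y⟩ hxy
    obtain ⟨x, rfl⟩ := Submodule.Quotient.mk_surjective _ x
    obtain ⟨y, rfl⟩ := Submodule.Quotient.mk_surjective _ y
    have h : (Submodule.Quotient.mk x : R ⧸ (a ⊔ b)) - Submodule.Quotient.mk y = 0 := by
      have := hxy
      simpa [mvG, sub_eq_add_neg] using this
    rw [← Submodule.Quotient.mk_sub, Submodule.Quotient.mk_eq_zero] at h
    obtain ⟨u, hu, v, hv, huv⟩ := Submodule.mem_sup.1 h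
    refine ⟨Submodule.Quotient.mk (x - u), ?_⟩
    have h1 : (Submodule.Quotient.mk (x - u) : R ⧸ a) = Submodule.Quotient.mk x := by
      rw [Submodule.Quotient.eq]; simpa using a.neg_mem hu
    have h2 : (Submodule.Quotient.mk (x - u) : R ⧸ b) = Submodule.Quotient.mk y := by
      rw [Submodule.Quotient.eq]
      have : x - u - y = v := by rw [sub_right_comm, ← huv]; ring
      rw [this]; exact hv
    simp only [mvF, LinearMap.prod_apply, Function.prod_apply]
    exact Prod.ext h1 h2
  · rintro _ ⟨x, rfl⟩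
    obtain ⟨x, rfl⟩ := Submodule.Quotient.mk_surjective _ x
    simp [mvG, mvF]

lemma mvF_injective : Function.Injective (mvF a b) := by
  rw [← LinearMap.ker_eq_bot, LinearMap.ker_eq_bot']
  intro x hx
  obtain ⟨x, rfl⟩ := Submodule.Quotient.mk_surjective _ x
  have h1 : (Submodule.Quotient.mk x : R ⧸ a) = 0 := congrArg Prod.fst hx
  have h2 : (Submodule.Quotient.mk x : R ⧸ b) = 0 := congrArg Prod.snd hx
  rw [Submodule.Quotient.mk_eq_zero] at h1 h2 ⊢
  exact ⟨h1, h2⟩

lemma mvG_surjective : Function.Surjective (mvG a b) := by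
  intro x
  obtain ⟨x, rfl⟩ := Submodule.Quotient.mk_surjective _ x
  exact ⟨(Submodule.Quotient.mk x, 0), by simp [mvG]⟩

variable {a b}

/-- `ExtVan` for a quotient ring. -/
abbrev EV (I a : Ideal R) (n : ℕ) : Prop := ExtVan I (ModuleCat.of R (R ⧸ a)) n

lemma EV.congr {a b : Ideal R} (h : a = b) {n : ℕ} (ha : EV I a n) : EV I b n := h ▸ ha

lemma EV.prod {n : ℕ} (ha : EV I a n) (hb : EV I b n) :
    ExtVan I (ModuleCat.of R ((R ⧸ a) × (R ⧸ b))) n := by
  have h0 : Function.Exact (LinearMap.inl R (R ⧸ a) (R ⧸ b)) (LinearMap.snd R (R ⧸ a) (R ⧸ b)) := by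
    rw [LinearMap.exact_iff, LinearMap.ker_snd]
  let S := ModuleCat.shortComplexOfCompEqZero (LinearMap.inl R (R ⧸ a) (R ⧸ b))
    (LinearMap.snd R (R ⧸ a) (R ⧸ b)) h0.linearMap_comp_eq_zero
  have hS : S.ShortExact := ModuleCat.shortComplex_shortExact S h0
    LinearMap.inl_injective LinearMap.snd_surjective
  exact ExtVan.mid hS ha hb

/-- Depth bound for an intersection of two ideals. -/
lemma EV.inf {n : ℕ} (ha : EV I a (n + 1)) (hb : EV I b (n + 1)) (hab : EV I (a ⊔ b) n) :
    EV I (a ⊓ b) (n + 1) := by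
  let S := ModuleCat.shortComplexOfCompEqZero (mvF a b) (mvG a b)
    (mv_exact a b).linearMap_comp_eq_zero
  have hS : S.ShortExact := ModuleCat.shortComplex_shortExact S (mv_exact a b)
    (mvF_injective a b) (mvG_surjective a b)
  exact ExtVan.left hS (EV.prod ha hb) hab

/-- `R/a` modulo `x` is `R/(a + (x))`. -/
noncomputable def quotEquiv (a : Ideal R) (x : R) :
    QuotSMulTop x (R ⧸ a) ≃ₗ[R] R ⧸ (a ⊔ Ideal.span {x}) := by
  refine LinearEquiv.ofBijective (Submodule.liftQ _ (Submodule.factor le_sup_left) ?_) ⟨?_, ?_⟩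
  · rintro _ ⟨y, -, rfl⟩
    obtain ⟨y, rfl⟩ := Submodule.Quotient.mk_surjective _ y
    have : x • (Submodule.Quotient.mk y : R ⧸ (a ⊔ Ideal.span {x})) = 0 := by
      rw [← Submodule.Quotient.mk_smul, Submodule.Quotient.mk_eq_zero, smul_eq_mul]
      exact Ideal.mul_mem_right _ _ (Ideal.mem_sup_right (Ideal.mem_span_singleton_self x))
    simpa using this
  · rw [← LinearMap.ker_eq_bot, LinearMap.ker_eq_bot']
    intro z hz
    obtain ⟨y, rfl⟩ := Submodule.Quotient.mk_surjective _ z
    obtain ⟨y, rfl⟩ := Submodule.Quotient.mk_surjective _ y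
    have h : (Submodule.Quotient.mk y : R ⧸ (a ⊔ Ideal.span {x})) = 0 := by simpa using hz
    rw [Submodule.Quotient.mk_eq_zero] at h
    obtain ⟨u, hu, v, hv, rfl⟩ := Submodule.mem_sup.1 h
    obtain ⟨c, rfl⟩ := Ideal.mem_span_singleton.1 hv
    rw [Submodule.Quotient.mk_eq_zero]
    refine ⟨Submodule.Quotient.mk c, trivial, ?_⟩
    have : (Submodule.Quotient.mk (u + x * c) : R ⧸ a) = Submodule.Quotient.mk (x * c) := by
      rw [Submodule.Quotient.eq]; simpa using hu
    rw [this]
    rfl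
  · intro z
    obtain ⟨z, rfl⟩ := Submodule.Quotient.mk_surjective _ z
    exact ⟨Submodule.Quotient.mk (Submodule.Quotient.mk z), by simp⟩

lemma smul_top_lt (hI : I ≠ ⊤) (ha : a ≤ I) :
    I • (⊤ : Submodule R (R ⧸ a)) < ⊤ := by
  rw [lt_top_iff_ne_top]
  intro h
  apply hI
  rw [Ideal.eq_top_iff_one]
  have h1 : (Submodule.Quotient.mk (1 : R) : R ⧸ a) ∈ I • (⊤ : Submodule R (R ⧸ a)) := by
    rw [h]; trivial
  have h2 : ∀ z ∈ I • (⊤ : Submodule R (R ⧸ a)), ∃ w ∈ I, z = Submodule.Quotient.mk w := by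
    intro z hz
    refine Submodule.smul_induction_on hz ?_ ?_
    · intro r hr n _
      obtain ⟨n, rfl⟩ := Submodule.Quotient.mk_surjective _ n
      exact ⟨r * n, I.mul_mem_right _ hr, rfl⟩
    · rintro _ _ ⟨w, hw, rfl⟩ ⟨w', hw', rfl⟩
      exact ⟨w + w', I.add_mem hw hw', rfl⟩
  obtain ⟨w, hw, hw1⟩ := h2 _ h1
  rw [Submodule.Quotient.eq] at hw1
  have := I.add_mem (ha hw1) hw
  simpa using this

lemma isSMulRegular_of {x : R} (hx : ∀ f, x * f ∈ a → f ∈ a) : IsSMulRegular (R ⧸ a) x := by
  rw [isSMulRegular_iff_right_eq_zero_of_smul]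
  intro y hy
  obtain ⟨y, rfl⟩ := Submodule.Quotient.mk_surjective _ y
  rw [← Submodule.Quotient.mk_smul, Submodule.Quotient.mk_eq_zero] at hy
  rw [Submodule.Quotient.mk_eq_zero]
  exact hx _ hy

/-- Depth bound through a regular element. -/
lemma EV.of_regular [IsNoetherianRing R] (hI : I ≠ ⊤) {x : R} (hxI : x ∈ I) (haI : a ≤ I)
    (hx : ∀ f, x * f ∈ a → f ∈ a) {n : ℕ} (h : EV I (a ⊔ Ideal.span {x}) n) :
    EV I a (n + 1) := by
  have hle : a ⊔ Ideal.span {x} ≤ I :=
    sup_le haI ((Ideal.span_singleton_le_iff_mem I).2 hxI)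
  have e1 := (extVan_iff_exists_isRegular
    (ModuleCat.of R (R ⧸ (a ⊔ Ideal.span {x}))) (smul_top_lt hI hle) n).1 h
  obtain ⟨rs, hlen, hmem, hreg⟩ := e1
  refine (extVan_iff_exists_isRegular (ModuleCat.of R (R ⧸ a)) (smul_top_lt hI haI) _).2
    ⟨x :: rs, by simp [hlen], ?_, ?_⟩
  · intro r hr
    rcases List.mem_cons.1 hr with rfl | hr
    · exact hxI
    · exact hmem r hr
  · refine RingTheory.Sequence.IsRegular.cons (isSMulRegular_of hx) ?_
    exact ((quotEquiv a x).isRegular_congr rs).2 hreg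

/-- Going down to `R/(a + (x))` loses at most one. -/
lemma EV.quot_regular {x : R} (hx : ∀ f, x * f ∈ a → f ∈ a) {n : ℕ} (h : EV I a (n + 1)) :
    EV I (a ⊔ Ideal.span {x}) n := by
  let f : (R ⧸ a) →ₗ[R] (R ⧸ a) := LinearMap.lsmul R (R ⧸ a) x
  let g : (R ⧸ a) →ₗ[R] R ⧸ (a ⊔ Ideal.span {x}) := Submodule.factor le_sup_left
  have hex : Function.Exact f g := by
    rw [LinearMap.exact_iff]
    apply le_antisymm
    · intro y hy
      obtain ⟨y, rfl⟩ := Submodule.Quotient.mk_surjective _ y
      have h : (Submodule.Quotient.mk y : R ⧸ (a ⊔ Ideal.span {x})) = 0 := by simpa [g] using hy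
      rw [Submodule.Quotient.mk_eq_zero] at h
      obtain ⟨u, hu, v, hv, rfl⟩ := Submodule.mem_sup.1 h
      obtain ⟨c, rfl⟩ := Ideal.mem_span_singleton.1 hv
      refine ⟨Submodule.Quotient.mk c, ?_⟩
      have : (Submodule.Quotient.mk (u + x * c) : R ⧸ a) = Submodule.Quotient.mk (x * c) := by
        rw [Submodule.Quotient.eq]; simpa using hu
      rw [this]
      rfl
    · rintro _ ⟨y, rfl⟩
      obtain ⟨y, rfl⟩ := Submodule.Quotient.mk_surjective _ y
      have : x • (Submodule.Quotient.mk y : R ⧸ (a ⊔ Ideal.span {x})) = 0 := by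
        rw [← Submodule.Quotient.mk_smul, Submodule.Quotient.mk_eq_zero, smul_eq_mul]
        exact Ideal.mul_mem_right _ _ (Ideal.mem_sup_right (Ideal.mem_span_singleton_self x))
      simpa [f, g] using this
  let S := ModuleCat.shortComplexOfCompEqZero f g hex.linearMap_comp_eq_zero
  have hS : S.ShortExact := ModuleCat.shortComplex_shortExact S hex (isSMulRegular_of hx)
    (Submodule.factor_surjective le_sup_left)
  exact ExtVan.right hS h (h.mono (by omega))

end Quotients

section Upper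

variable [IsNoetherianRing R]

/-- One step of the bound `depth M ≤ dim R/P` for an annihilator prime `P`. -/
lemma exists_ann_step {M : Type*} [AddCommGroup M] [Module R M] [Module.Finite R M]
    (m : Ideal R) [m.IsPrime] {x : R} (hxm : x ∈ m) (hreg : IsSMulRegular M x)
    (e : M) (he : ∀ r : R, r • e = 0 → r ∈ m) :
    ∃ (e' : QuotSMulTop x M) (Q : Ideal R), Q.IsPrime ∧ (∀ r : R, r • e' = 0 ↔ r ∈ Q) ∧
      (∀ r : R, r • e = 0 → r ∈ Q) ∧ x ∈ Q ∧ Q ≤ m := by
  classical
  -- elements killed by the annihilator of `e`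
  let N : Submodule R M :=
    { carrier := {u | ∀ p : R, p • e = 0 → p • u = 0}
      add_mem' := fun {u v} hu hv p hp => by rw [smul_add, hu p hp, hv p hp, add_zero]
      zero_mem' := fun p _ => smul_zero p
      smul_mem' := fun c u hu p hp => by rw [smul_comm, hu p hp, smul_zero] }
  have heN : e ∈ N := fun p hp => hp
  let q : M →ₗ[R] QuotSMulTop x M := Submodule.mkQ _
  let N' : Submodule R (QuotSMulTop x M) := N.map q
  -- the annihilator of the image is contained in `m`
  have hann : Module.annihilator R N' ≤ m := by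
    intro s hs
    have h1 : ∀ u ∈ N, ∃ w ∈ N, s • u = x • w := by
      intro u hu
      have hq : q (s • u) = 0 := by
        have h2 := Module.mem_annihilator.1 hs ⟨q u, Submodule.mem_map_of_mem hu⟩
        have h3 := congrArg Subtype.val h2
        simpa using h3
      have h4 : s • u ∈ x • (⊤ : Submodule R M) := by
        have := (Submodule.Quotient.mk_eq_zero _).1 hq
        exact this
      obtain ⟨w, -, hw⟩ := h4
      have hw' : x • w = s • u := hw
      refine ⟨w, ?_, hw'.symm⟩
      intro p hp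
      apply hreg
      change x • (p • w) = x • (0 : M)
      rw [smul_comm, hw', smul_comm, hu p hp, smul_zero, smul_zero]
    -- Cayley-Hamilton
    let f : Module.End R N := LinearMap.lsmul R N s
    have hf : LinearMap.range f ≤ (Ideal.span {x}) • (⊤ : Submodule R N) := by
      rintro _ ⟨u, rfl⟩
      obtain ⟨w, hw, hsw⟩ := h1 u.1 u.2
      have : f u = x • (⟨w, hw⟩ : N) := Subtype.ext hsw
      rw [this]
      exact Submodule.smul_mem_smul (Ideal.mem_span_singleton_self x) trivial
    obtain ⟨p, hmonic, -, hcoef, hp⟩ :=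
      LinearMap.exists_monic_and_natDegree_eq_and_coeff_mem_pow_and_aeval_eq_zero R f
        (Ideal.span {x}) hf
    have hf' : f = algebraMap R (Module.End R N) s := by
      ext u; rfl
    have hev : (p.eval s) • e = 0 := by
      have h5 := LinearMap.congr_fun hp ⟨e, heN⟩
      rw [hf', Polynomial.aeval_algebraMap_apply] at h5
      have h6 := congrArg Subtype.val h5
      simpa [Module.algebraMap_end_apply] using h6
    have hevm : p.eval s ∈ m := he _ hev
    rw [Polynomial.eval_eq_sum_range, Finset.sum_range_succ, hmonic.coeff_natDegree,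
      one_mul] at hevm
    have hsum : ∑ i ∈ Finset.range p.natDegree, p.coeff i * s ^ i ∈ m := by
      refine Ideal.sum_mem _ fun i hi => Ideal.mul_mem_right _ _ ?_
      have hi' : i < p.natDegree := Finset.mem_range.1 hi
      have h7 := hcoef i
      have h8 : Ideal.span {x} ^ (p.natDegree - i) ≤ m :=
        (Ideal.pow_le_self (by omega)).trans ((Ideal.span_singleton_le_iff_mem m).2 hxm)
      exact h8 h7
    have hpow : s ^ p.natDegree ∈ m := (Ideal.add_mem_iff_right m hsum).1 hevm
    exact Ideal.IsPrime.mem_of_pow_mem ‹_› _ hpow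
  obtain ⟨Q, hQmin, hQm⟩ := Ideal.exists_minimalPrimes_le hann
  have hQass := Module.associatedPrimes.minimalPrimes_annihilator_subset_associatedPrimes R N' hQmin
  rw [AssociatedPrimes.mem_iff, isAssociatedPrime_iff] at hQass
  obtain ⟨hQp, z, hz⟩ := hQass
  have hzr : ∀ r : R, r • (z : QuotSMulTop x M) = 0 ↔ r ∈ Q := by
    intro r
    rw [hz, Submodule.mem_colon_singleton, Submodule.mem_bot, ← Submodule.coe_smul,
      ZeroMemClass.coe_eq_zero]
  refine ⟨z, Q, hQp, hzr, ?_, ?_, hQm⟩
  · intro r hr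
    apply hQmin.1.2
    rw [Module.mem_annihilator]
    rintro ⟨_, u, hu, rfl⟩
    apply Subtype.ext
    change r • q u = 0
    rw [← map_smul, hu r hr, map_zero]
  · apply hQmin.1.2
    rw [Module.mem_annihilator]
    rintro ⟨_, u, hu, rfl⟩
    apply Subtype.ext
    change x • q u = 0
    rw [← map_smul]
    exact (Submodule.Quotient.mk_eq_zero _).2 ⟨u, trivial, rfl⟩

/-- A regular sequence inside a prime `m` on a finite module `M` is not longer than
`dim R/P` for any prime `P ≤ m` that is the annihilator of an element of `M`. -/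
lemma length_le_ringKrullDim (m : Ideal R) [m.IsPrime] (rs : List R) :
    ∀ {M : Type u} [AddCommGroup M] [Module R M] [Module.Finite R M] (e : M) (P : Ideal R),
      P.IsPrime → (∀ r : R, r • e = 0 ↔ r ∈ P) → P ≤ m → (∀ r ∈ rs, r ∈ m) →
      RingTheory.Sequence.IsRegular M rs → (rs.length : WithBot ℕ∞) ≤ ringKrullDim (R ⧸ P) := by
  induction rs with
  | nil =>
    intro M _ _ _ e P hP he hPm hmem hreg
    have : Nontrivial (R ⧸ P) := Ideal.Quotient.nontrivial_iff.2 hP.ne_top
    simpa using ringKrullDim_nonneg_of_nontrivial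
  | cons x rs ih =>
    intro M _ _ _ e P hP he hPm hmem hreg
    rw [RingTheory.Sequence.isRegular_cons_iff] at hreg
    obtain ⟨e', Q, hQ, he', hPQ, hxQ, hQm⟩ := exists_ann_step m (hmem x (by simp)) hreg.1 e
      (fun r hr => hPm ((he r).1 hr))
    have h1 := ih e' Q hQ he' hQm (fun r hr => hmem r (by simp [hr])) hreg.2
    have hPQ' : P ≤ Q := fun r hr => hPQ r ((he r).2 hr)
    have hxP : x ∉ P := by
      intro hx
      have h2 := (he x).2 hx
      have h3 : e = 0 := by
        apply hreg.1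
        change x • e = x • (0 : M)
        rw [h2, smul_zero]
      apply hP.ne_top
      rw [Ideal.eq_top_iff_one, ← he, h3, smul_zero]
    have h4 : ringKrullDim (R ⧸ Q) + 1 ≤ ringKrullDim (R ⧸ P) := by
      refine ringKrullDim_succ_le_of_surjective (Ideal.Quotient.factor hPQ')
        (Ideal.Quotient.factor_surjective hPQ') (r := Ideal.Quotient.mk P x) ?_ ?_
      · have : IsDomain (R ⧸ P) := Ideal.Quotient.isDomain P
        rw [mem_nonZeroDivisors_iff_ne_zero, ne_eq, Ideal.Quotient.eq_zero_iff_mem]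
        exact hxP
      · rw [Ideal.Quotient.factor_mk, Ideal.Quotient.eq_zero_iff_mem]
        exact hxQ
    refine le_trans ?_ h4
    rw [List.length_cons, Nat.cast_succ]
    gcongr

end Upper

end Pool.Agent.helper42.DepthTools
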