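import Mathlib
import Pool.Agent.helper42.DepthTools

/-!
Depth bounds for ideals generated by variables and generic `2 × 2` minors.
-/

set_option autoImplicit false

open MvPolynomial

namespace Pool.Agent.helper42.BinEdge

open Pool.Agent.helper42.DepthTools

universe u

section Vars

variable {σ : Type} {K : Type u} [Field K]

/-- The ideal generated by a set of variables. -/
noncomputable abbrev vI (K : Type u) [Field K] (A : Set σ) : Ideal (MvPolynomial σ K) :=
  Ideal.span (MvPolynomial.X '' A)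

open Classical in
/-- Kill a set of variables. -/
noncomputable def kill (K : Type u) [Field K] (A : Set σ) :
    MvPolynomial σ K →ₐ[K] MvPolynomial σ K :=
  aeval (fun s => if s ∈ A then 0 else X s)

lemma kill_X_mem {A : Set σ} {s : σ} (hs : s ∈ A) : kill K A (X s) = 0 := by
  simp [kill, hs]

lemma kill_X_notMem {A : Set σ} {s : σ} (hs : s ∉ A) : kill K A (X s) = X s := by
  simp [kill, hs]

lemma sub_kill_mem (A : Set σ) (f : MvPolynomial σ K) : f - kill K A f ∈ vI K A := by
  induction f using MvPolynomial.induction_on with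
  | C a => simp [kill]
  | add p q hp hq =>
    have : p + q - kill K A (p + q) = (p - kill K A p) + (q - kill K A q) := by
      rw [map_add]; ring
    rw [this]; exact Ideal.add_mem _ hp hq
  | mul_X p s hp =>
    by_cases hs : s ∈ A
    · rw [map_mul, kill_X_mem hs, mul_zero, sub_zero]
      exact Ideal.mul_mem_left _ _ (Ideal.subset_span ⟨s, hs, rfl⟩)
    · have : p * X s - kill K A (p * X s) = (p - kill K A p) * X s := by
        rw [map_mul, kill_X_notMem hs]; ring
      rw [this]; exact Ideal.mul_mem_right _ _ hp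

lemma kill_eq_zero_iff (A : Set σ) (f : MvPolynomial σ K) : kill K A f = 0 ↔ f ∈ vI K A := by
  constructor
  · intro h
    have := sub_kill_mem A f
    rwa [h, sub_zero] at this
  · intro h
    refine Submodule.span_induction ?_ ?_ ?_ ?_ h
    · rintro _ ⟨s, hs, rfl⟩; exact kill_X_mem hs
    · exact map_zero _
    · intro x y _ _ hx hy; rw [map_add, hx, hy, add_zero]
    · intro a x _ hx; rw [smul_eq_mul, map_mul, hx, mul_zero]

instance vI_isPrime (A : Set σ) : (vI K A).IsPrime := by
  have : vI K A = RingHom.ker (kill K A).toRingHom := by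
    ext f
    rw [RingHom.mem_ker]
    exact (kill_eq_zero_iff A f).symm
  rw [this]
  exact RingHom.ker_isPrime _

lemma idealOfVars_eq : idealOfVars σ K = vI K (Set.univ : Set σ) := by
  rw [idealOfVars, vI, Set.image_univ]

instance idealOfVars_isPrime : (idealOfVars σ K).IsPrime := by
  rw [idealOfVars_eq]; infer_instance

lemma idealOfVars_ne_top : idealOfVars σ K ≠ ⊤ := (idealOfVars_isPrime (K := K)).ne_top

lemma X_mem_m (s : σ) : (X s : MvPolynomial σ K) ∈ idealOfVars σ K :=
  Ideal.subset_span ⟨s, rfl⟩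

lemma vI_le_m (A : Set σ) : vI K A ≤ idealOfVars σ K := by
  rw [idealOfVars_eq]
  exact Ideal.span_mono (Set.image_mono (Set.subset_univ A))

lemma X_mem_vI_iff {A : Set σ} {s : σ} : (X s : MvPolynomial σ K) ∈ vI K A ↔ s ∈ A := by
  rw [← kill_eq_zero_iff]
  constructor
  · intro h
    by_contra hs
    rw [kill_X_notMem hs] at h
    exact X_ne_zero s h
  · exact kill_X_mem

lemma vI_sup_span (A : Set σ) (s : σ) :
    vI K A ⊔ Ideal.span {(X s : MvPolynomial σ K)} = vI K (insert s A) := by
  rw [vI, vI, Set.image_insert_eq, Ideal.span_insert, sup_comm]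

lemma ringKrullDim_le [Finite σ] (A : Set σ) :
    ringKrullDim (MvPolynomial σ K ⧸ vI K A) ≤ (Nat.card (Aᶜ : Set σ) : WithBot ℕ∞) := by
  have h1 : ringKrullDim (MvPolynomial (Aᶜ : Set σ) K) = (Nat.card (Aᶜ : Set σ) : WithBot ℕ∞) := by
    rw [MvPolynomial.ringKrullDim_of_isNoetherianRing, ringKrullDim_eq_zero_of_field, zero_add]
  rw [← h1]
  let φ : MvPolynomial (Aᶜ : Set σ) K →ₐ[K] MvPolynomial σ K ⧸ vI K A :=
    (Ideal.Quotient.mkₐ K (vI K A)).comp (rename Subtype.val)
  apply ringKrullDim_le_of_surjective φ.toRingHom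
  intro y
  obtain ⟨y, rfl⟩ := Ideal.Quotient.mk_surjective y
  induction y using MvPolynomial.induction_on with
  | C a => exact ⟨C a, by simp [φ]; rfl⟩
  | add p q hp hq =>
    obtain ⟨p', hp'⟩ := hp
    obtain ⟨q', hq'⟩ := hq
    exact ⟨p' + q', by rw [map_add, hp', hq', map_add]⟩
  | mul_X p s hp =>
    obtain ⟨p', hp'⟩ := hp
    by_cases hs : s ∈ A
    · refine ⟨0, ?_⟩
      rw [map_zero, eq_comm, Ideal.Quotient.eq_zero_iff_mem]
      exact Ideal.mul_mem_left _ _ (Ideal.subset_span ⟨s, hs, rfl⟩)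
    · refine ⟨p' * X ⟨s, hs⟩, ?_⟩
      rw [map_mul, hp', map_mul]
      congr 1
      simp [φ]

/-- Depth of a polynomial ring in the variables outside `A`. -/
lemma EV_vI [Fintype σ] [DecidableEq σ] (n : ℕ) :
    ∀ A : Finset σ, A.card + n = Fintype.card σ →
      EV (idealOfVars σ K) (vI K (A : Set σ)) n := by
  induction n with
  | zero => intro A _; exact extVan_zero _
  | succ n ih =>
    intro A hA
    obtain ⟨s, hs⟩ : ∃ s, s ∉ A := by
      by_contra h
      push Not at h
      have : A = Finset.univ := Finset.eq_univ_iff_forall.2 h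
      rw [this, Finset.card_univ] at hA
      omega
    refine EV.of_regular idealOfVars_ne_top (X_mem_m s) (vI_le_m _) ?_ ?_
    · intro f hf
      exact ((vI_isPrime (A : Set σ)).mem_or_mem hf).resolve_left
        (by rw [X_mem_vI_iff]; simpa using hs)
    · rw [vI_sup_span]
      have := ih (insert s A) (by rw [Finset.card_insert_of_notMem hs]; omega)
      rwa [Finset.coe_insert] at this

end Vars

section Minors

variable {V : Type} {K : Type u} [Field K]

/-- The binomial `x_i y_j - x_j y_i`, with `x_i = X (inl i)` and `y_i = X (inr i)`. -/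
noncomputable def mnr (K : Type u) [Field K] (i j : V) : MvPolynomial (V ⊕ V) K :=
  X (Sum.inl i) * X (Sum.inr j) - X (Sum.inl j) * X (Sum.inr i)

/-- The ideal generated by the binomials of a set of pairs. -/
noncomputable def mI (K : Type u) [Field K] (E : Set (V × V)) : Ideal (MvPolynomial (V ⊕ V) K) :=
  Ideal.span ((fun p : V × V => mnr K p.1 p.2) '' E)

lemma mnr_mem {E : Set (V × V)} {i j : V} (h : (i, j) ∈ E) : mnr K i j ∈ mI K E :=
  Ideal.subset_span ⟨(i, j), h, rfl⟩

lemma mnr_swap (i j : V) : mnr K j i = - mnr K i j := by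
  simp only [mnr]; ring

lemma mnr_self (i : V) : mnr K i i = 0 := by
  simp only [mnr]; ring

lemma mI_mono {E F : Set (V × V)} (h : E ⊆ F) : mI K E ≤ mI K F :=
  Ideal.span_mono (Set.image_mono h)

lemma mI_le_iff {E : Set (V × V)} {I : Ideal (MvPolynomial (V ⊕ V) K)} :
    mI K E ≤ I ↔ ∀ i j, (i, j) ∈ E → mnr K i j ∈ I := by
  rw [mI, Ideal.span_le]
  constructor
  · intro h i j hij
    exact h ⟨(i, j), hij, rfl⟩
  · rintro h _ ⟨⟨i, j⟩, hij, rfl⟩
    exact h i j hij

section Toric

variable [Fintype V] [DecidableEq V] (W : Finset V)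

/-- Exponents of the toric parametrisation. -/
noncomputable def eps : V ⊕ V → (Option (V ⊕ V) →₀ ℕ)
  | Sum.inl j => Finsupp.single (some (Sum.inl j)) 1
  | Sum.inr j => if j ∈ W then Finsupp.single (some (Sum.inl j)) 1 + Finsupp.single none 1
      else Finsupp.single (some (Sum.inr j)) 1

/-- The exponent map of the toric parametrisation. -/
noncomputable def expo (μ : V ⊕ V →₀ ℕ) : Option (V ⊕ V) →₀ ℕ := ∑ s, μ s • eps W s

lemma expo_add (μ ν : V ⊕ V →₀ ℕ) : expo W (μ + ν) = expo W μ + expo W ν := by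
  simp [expo, add_smul, Finset.sum_add_distrib]

lemma expo_single (s : V ⊕ V) : expo W (Finsupp.single s 1) = eps W s := by
  classical
  simp [expo, Finsupp.single_apply]

lemma expo_apply (μ : V ⊕ V →₀ ℕ) (t : Option (V ⊕ V)) :
    expo W μ t = ∑ i, μ (Sum.inl i) * eps W (Sum.inl i) t +
      ∑ i, μ (Sum.inr i) * eps W (Sum.inr i) t := by
  rw [expo, Finsupp.coe_finsetSum, Finset.sum_apply, Fintype.sum_sum_type]
  rfl

lemma expo_inl (μ : V ⊕ V →₀ ℕ) (j : V) :
    expo W μ (some (Sum.inl j)) = μ (Sum.inl j) + if j ∈ W then μ (Sum.inr j) else 0 := by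
  classical
  rw [expo_apply]
  congr 1
  · simp [eps, Finsupp.single_apply]
  · have : ∀ i, μ (Sum.inr i) * (eps W (Sum.inr i)) (some (Sum.inl j))
        = if i = j then (if i ∈ W then μ (Sum.inr i) else 0) else 0 := by
      intro i
      by_cases hi : i ∈ W <;> by_cases hij : i = j <;> simp [eps, hi, hij]
      · subst hij; simp [hi]
      · subst hij; simp [hi]
    rw [Finset.sum_congr rfl (fun i _ => this i)]
    simp

lemma expo_inr (μ : V ⊕ V →₀ ℕ) (j : V) (hj : j ∉ W) :
    expo W μ (some (Sum.inr j)) = μ (Sum.inr j) := by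
  classical
  rw [expo_apply]
  have h1 : ∀ i, μ (Sum.inl i) * (eps W (Sum.inl i)) (some (Sum.inr j)) = 0 := by
    intro i; simp [eps]
  have h2 : ∀ i, μ (Sum.inr i) * (eps W (Sum.inr i)) (some (Sum.inr j))
      = if i = j then μ (Sum.inr i) else 0 := by
    intro i
    by_cases hij : i = j
    · subst hij; simp [eps, hj]
    · by_cases hi : i ∈ W <;> simp [eps, hi, hij]
  rw [Finset.sum_congr rfl (fun i _ => h1 i), Finset.sum_congr rfl (fun i _ => h2 i)]
  simp

lemma expo_none (μ : V ⊕ V →₀ ℕ) :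
    expo W μ none = ∑ j ∈ W, μ (Sum.inr j) := by
  classical
  rw [expo_apply]
  have h1 : ∀ i, μ (Sum.inl i) * (eps W (Sum.inl i)) none = 0 := by
    intro i; simp [eps]
  have h2 : ∀ i, μ (Sum.inr i) * (eps W (Sum.inr i)) none
      = if i ∈ W then μ (Sum.inr i) else 0 := by
    intro i
    by_cases hi : i ∈ W <;> simp [eps, hi]
  rw [Finset.sum_congr rfl (fun i _ => h1 i), Finset.sum_congr rfl (fun i _ => h2 i)]
  simp

omit [Fintype V] [DecidableEq V] in
lemma swap_mem {i j : V} (hi : i ∈ W) (hj : j ∈ W) (ρ : V ⊕ V →₀ ℕ) :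
    (monomial (ρ + Finsupp.single (Sum.inl i) 1 + Finsupp.single (Sum.inr j) 1) 1 :
      MvPolynomial (V ⊕ V) K) -
      monomial (ρ + Finsupp.single (Sum.inl j) 1 + Finsupp.single (Sum.inr i) 1) 1 ∈
        mI K ((W : Set V) ×ˢ (W : Set V)) := by
  have : (monomial (ρ + Finsupp.single (Sum.inl i) 1 + Finsupp.single (Sum.inr j) 1) 1 :
      MvPolynomial (V ⊕ V) K) -
      monomial (ρ + Finsupp.single (Sum.inl j) 1 + Finsupp.single (Sum.inr i) 1) 1 =
      monomial ρ 1 * mnr K i j := by
    simp only [mnr, mul_sub, X]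
    simp only [monomial_mul, ← add_assoc, mul_one]
  rw [this]
  exact Ideal.mul_mem_left _ _ (mnr_mem ⟨hi, hj⟩)

lemma expo_swap {i j : V} (hi : i ∈ W) (hj : j ∈ W) (ρ : V ⊕ V →₀ ℕ) :
    expo W (ρ + Finsupp.single (Sum.inl i) 1 + Finsupp.single (Sum.inr j) 1) =
      expo W (ρ + Finsupp.single (Sum.inl j) 1 + Finsupp.single (Sum.inr i) 1) := by
  simp only [expo_add, expo_single, eps, if_pos hi, if_pos hj]
  abel

lemma congr_aux (n : ℕ) : ∀ μ ν : V ⊕ V →₀ ℕ, expo W μ = expo W ν →
    (∑ k ∈ W, (ν (Sum.inr k) - μ (Sum.inr k))) = n →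
    (monomial μ 1 : MvPolynomial (V ⊕ V) K) - monomial ν 1 ∈
      mI K ((W : Set V) ×ˢ (W : Set V)) := by
  induction n using Nat.strong_induction_on with
  | _ n ih =>
    intro μ ν h hn
    have hl : ∀ j, μ (Sum.inl j) + (if j ∈ W then μ (Sum.inr j) else 0) =
        ν (Sum.inl j) + (if j ∈ W then ν (Sum.inr j) else 0) := by
      intro j; rw [← expo_inl, ← expo_inl, h]
    have hr : ∀ j ∉ W, μ (Sum.inr j) = ν (Sum.inr j) := by
      intro j hj; rw [← expo_inr W μ j hj, ← expo_inr W ν j hj, h]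
    have hs : ∑ j ∈ W, μ (Sum.inr j) = ∑ j ∈ W, ν (Sum.inr j) := by
      rw [← expo_none, ← expo_none, h]
    by_cases hle : ∀ k ∈ W, ν (Sum.inr k) ≤ μ (Sum.inr k)
    · have heq : ∀ k ∈ W, ν (Sum.inr k) = μ (Sum.inr k) :=
        (Finset.sum_eq_sum_iff_of_le hle).1 hs.symm
      have : μ = ν := by
        ext s
        rcases s with j | j
        · have := hl j
          by_cases hj : j ∈ W
          · simp only [hj, if_true, heq j hj] at this
            omega
          · simpa [hj] using this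
        · by_cases hj : j ∈ W
          · exact (heq j hj).symm
          · exact hr j hj
      rw [this, sub_self]
      exact Ideal.zero_mem _
    · push Not at hle
      obtain ⟨i, hi, hlt⟩ := hle
      obtain ⟨j, hj, hgt⟩ : ∃ j ∈ W, ν (Sum.inr j) < μ (Sum.inr j) := by
        by_contra hcon
        push Not at hcon
        have := Finset.sum_lt_sum hcon ⟨i, hi, hlt⟩
        omega
      have hij : i ≠ j := by rintro rfl; omega
      have hli := hl i
      simp only [hi, if_true] at hli
      have h1 : 1 ≤ μ (Sum.inl i) := by omega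
      have h2 : 1 ≤ μ (Sum.inr j) := by omega
      obtain ⟨ρ, hρ⟩ : ∃ ρ : V ⊕ V →₀ ℕ,
          μ = ρ + Finsupp.single (Sum.inl i) 1 + Finsupp.single (Sum.inr j) 1 := by
        refine ⟨μ - Finsupp.single (Sum.inl i) 1 - Finsupp.single (Sum.inr j) 1, ?_⟩
        ext s
        simp only [Finsupp.add_apply, Finsupp.tsub_apply, Finsupp.single_apply]
        by_cases hs1 : Sum.inl i = s
        · subst hs1; simp; omega
        · by_cases hs2 : Sum.inr j = s
          · subst hs2; simp; omega
          · simp [hs1, hs2]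
      set μ' := ρ + Finsupp.single (Sum.inl j) 1 + Finsupp.single (Sum.inr i) 1 with hμ'
      have hexp : expo W μ' = expo W ν := by
        rw [hμ', ← expo_swap W hi hj, ← hρ, h]
      have hμi : μ' (Sum.inr i) = μ (Sum.inr i) + 1 := by
        rw [hμ', hρ]
        simp [Finsupp.single_apply, hij.symm]
      have hμj : μ' (Sum.inr j) + 1 = μ (Sum.inr j) := by
        rw [hμ', hρ]
        simp [Finsupp.single_apply, hij]
      have hμk : ∀ k, k ≠ i → k ≠ j → μ' (Sum.inr k) = μ (Sum.inr k) := by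
        intro k hki hkj
        rw [hμ', hρ]
        simp [Finsupp.single_apply, hki.symm, hkj.symm]
      have hlt' : ∑ k ∈ W, (ν (Sum.inr k) - μ' (Sum.inr k)) < n := by
        rw [← hn]
        refine Finset.sum_lt_sum ?_ ⟨i, hi, ?_⟩
        · intro k hk
          by_cases hki : k = i
          · subst hki; omega
          · by_cases hkj : k = j
            · subst hkj; omega
            · rw [hμk k hki hkj]
        · omega
      have key := ih _ hlt' μ' ν hexp rfl
      have hsw := swap_mem (K := K) W hi hj ρ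
      rw [← hρ, ← hμ'] at hsw
      have := Ideal.add_mem _ hsw key
      simpa using this

lemma congr_mem {μ ν : V ⊕ V →₀ ℕ} (h : expo W μ = expo W ν) :
    (monomial μ 1 : MvPolynomial (V ⊕ V) K) - monomial ν 1 ∈
      mI K ((W : Set V) ×ˢ (W : Set V)) := congr_aux W _ μ ν h rfl

/-- The toric parametrisation. -/
noncomputable def param (K : Type u) [Field K] :
    MvPolynomial (V ⊕ V) K →ₐ[K] MvPolynomial (Option (V ⊕ V)) K :=
  aeval (fun s => monomial (eps W s) 1)

lemma param_monomial (μ : V ⊕ V →₀ ℕ) :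
    param W K (monomial μ 1) = monomial (expo W μ) 1 := by
  rw [param, aeval_monomial, map_one, one_mul, expo,
    Finsupp.prod_fintype _ _ (fun i => pow_zero _)]
  simp only [monomial_pow, one_pow]
  have : ∀ T : Finset (V ⊕ V), ∏ x ∈ T, (monomial (μ x • eps W x) 1 :
      MvPolynomial (Option (V ⊕ V)) K) = monomial (∑ x ∈ T, μ x • eps W x) 1 := by
    intro T
    induction T using Finset.induction_on with
    | empty => simp
    | insert a T ha ih =>
      rw [Finset.prod_insert ha, Finset.sum_insert ha, ih, monomial_mul, one_mul]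
  exact this _

omit [Fintype V] in
lemma param_mnr {i j : V} (hi : i ∈ W) (hj : j ∈ W) : param W K (mnr K i j) = 0 := by
  simp only [param, mnr, map_sub, map_mul, aeval_X, eps, if_pos hi, if_pos hj, monomial_mul]
  have : (Finsupp.single (some (Sum.inl i)) 1 + (Finsupp.single (some (Sum.inl j)) 1 +
      Finsupp.single none 1) : Option (V ⊕ V) →₀ ℕ) = Finsupp.single (some (Sum.inl j)) 1 +
      (Finsupp.single (some (Sum.inl i)) 1 + Finsupp.single none 1) := add_left_comm _ _ _
  rw [this, sub_self]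

lemma ker_param (f : MvPolynomial (V ⊕ V) K) :
    param W K f = 0 ↔ f ∈ mI K ((W : Set V) ×ˢ (W : Set V)) := by
  classical
  constructor
  · intro hf
    let Q := MvPolynomial (V ⊕ V) K ⧸ mI K ((W : Set V) ×ˢ (W : Set V))
    let q : MvPolynomial (V ⊕ V) K →ₗ[K] Q :=
      (Ideal.Quotient.mkₐ K (mI K ((W : Set V) ×ˢ (W : Set V)))).toLinearMap
    let s : MvPolynomial (Option (V ⊕ V)) K →ₗ[K] Q :=
      (basisMonomials (Option (V ⊕ V)) K).constr K
        (fun τ => if h : ∃ μ, expo W μ = τ then q (monomial h.choose 1) else 0)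
    have hs : s ∘ₗ (param W K).toLinearMap = q := by
      apply (basisMonomials (V ⊕ V) K).ext
      intro μ
      have hμ : ∃ μ', expo W μ' = expo W μ := ⟨μ, rfl⟩
      simp only [coe_basisMonomials, LinearMap.comp_apply, AlgHom.toLinearMap_apply,
        param_monomial]
      have : s (monomial (expo W μ) 1) = q (monomial hμ.choose 1) := by
        have h1 := (basisMonomials (Option (V ⊕ V)) K).constr_basis K
          (fun τ => if h : ∃ μ, expo W μ = τ then q (monomial h.choose 1) else 0) (expo W μ)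
        rw [coe_basisMonomials] at h1
        rw [show s (monomial (expo W μ) 1) = _ from h1, dif_pos hμ]
      rw [this]
      have h2 := congr_mem (K := K) W hμ.choose_spec
      have h3 := (Ideal.Quotient.eq (I := mI K ((W : Set V) ×ˢ (W : Set V)))).2 h2
      exact h3
    have h4 : q f = 0 := by
      rw [← hs]
      simp [hf]
    exact Ideal.Quotient.eq_zero_iff_mem.1 h4
  · intro hf
    refine Submodule.span_induction ?_ ?_ ?_ ?_ hf
    · rintro _ ⟨⟨i, j⟩, ⟨hi, hj⟩, rfl⟩; exact param_mnr W hi hj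
    · exact map_zero _
    · intro x y _ _ hx hy; rw [map_add, hx, hy, add_zero]
    · intro a x _ hx; rw [smul_eq_mul, map_mul, hx, mul_zero]

instance mI_isPrime : (mI K ((W : Set V) ×ˢ (W : Set V))).IsPrime := by
  have : mI K ((W : Set V) ×ˢ (W : Set V)) = RingHom.ker (param W K).toRingHom := by
    ext f
    rw [RingHom.mem_ker]
    exact (ker_param W f).symm
  rw [this]
  exact RingHom.ker_isPrime _

lemma X_notMem_mI (s : V ⊕ V) :
    (X s : MvPolynomial (V ⊕ V) K) ∉ mI K ((W : Set V) ×ˢ (W : Set V)) := by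
  rw [← ker_param, param, aeval_X]
  simp

lemma regular_aux {A : Set (V ⊕ V)} (hA : ∀ w ∈ W, Sum.inl w ∉ A ∧ Sum.inr w ∉ A)
    {s : V ⊕ V} (hs : s ∉ A) {f : MvPolynomial (V ⊕ V) K}
    (hf : X s * f ∈ vI K A ⊔ mI K ((W : Set V) ×ˢ (W : Set V))) :
    f ∈ vI K A ⊔ mI K ((W : Set V) ×ˢ (W : Set V)) := by
  have hfix : ∀ g ∈ mI K ((W : Set V) ×ˢ (W : Set V)),
      kill K A g ∈ mI K ((W : Set V) ×ˢ (W : Set V)) := by
    intro g hg
    refine Submodule.span_induction ?_ ?_ ?_ ?_ hg
    · rintro _ ⟨⟨i, j⟩, ⟨hi, hj⟩, rfl⟩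
      have : kill K A (mnr K i j) = mnr K i j := by
        simp only [mnr, map_sub, map_mul, kill_X_notMem (hA i hi).1, kill_X_notMem (hA i hi).2,
          kill_X_notMem (hA j hj).1, kill_X_notMem (hA j hj).2]
      simp only [this]
      exact mnr_mem ⟨hi, hj⟩
    · rw [map_zero]; exact Ideal.zero_mem _
    · intro x y _ _ hx hy; rw [map_add]; exact Ideal.add_mem _ hx hy
    · intro a x _ hx; rw [smul_eq_mul, map_mul]; exact Ideal.mul_mem_left _ _ hx
  have h1 : kill K A (X s * f) ∈ mI K ((W : Set V) ×ˢ (W : Set V)) := by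
    obtain ⟨u, hu, v, hv, huv⟩ := Submodule.mem_sup.1 hf
    rw [← huv, map_add, (kill_eq_zero_iff A u).2 hu, zero_add]
    exact hfix v hv
  rw [map_mul, kill_X_notMem hs] at h1
  have h2 := ((mI_isPrime (K := K) W).mem_or_mem h1).resolve_left (X_notMem_mI W s)
  have h3 : f = (f - kill K A f) + kill K A f := by ring
  rw [h3]
  exact Ideal.add_mem _ (Ideal.mem_sup_left (sub_kill_mem A f)) (Ideal.mem_sup_right h2)

omit [Fintype V] [DecidableEq V] in
lemma mnr_mem_of_left {I : Ideal (MvPolynomial (V ⊕ V) K)} {i j : V}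
    (h1 : X (Sum.inl i) ∈ I) (h2 : X (Sum.inr i) ∈ I) : mnr K i j ∈ I := by
  rw [mnr]
  exact Ideal.sub_mem _ (Ideal.mul_mem_right _ _ h1) (Ideal.mul_mem_left _ _ h2)

omit [Fintype V] [DecidableEq V] in
lemma mnr_mem_of_right {I : Ideal (MvPolynomial (V ⊕ V) K)} {i j : V}
    (h1 : X (Sum.inl j) ∈ I) (h2 : X (Sum.inr j) ∈ I) : mnr K i j ∈ I := by
  rw [mnr]
  exact Ideal.sub_mem _ (Ideal.mul_mem_left _ _ h2) (Ideal.mul_mem_right _ _ h1)

omit [Fintype V] [DecidableEq V] in
lemma mnr_mem_of_inl {I : Ideal (MvPolynomial (V ⊕ V) K)} {i j : V}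
    (h1 : X (Sum.inl i) ∈ I) (h2 : X (Sum.inl j) ∈ I) : mnr K i j ∈ I := by
  rw [mnr]
  exact Ideal.sub_mem _ (Ideal.mul_mem_right _ _ h1) (Ideal.mul_mem_right _ _ h2)

omit [Fintype V] [DecidableEq V] in
lemma X_mem_vI {A : Set (V ⊕ V)} {s : V ⊕ V} (hs : s ∈ A) :
    (X s : MvPolynomial (V ⊕ V) K) ∈ vI K A := Ideal.subset_span ⟨s, hs, rfl⟩

omit [Fintype V] [DecidableEq V] in
lemma vI_mono {A B : Set (V ⊕ V)} (h : A ⊆ B) : vI K A ≤ vI K B :=
  Ideal.span_mono (Set.image_mono h)

omit [Fintype V] [DecidableEq V] in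
lemma vI_le_iff {A : Set (V ⊕ V)} {I : Ideal (MvPolynomial (V ⊕ V) K)} :
    vI K A ≤ I ↔ ∀ s ∈ A, (X s : MvPolynomial (V ⊕ V) K) ∈ I := by
  rw [vI, Ideal.span_le]
  constructor
  · intro h s hs
    exact h ⟨s, hs, rfl⟩
  · rintro h _ ⟨s, hs, rfl⟩
    exact h s hs

/-- Decomposition used in the induction for complete graphs. -/
lemma decomp {A : Set (V ⊕ V)} {w : V} (hw : w ∈ W) (hwA : Sum.inr w ∉ A) :
    (vI K A ⊔ mI K ((W : Set V) ×ˢ (W : Set V))) ⊔ Ideal.span {(X (Sum.inl w) :
      MvPolynomial (V ⊕ V) K)} =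
    (vI K (insert (Sum.inl w) (insert (Sum.inr w) A)) ⊔
      mI K (((W.erase w : Finset V) : Set V) ×ˢ ((W.erase w : Finset V) : Set V))) ⊓
    vI K (A ∪ Sum.inl '' (W : Set V)) := by
  set L := (vI K A ⊔ mI K ((W : Set V) ×ˢ (W : Set V))) ⊔ Ideal.span {(X (Sum.inl w) :
      MvPolynomial (V ⊕ V) K)} with hL
  have hxL : (X (Sum.inl w) : MvPolynomial (V ⊕ V) K) ∈ L :=
    Ideal.mem_sup_right (Ideal.mem_span_singleton_self _)
  have hAL : ∀ s ∈ A, (X s : MvPolynomial (V ⊕ V) K) ∈ L := fun s hs =>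
    Ideal.mem_sup_left (Ideal.mem_sup_left (X_mem_vI hs))
  have hWL : ∀ i ∈ W, ∀ j ∈ W, mnr K i j ∈ L := fun i hi j hj =>
    Ideal.mem_sup_left (Ideal.mem_sup_right (mnr_mem ⟨hi, hj⟩))
  have hL2 : L ≤ vI K (A ∪ Sum.inl '' (W : Set V)) := by
    refine sup_le (sup_le (vI_mono Set.subset_union_left) ?_) ?_
    · rw [mI_le_iff]
      rintro i j ⟨hi, hj⟩
      exact mnr_mem_of_inl (X_mem_vI (Or.inr ⟨i, hi, rfl⟩)) (X_mem_vI (Or.inr ⟨j, hj, rfl⟩))
    · rw [Ideal.span_singleton_le_iff_mem]
      exact X_mem_vI (Or.inr ⟨w, hw, rfl⟩)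
  apply le_antisymm
  · refine le_inf ?_ hL2
    refine sup_le (sup_le ?_ ?_) ?_
    · exact le_sup_of_le_left (vI_mono ((Set.subset_insert _ _).trans (Set.subset_insert _ _)))
    · rw [mI_le_iff]
      rintro i j ⟨hi, hj⟩
      by_cases hiw : i = w
      · subst hiw
        exact Ideal.mem_sup_left (mnr_mem_of_left (X_mem_vI (by simp)) (X_mem_vI (by simp)))
      · by_cases hjw : j = w
        · subst hjw
          exact Ideal.mem_sup_left (mnr_mem_of_right (X_mem_vI (by simp)) (X_mem_vI (by simp)))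
        · exact Ideal.mem_sup_right (mnr_mem
            ⟨by simpa [hiw] using hi, by simpa [hjw] using hj⟩)
    · rw [Ideal.span_singleton_le_iff_mem]
      exact Ideal.mem_sup_left (X_mem_vI (by simp))
  · rintro f ⟨hf1, hf2⟩
    -- every element of the first ideal is an element of `L` plus a multiple of `y_w`
    have key : vI K (insert (Sum.inl w) (insert (Sum.inr w) A)) ⊔
        mI K (((W.erase w : Finset V) : Set V) ×ˢ ((W.erase w : Finset V) : Set V)) ≤
        L ⊔ Ideal.span {(X (Sum.inr w) : MvPolynomial (V ⊕ V) K)} := by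
      refine sup_le ?_ ?_
      · rw [vI_le_iff]
        rintro s (rfl | rfl | hs)
        · exact Ideal.mem_sup_left hxL
        · exact Ideal.mem_sup_right (Ideal.mem_span_singleton_self _)
        · exact Ideal.mem_sup_left (hAL s hs)
      · rw [mI_le_iff]
        rintro i j ⟨hi, hj⟩
        have hi' : i ∈ W := Finset.mem_of_mem_erase hi
        have hj' : j ∈ W := Finset.mem_of_mem_erase hj
        exact Ideal.mem_sup_left (hWL i hi' j hj')
    obtain ⟨u, hu, v, hv, rfl⟩ := Submodule.mem_sup.1 (key hf1)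
    obtain ⟨k, rfl⟩ := Ideal.mem_span_singleton.1 hv
    have h1 : X (Sum.inr w) * k ∈ vI K (A ∪ Sum.inl '' (W : Set V)) :=
      (Ideal.add_mem_iff_right _ (hL2 hu)).1 hf2
    have h2 : k ∈ vI K (A ∪ Sum.inl '' (W : Set V)) := by
      refine ((vI_isPrime (A ∪ Sum.inl '' (W : Set V))).mem_or_mem h1).resolve_left ?_
      rw [X_mem_vI_iff]
      rintro (h | ⟨_, _, h⟩)
      · exact hwA h
      · exact Sum.inl_ne_inr h
    refine Ideal.add_mem _ hu ?_
    refine Submodule.span_induction ?_ ?_ ?_ ?_ h2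
    · rintro _ ⟨s, hs | ⟨j, hj, rfl⟩, rfl⟩
      · exact Ideal.mul_mem_left _ _ (hAL s hs)
      · have h3 := hWL w hw j hj
        have h4 : X (Sum.inr w) * (X (Sum.inl j) : MvPolynomial (V ⊕ V) K) =
            X (Sum.inl w) * X (Sum.inr j) - mnr K w j := by
          rw [mnr]; ring
        rw [h4]
        exact Ideal.sub_mem _ (Ideal.mul_mem_right _ _ hxL) h3
    · rw [mul_zero]; exact Ideal.zero_mem _
    · intro x y _ _ hx hy; rw [mul_add]; exact Ideal.add_mem _ hx hy
    · intro a x _ hx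
      rw [smul_eq_mul, mul_left_comm]; exact Ideal.mul_mem_left _ _ hx

omit [Fintype V] [DecidableEq V] in
lemma mI_le_m (E : Set (V × V)) : mI K E ≤ idealOfVars (V ⊕ V) K := by
  rw [mI_le_iff]
  intro i j _
  exact mnr_mem_of_inl (X_mem_m _) (X_mem_m _)

/-- Depth of the binomial edge ideal of a complete graph on `W`, with the variables of `A`
killed and the remaining variables free. -/
lemma EV_complete (k : ℕ) : ∀ (W : Finset V) (A : Finset (V ⊕ V)) (n : ℕ), W.card = k + 1 →
    (∀ w ∈ W, Sum.inl w ∉ A ∧ Sum.inr w ∉ A) → n + A.card + W.card = Fintype.card (V ⊕ V) + 1 →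
    EV (idealOfVars (V ⊕ V) K) (vI K (A : Set (V ⊕ V)) ⊔
      mI K ((W : Set V) ×ˢ (W : Set V))) n := by
  induction k with
  | zero =>
    intro W A n hW hA hn
    obtain ⟨w, rfl⟩ := Finset.card_eq_one.1 hW
    have h1 : vI K (A : Set (V ⊕ V)) ⊔ mI K ((({w} : Finset V) : Set V) ×ˢ
        (({w} : Finset V) : Set V)) = vI K (A : Set (V ⊕ V)) := by
      rw [sup_eq_left, mI_le_iff]
      rintro i j ⟨hi, hj⟩
      simp only [Finset.coe_singleton, Set.mem_singleton_iff] at hi hj
      rw [hi, hj, mnr_self]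
      exact Ideal.zero_mem _
    refine EV.congr h1.symm (EV_vI n A ?_)
    rw [Finset.card_singleton] at hn
    omega
  | succ k ih =>
    intro W A n hW hA hn
    rcases n with _ | n
    · exact extVan_zero _
    obtain ⟨w, hw⟩ : W.Nonempty := by rw [← Finset.card_pos]; omega
    refine EV.of_regular idealOfVars_ne_top (X_mem_m (Sum.inl w))
      (sup_le (vI_le_m _) (mI_le_m _)) ?_ ?_
    · intro f hf
      exact regular_aux W hA (hA w hw).1 hf
    · refine EV.congr (decomp W hw (hA w hw).2).symm ?_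
      rcases n with _ | n
      · exact extVan_zero _
      have hcard1 : (insert (Sum.inl w) (insert (Sum.inr w) A)).card = A.card + 2 := by
        rw [Finset.card_insert_of_notMem, Finset.card_insert_of_notMem (hA w hw).2]
        simp [(hA w hw).1]
      have hcard2 : (A ∪ W.image Sum.inl).card = A.card + W.card := by
        rw [Finset.card_union_of_disjoint, Finset.card_image_of_injective _ Sum.inl_injective]
        rw [Finset.disjoint_left]
        intro s hs hs'
        obtain ⟨j, hj, rfl⟩ := Finset.mem_image.1 hs'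
        exact (hA j hj).1 hs
      have hcard3 : (insert (Sum.inr w) (A ∪ W.image Sum.inl)).card = A.card + W.card + 1 := by
        rw [Finset.card_insert_of_notMem, hcard2]
        simp [(hA w hw).2]
      refine EV.inf ?_ ?_ ?_
      · have := ih (W.erase w) (insert (Sum.inl w) (insert (Sum.inr w) A)) (n + 1)
          (by rw [Finset.card_erase_of_mem hw]; omega)
          (by
            intro v hv
            obtain ⟨hvw, hv⟩ := Finset.mem_erase.1 hv
            simp [hvw, (hA v hv).1, (hA v hv).2])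
          (by rw [hcard1, Finset.card_erase_of_mem hw]; omega)
        rwa [Finset.coe_insert, Finset.coe_insert] at this
      · have := EV_vI (K := K) (n + 1) (A ∪ W.image Sum.inl) (by rw [hcard2]; omega)
        rwa [Finset.coe_union, Finset.coe_image] at this
      · have h3 : EV (idealOfVars (V ⊕ V) K) (vI K ((insert (Sum.inr w)
            (A ∪ W.image Sum.inl) : Finset (V ⊕ V)) : Set (V ⊕ V))) n :=
          EV_vI (K := K) n _ (by rw [hcard3]; omega)
        refine EV.congr ?_ h3
        rw [Finset.coe_insert, Finset.coe_union, Finset.coe_image]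
        apply le_antisymm
        · rw [vI_le_iff]
          rintro s (rfl | hs | ⟨j, hj, rfl⟩)
          · exact Ideal.mem_sup_left (Ideal.mem_sup_left (X_mem_vI (by simp)))
          · exact Ideal.mem_sup_left (Ideal.mem_sup_left (X_mem_vI (by simp [hs])))
          · exact Ideal.mem_sup_right (X_mem_vI (Or.inr ⟨j, hj, rfl⟩))
        · refine sup_le (sup_le ?_ ?_) ?_
          · refine vI_mono ?_
            rintro s (rfl | rfl | hs)
            · exact Or.inr (Or.inr ⟨w, hw, rfl⟩)
            · exact Or.inl rfl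
            · exact Or.inr (Or.inl hs)
          · rw [mI_le_iff]
            rintro i j ⟨hi, hj⟩
            have hi' : i ∈ W := Finset.mem_of_mem_erase hi
            have hj' : j ∈ W := Finset.mem_of_mem_erase hj
            exact mnr_mem_of_inl (X_mem_vI (Or.inr (Or.inr ⟨i, hi', rfl⟩)))
              (X_mem_vI (Or.inr (Or.inr ⟨j, hj', rfl⟩)))
          · exact vI_mono (Set.subset_insert _ _)

end Toric

/-- Ohtani's decomposition at a vertex `v`, with the variables of `A` killed.
`E` is the edge set, `E₁` the edge set after completing the neighbourhood of `v`,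
`E₂` the edge set of the graph without `v`. -/
lemma ohtani {A : Set (V ⊕ V)} {E E₁ E₂ : Set (V × V)} {v : V}
    (h1 : E ⊆ E₁) (h2 : ∀ p ∈ E, p.1 = v ∨ p.2 = v ∨ p ∈ E₂) (h3 : E₂ ⊆ E)
    (h4 : ∀ p ∈ E₂, p.1 ≠ v ∧ p.2 ≠ v)
    (h5 : ∀ p ∈ E₁, p ∈ E ∨ (p.1 ≠ v ∧ p.2 ≠ v ∧ (v, p.1) ∈ E ∧ (v, p.2) ∈ E)) :
    vI K A ⊔ mI K E = (vI K A ⊔ mI K E₁) ⊓
      (vI K (insert (Sum.inl v) (insert (Sum.inr v) A)) ⊔ mI K E₂) := by
  set I := vI K A ⊔ mI K E with hI
  set I₂ := vI K (insert (Sum.inl v) (insert (Sum.inr v) A)) ⊔ mI K E₂ with hI₂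
  have hII₂ : I ≤ I₂ := by
    refine sup_le ?_ ?_
    · exact le_sup_of_le_left (vI_mono ((Set.subset_insert _ _).trans (Set.subset_insert _ _)))
    · rw [mI_le_iff]
      intro i j hij
      rcases h2 _ hij with h | h | h
      · simp only at h; subst h
        exact Ideal.mem_sup_left (mnr_mem_of_left (X_mem_vI (by simp)) (X_mem_vI (by simp)))
      · simp only at h; subst h
        exact Ideal.mem_sup_left (mnr_mem_of_right (X_mem_vI (by simp)) (X_mem_vI (by simp)))
      · exact Ideal.mem_sup_right (mnr_mem h)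
  apply le_antisymm
  · exact le_inf (sup_le_sup_left (mI_mono h1) _) hII₂
  · rintro f ⟨hf1, hf2⟩
    let B : Set (V ⊕ V) := {Sum.inl v, Sum.inr v}
    let κ := kill K B
    let F : Set (V × V) := {p | p.1 ≠ v ∧ p.2 ≠ v ∧ (v, p.1) ∈ E ∧ (v, p.2) ∈ E}
    -- variables at `v` times new binomials lie in `I`
    have hxF : ∀ g ∈ vI K B, ∀ h ∈ mI K F, g * h ∈ I := by
      intro g hg h hh
      have hmul : g * h ∈ vI K B * mI K F := Ideal.mul_mem_mul hg hh
      have hle : vI K B * mI K F ≤ I := by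
        rw [mI, vI, Ideal.span_mul_span', Ideal.span_le]
        rintro _ ⟨_, ⟨s, hs, rfl⟩, _, ⟨⟨i, j⟩, ⟨hi, hj, hvi, hvj⟩, rfl⟩, rfl⟩
        have e1 : mnr K v i ∈ I := Ideal.mem_sup_right (mnr_mem hvi)
        have e2 : mnr K v j ∈ I := Ideal.mem_sup_right (mnr_mem hvj)
        rcases hs with rfl | rfl
        · have : (X (Sum.inl v) : MvPolynomial (V ⊕ V) K) * mnr K i j =
              X (Sum.inl i) * mnr K v j - X (Sum.inl j) * mnr K v i := by
            simp only [mnr]; ring
          change (X (Sum.inl v) : MvPolynomial (V ⊕ V) K) * mnr K i j ∈ I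
          rw [this]
          exact Ideal.sub_mem _ (Ideal.mul_mem_left _ _ e2) (Ideal.mul_mem_left _ _ e1)
        · have : (X (Sum.inr v) : MvPolynomial (V ⊕ V) K) * mnr K i j =
              X (Sum.inr i) * mnr K v j - X (Sum.inr j) * mnr K v i := by
            simp only [mnr]; ring
          change (X (Sum.inr v) : MvPolynomial (V ⊕ V) K) * mnr K i j ∈ I
          rw [this]
          exact Ideal.sub_mem _ (Ideal.mul_mem_left _ _ e2) (Ideal.mul_mem_left _ _ e1)
      exact hle hmul
    have hκfix : ∀ i j : V, i ≠ v → j ≠ v → κ (mnr K i j) = mnr K i j := by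
      intro i j hi hj
      have a1 : (Sum.inl i : V ⊕ V) ∉ B := by simp [B, hi]
      have a2 : (Sum.inr i : V ⊕ V) ∉ B := by simp [B, hi]
      have a3 : (Sum.inl j : V ⊕ V) ∉ B := by simp [B, hj]
      have a4 : (Sum.inr j : V ⊕ V) ∉ B := by simp [B, hj]
      simp only [κ, mnr, map_sub, map_mul, kill_X_notMem a1, kill_X_notMem a2, kill_X_notMem a3,
        kill_X_notMem a4]
    have hκF : ∀ h ∈ mI K F, κ h ∈ mI K F ∧ h - κ h ∈ I := by
      intro h hh
      refine Submodule.span_induction ?_ ?_ ?_ ?_ hh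
      · rintro _ ⟨⟨i, j⟩, hij, rfl⟩
        simp only [hκfix i j hij.1 hij.2.1, sub_self]
        exact ⟨mnr_mem hij, Ideal.zero_mem _⟩
      · simp
      · rintro x y _ _ ⟨hx1, hx2⟩ ⟨hy1, hy2⟩
        refine ⟨by rw [map_add]; exact Ideal.add_mem _ hx1 hy1, ?_⟩
        have : x + y - κ (x + y) = (x - κ x) + (y - κ y) := by rw [map_add]; ring
        rw [this]; exact Ideal.add_mem _ hx2 hy2
      · rintro a x _ ⟨hx1, hx2⟩
        rw [smul_eq_mul]
        refine ⟨by rw [map_mul]; exact Ideal.mul_mem_left _ _ hx1, ?_⟩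
        have : a * x - κ (a * x) = a * (x - κ x) + (a - κ a) * κ x := by rw [map_mul]; ring
        rw [this]
        exact Ideal.add_mem _ (Ideal.mul_mem_left _ _ hx2) (hxF _ (sub_kill_mem B a) _ hx1)
    -- killing maps `I₂` into `I`
    have hκI₂ : ∀ g ∈ I₂, κ g ∈ I := by
      have hmap : I₂ ≤ I.comap κ.toRingHom := by
        refine sup_le ?_ ?_
        · rw [vI_le_iff]
          rintro s hs
          rw [Ideal.mem_comap]
          change κ (X s) ∈ I
          by_cases hsB : s ∈ B
          · rw [show κ (X s) = 0 from kill_X_mem hsB]; exact Ideal.zero_mem _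
          · rw [show κ (X s) = X s from kill_X_notMem hsB]
            have hsA : s ∈ A := by
              rcases hs with rfl | rfl | hs
              · exact absurd (by simp [B]) hsB
              · exact absurd (by simp [B]) hsB
              · exact hs
            exact Ideal.mem_sup_left (X_mem_vI hsA)
        · rw [mI_le_iff]
          intro i j hij
          rw [Ideal.mem_comap]
          change κ (mnr K i j) ∈ I
          rw [hκfix i j (h4 _ hij).1 (h4 _ hij).2]
          exact Ideal.mem_sup_right (mnr_mem (h3 hij))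
      intro g hg
      exact hmap hg
    have hdec : vI K A ⊔ mI K E₁ ≤ I ⊔ mI K F := by
      refine sup_le (le_sup_of_le_left le_sup_left) ?_
      rw [mI_le_iff]
      intro i j hij
      rcases h5 _ hij with h | h
      · exact Ideal.mem_sup_left (Ideal.mem_sup_right (mnr_mem h))
      · exact Ideal.mem_sup_right (mnr_mem h)
    obtain ⟨g, hg, h, hh, rfl⟩ := Submodule.mem_sup.1 (hdec hf1)
    have e1 : κ (g + h) ∈ I := hκI₂ _ hf2
    have e2 : κ g ∈ I := hκI₂ _ (hII₂ hg)
    rw [map_add] at e1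
    have e3 : κ h ∈ I := (Ideal.add_mem_iff_right _ e2).1 e1
    have e4 : h = (h - κ h) + κ h := by ring
    refine Ideal.add_mem _ hg ?_
    rw [e4]
    exact Ideal.add_mem _ (hκF h hh).2 e3

end Minors

end Pool.Agent.helper42.BinEdge
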