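import Mathlib

/-!
A radical class of groups given by finitely many first-order sentences.
-/

set_option autoImplicit false

namespace Pool.Agent.helper42.RadClass

universe u

section Basic

variable {G : Type u} [Group G]

/-- The conjugate `x⁻¹ g x`. -/
def cj (g x : G) : G := x⁻¹ * g * x

/-- The element `g ^ x * (g ^ y)⁻¹`. -/
def cc (g x y : G) : G := cj g x * (cj g y)⁻¹

/-- The commutator `x⁻¹ y⁻¹ x y`. -/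
def cm (x y : G) : G := x⁻¹ * cj x y

lemma cj_mul (g h x : G) : cj (g * h) x = cj g x * cj h x := by simp only [cj]; group
lemma cj_inv (g x : G) : cj g⁻¹ x = (cj g x)⁻¹ := by simp only [cj]; group
lemma cj_cj (g x y : G) : cj (cj g x) y = cj g (x * y) := by simp only [cj]; group
lemma cj_one (x : G) : cj 1 x = 1 := by simp only [cj]; group
lemma cj_one' (g : G) : cj g 1 = g := by simp only [cj]; group
lemma cj_eq_of_comm {g x : G} (h : x * g = g * x) : cj g x = g := by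
  rw [cj, mul_assoc, ← h, inv_mul_cancel_left]
lemma comm_of_cj_eq {g x : G} (h : cj g x = g) : x * g = g * x := by
  have h1 : x * cj g x = g * x := by simp only [cj]; group
  rw [h] at h1
  exact h1
lemma cj_cc (g x y z : G) : cj (cc g x y) z = cc g (x * z) (y * z) := by
  simp only [cc, cj_mul, cj_inv, cj_cj]
lemma cc_one (x y : G) : cc (1 : G) x y = 1 := by simp [cc, cj_one]
lemma cm_eq_one_of_comm {x y : G} (h : y * x = x * y) : cm x y = 1 := by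
  rw [cm, cj_eq_of_comm h, inv_mul_cancel]

/-- The axioms, relative to a subgroup. -/
structure RK (N : Subgroup G) : Prop where
  r1 : ∀ g ∈ N, ∃ x ∈ N, ∃ y ∈ N, g = cc g x y
  r2 : ∀ g ∈ N, ∀ x ∈ N, ∀ y ∈ N, ∀ z ∈ N, ∀ t ∈ N, ∃ u ∈ N, ∃ v ∈ N,
    cc g x y * cc g z t = cc g u v
  r3 : ∀ g ∈ N, ∀ a ∈ N, ∃ u ∈ N, ∃ v ∈ N, ∃ w ∈ N, a = cc g u v * w ∧
    ∀ y ∈ N, w * cj g y = cj g y * w
  r4 : ∀ g ∈ N, ∃ a ∈ N, ∃ b ∈ N, ∃ c ∈ N, ∃ d ∈ N, ∀ u ∈ N, ∀ v ∈ N,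
    ∃ p ∈ N, ∃ q ∈ N, ∃ r ∈ N, ∃ s ∈ N,
      cc g u v = cc (cm (cc g u v) (cc g a b)) p q * cc (cm (cc g u v) (cc g c d)) r s

/-- The set of all `g ^ x * (g ^ y)⁻¹`, `x, y ∈ N`. -/
def Q (N : Subgroup G) (g : G) : Set G := {p | ∃ x ∈ N, ∃ y ∈ N, p = cc g x y}

lemma one_mem_Q (N : Subgroup G) (g : G) : 1 ∈ Q N g :=
  ⟨1, N.one_mem, 1, N.one_mem, by simp [cc]⟩

lemma inv_mem_Q {N : Subgroup G} {g p : G} (hp : p ∈ Q N g) : p⁻¹ ∈ Q N g := by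
  obtain ⟨x, hx, y, hy, rfl⟩ := hp
  exact ⟨y, hy, x, hx, by simp [cc]⟩

lemma Q_one (N : Subgroup G) : Q N (1 : G) = {1} := by
  ext p
  constructor
  · rintro ⟨x, _, y, _, rfl⟩
    exact cc_one x y
  · rintro rfl
    exact one_mem_Q N 1

lemma cj_mem_Q {N : Subgroup G} {g p n : G} (hp : p ∈ Q N g) (hn : n ∈ N) : cj p n ∈ Q N g := by
  obtain ⟨x, hx, y, hy, rfl⟩ := hp
  exact ⟨x * n, N.mul_mem hx hn, y * n, N.mul_mem hy hn, cj_cc g x y n⟩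

lemma cj_mem {N : Subgroup G} {g n : G} (hg : g ∈ N) (hn : n ∈ N) : cj g n ∈ N :=
  N.mul_mem (N.mul_mem (N.inv_mem hn) hg) hn

lemma Q_subset {N : Subgroup G} {g p : G} (hg : g ∈ N) (hp : p ∈ Q N g) : p ∈ N := by
  obtain ⟨x, hx, y, hy, rfl⟩ := hp
  exact N.mul_mem (cj_mem hg hx) (N.inv_mem (cj_mem hg hy))

namespace RK

variable {N : Subgroup G} (h : RK N)

include h

lemma self_mem {g : G} (hg : g ∈ N) : g ∈ Q N g := h.r1 g hg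

lemma mul_mem {g p q : G} (hg : g ∈ N) (hp : p ∈ Q N g) (hq : q ∈ Q N g) : p * q ∈ Q N g := by
  obtain ⟨x, hx, y, hy, rfl⟩ := hp
  obtain ⟨z, hz, t, ht, rfl⟩ := hq
  exact h.r2 g hg x hx y hy z hz t ht

lemma cj_self_mem {g y : G} (hg : g ∈ N) (hy : y ∈ N) : cj g y ∈ Q N g :=
  cj_mem_Q (h.self_mem hg) hy

lemma Q_mono {g p : G} (hg : g ∈ N) (hp : p ∈ Q N g) : Q N p ⊆ Q N g := by
  rintro q ⟨x, hx, y, hy, rfl⟩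
  exact h.mul_mem hg (cj_mem_Q hp hx) (inv_mem_Q (cj_mem_Q hp hy))

lemma decomp {g a : G} (hg : g ∈ N) (ha : a ∈ N) :
    ∃ n ∈ Q N g, ∃ w ∈ N, (∀ q ∈ Q N g, w * q = q * w) ∧ a = n * w := by
  obtain ⟨u, hu, v, hv, w, hw, rfl, hcomm⟩ := h.r3 g hg a ha
  refine ⟨cc g u v, ⟨u, hu, v, hv, rfl⟩, w, hw, ?_, rfl⟩
  rintro q ⟨x, hx, y, hy, rfl⟩
  have h1 : Commute w (cj g x) := hcomm x hx
  have h2 : Commute w (cj g y) := hcomm y hy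
  exact (h1.mul_right h2.inv_right).eq

lemma commutators {g : G} (hg : g ∈ N) :
    ∃ h₁ ∈ Q N g, ∃ h₂ ∈ Q N g, ∀ x ∈ Q N g, ∃ p ∈ Q N (cm x h₁), ∃ q ∈ Q N (cm x h₂),
      x = p * q := by
  obtain ⟨a, ha, b, hb, c, hc, d, hd, H⟩ := h.r4 g hg
  refine ⟨_, ⟨a, ha, b, hb, rfl⟩, _, ⟨c, hc, d, hd, rfl⟩, ?_⟩
  rintro x ⟨u, hu, v, hv, rfl⟩
  obtain ⟨p, hp, q, hq, r, hr, s, hs, h2⟩ := H u hu v hv
  exact ⟨_, ⟨p, hp, q, hq, rfl⟩, _, ⟨r, hr, s, hs, rfl⟩, h2⟩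

lemma eq_one {g z : G} (hg : g ∈ N) (hz : z ∈ Q N g) (hc : ∀ q ∈ Q N g, z * q = q * z) :
    z = 1 := by
  obtain ⟨h₁, hh₁, h₂, hh₂, H⟩ := h.commutators hg
  obtain ⟨p, hp, q, hq, hzpq⟩ := H z hz
  rw [cm_eq_one_of_comm (hc h₁ hh₁).symm, Q_one] at hp
  rw [cm_eq_one_of_comm (hc h₂ hh₂).symm, Q_one] at hq
  rw [hzpq, Set.mem_singleton_iff.1 hp, Set.mem_singleton_iff.1 hq, one_mul]

/-- Conjugation by an element of `N` acts on `Q N g` as conjugation by an element of `Q N g`. -/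
lemma inner {g a : G} (hg : g ∈ N) (ha : a ∈ N) :
    ∃ n ∈ Q N g, ∀ q ∈ Q N g, cj q a = cj q n := by
  obtain ⟨n, hn, w, hw, hc, rfl⟩ := h.decomp hg ha
  refine ⟨n, hn, fun q hq => ?_⟩
  rw [← cj_cj]
  exact cj_eq_of_comm (hc _ (cj_mem_Q hq (Q_subset hg hn)))

/-- Passing to a smaller subgroup that is normalised. -/
lemma Q_eq {M : Subgroup G} (hM : M ≤ N) (hn : ∀ m ∈ M, ∀ n ∈ N, cj m n ∈ M) {g : G}
    (hg : g ∈ M) : Q N g = Q M g := by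
  have key : ∀ p ∈ Q N g, p ∈ M := by
    rintro p ⟨x, hx, y, hy, rfl⟩
    exact M.mul_mem (hn _ hg _ hx) (M.inv_mem (hn _ hg _ hy))
  have hgN := hM hg
  have hself := h.self_mem hgN
  apply Set.Subset.antisymm
  · rintro p ⟨x, hx, y, hy, rfl⟩
    obtain ⟨x', hx', hxx⟩ := h.inner hgN hx
    obtain ⟨y', hy', hyy⟩ := h.inner hgN hy
    refine ⟨x', key _ hx', y', key _ hy', ?_⟩
    rw [cc, hxx _ hself, hyy _ hself, cc]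
  · rintro p ⟨x, hx, y, hy, rfl⟩
    exact ⟨x, hM hx, y, hM hy, rfl⟩

/-- Normal subgroups inherit the axioms. -/
lemma normal {M : Subgroup G} (hM : M ≤ N) (hn : ∀ m ∈ M, ∀ n ∈ N, cj m n ∈ M) : RK M where
  r1 g hg := by
    have h1 := h.self_mem (hM hg)
    rw [h.Q_eq hM hn hg] at h1
    exact h1
  r2 g hg x hx y hy z hz t ht := by
    have h1 : cc g x y ∈ Q N g := ⟨x, hM hx, y, hM hy, rfl⟩
    have h2 : cc g z t ∈ Q N g := ⟨z, hM hz, t, hM ht, rfl⟩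
    have h3 := h.mul_mem (hM hg) h1 h2
    rw [h.Q_eq hM hn hg] at h3
    exact h3
  r3 g hg a ha := by
    obtain ⟨n, hn', w, hw, hc, rfl⟩ := h.decomp (hM hg) (hM ha)
    have hc' : ∀ y ∈ M, w * cj g y = cj g y * w := fun y hy =>
      hc _ (h.cj_self_mem (hM hg) (hM hy))
    rw [h.Q_eq hM hn hg] at hn'
    have hwM : w ∈ M := by
      have := M.mul_mem (M.inv_mem (Q_subset hg hn')) ha
      rwa [inv_mul_cancel_left] at this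
    obtain ⟨u, hu, v, hv, rfl⟩ := hn'
    exact ⟨u, hu, v, hv, w, hwM, rfl, hc'⟩
  r4 g hg := by
    obtain ⟨h₁, hh₁, h₂, hh₂, H⟩ := h.commutators (hM hg)
    have h1 := hh₁
    have h2 := hh₂
    rw [h.Q_eq hM hn hg] at h1 h2
    have hm1 := Q_subset hg h1
    have hm2 := Q_subset hg h2
    obtain ⟨a, ha, b, hb, rfl⟩ := h1
    obtain ⟨c, hc, d, hd, rfl⟩ := h2
    refine ⟨a, ha, b, hb, c, hc, d, hd, fun u hu v hv => ?_⟩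
    have hx : cc g u v ∈ Q N g := ⟨u, hM hu, v, hM hv, rfl⟩
    have hxM : cc g u v ∈ M := Q_subset hg ⟨u, hu, v, hv, rfl⟩
    obtain ⟨p, hp, q, hq, hpq⟩ := H _ hx
    have hcm : ∀ x ∈ M, ∀ y ∈ M, cm x y ∈ M := fun x hx y hy =>
      M.mul_mem (M.inv_mem hx) (cj_mem hx hy)
    rw [h.Q_eq hM hn (hcm _ hxM _ hm1)] at hp
    rw [h.Q_eq hM hn (hcm _ hxM _ hm2)] at hq
    obtain ⟨p1, hp1, p2, hp2, rfl⟩ := hp
    obtain ⟨q1, hq1, q2, hq2, rfl⟩ := hq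
    exact ⟨p1, hp1, p2, hp2, q1, hq1, q2, hq2, hpq⟩

end RK

section Join

variable {N₁ N₂ : Subgroup G}

lemma cj_mem_of_normal {N : Subgroup G} (hN : N.Normal) {g : G} (hg : g ∈ N) (x : G) :
    cj g x ∈ N := by
  have := hN.conj_mem g hg x⁻¹
  rwa [inv_inv] at this

lemma cm_mem_left {N : Subgroup G} (hN : N.Normal) {g : G} (hg : g ∈ N) (x : G) :
    cm g x ∈ N := N.mul_mem (N.inv_mem hg) (cj_mem_of_normal hN hg x)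

lemma cm_mem_right {N : Subgroup G} (hN : N.Normal) {x : G} (hx : x ∈ N) (g : G) :
    cm g x ∈ N := by
  have h1 : cm g x = cj x⁻¹ g * x := by simp only [cm, cj]; group
  rw [h1]
  exact N.mul_mem (cj_mem_of_normal hN (N.inv_mem hx) g) hx

lemma Q_inf (hN₁ : N₁.Normal) (hN₂ : N₂.Normal) (h₁ : RK N₁) (h₂ : RK N₂) {d : G}
    (hd₁ : d ∈ N₁) (hd₂ : d ∈ N₂) : Q N₁ d = Q N₂ d := by
  rw [h₁.Q_eq (M := N₁ ⊓ N₂) inf_le_left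
    (fun m hm n _ => ⟨cj_mem_of_normal hN₁ hm.1 n, cj_mem_of_normal hN₂ hm.2 n⟩) ⟨hd₁, hd₂⟩,
    h₂.Q_eq (M := N₁ ⊓ N₂) inf_le_right
    (fun m hm n _ => ⟨cj_mem_of_normal hN₁ hm.1 n, cj_mem_of_normal hN₂ hm.2 n⟩) ⟨hd₁, hd₂⟩]

lemma J1 (hN₁ : N₁.Normal) (hN₂ : N₂.Normal) (h₁ : RK N₁) (h₂ : RK N₂) {a y y' y'' d : G}
    (ha : a ∈ N₁) (hy : y ∈ N₂) (hd₁ : d ∈ N₁) (hd₂ : d ∈ N₂) (hay : cm a y ∈ Q N₁ d)
    (hyy : y = y' * y'') (hy' : y' ∈ Q N₁ d) (hc : ∀ q ∈ Q N₁ d, y'' * q = q * y'') :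
    y'' * a = a * y'' := by
  have hE : Q N₁ d = Q N₂ d := Q_inf hN₁ hN₂ h₁ h₂ hd₁ hd₂
  obtain ⟨p, hp, q, hq, hqc, hapq⟩ := h₁.decomp hd₁ ha
  -- the element `q ^ y * q⁻¹` lies in `E` and commutes with `E`
  have hpy : cj p y ∈ Q N₁ d := by
    rw [hE] at hp ⊢
    exact cj_mem_Q hp hy
  have e1 : cj q y * q⁻¹ = (cj p y)⁻¹ * (p * cm a y) := by
    have h3 : cj a y = a * cm a y := by rw [cm, mul_inv_cancel_left]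
    rw [hapq, cj_mul, ← hapq] at h3
    have h4 : cj q y = (cj p y)⁻¹ * (a * cm a y) := by rw [← h3, inv_mul_cancel_left]
    rw [h4, hapq, mul_assoc, mul_assoc p q, ← hapq, hqc _ hay]
    group
  have hz : cj q y * q⁻¹ ∈ Q N₁ d := by
    rw [e1]
    exact h₁.mul_mem hd₁ (inv_mem_Q hpy) (h₁.mul_mem hd₁ hp hay)
  have hqy : ∀ e ∈ Q N₁ d, Commute (cj q y) e := by
    intro e he
    have he' : cj e y⁻¹ ∈ Q N₁ d := by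
      rw [hE] at he ⊢
      exact cj_mem_Q he (N₂.inv_mem hy)
    have h3 := congrArg (fun z => cj z y) (hqc _ he')
    simp only [cj_mul, cj_cj, inv_mul_cancel, cj_one'] at h3
    exact h3
  have hz1 : cj q y * q⁻¹ = 1 := by
    apply h₁.eq_one hd₁ hz
    intro e he
    have h3 : Commute q e := hqc e he
    exact ((hqy e he).mul_left h3.inv_left).eq
  have hqy' : cj q y = q := mul_inv_eq_one.1 hz1
  have c1 : Commute y q := comm_of_cj_eq hqy'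
  have c2 : Commute y' q := (hqc _ hy').symm
  have c3 : Commute y'' q := by
    have h3 : y'' = y'⁻¹ * y := by rw [hyy, inv_mul_cancel_left]
    rw [h3]
    exact c2.inv_left.mul_left c1
  have c4 : Commute y'' p := hc p hp
  rw [hapq]
  exact (c4.mul_right c3).eq

lemma J2 (hN₁ : N₁.Normal) (hN₂ : N₂.Normal) (h₁ : RK N₁) (h₂ : RK N₂) {a y : G}
    (ha : a ∈ N₁) (hy : y ∈ N₂) : ∃ n ∈ N₁, cj a y = cj a n := by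
  have hd₁ : cm a y ∈ N₁ := cm_mem_left hN₁ ha y
  have hd₂ : cm a y ∈ N₂ := cm_mem_right hN₂ hy a
  have hE : Q N₁ (cm a y) = Q N₂ (cm a y) := Q_inf hN₁ hN₂ h₁ h₂ hd₁ hd₂
  obtain ⟨y', hy', y'', hy'', hc, hyy⟩ := h₂.decomp hd₂ hy
  rw [← hE] at hy' hc
  have hcom : y'' * a = a * y'' :=
    J1 hN₁ hN₂ h₁ h₂ ha hy hd₁ hd₂ (h₁.self_mem hd₁) hyy hy' hc
  refine ⟨y', Q_subset hd₁ hy', ?_⟩
  rw [hyy, ← cj_cj]
  apply cj_eq_of_comm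
  have h3 : cj a y' = a * cm a y' := by rw [cm, mul_inv_cancel_left]
  have h4 : cm a y' ∈ Q N₁ (cm a y) := by
    have h5 : cm a y' = cj y'⁻¹ a * y' := by simp only [cm, cj]; group
    rw [h5]
    exact h₁.mul_mem hd₁ (cj_mem_Q (inv_mem_Q hy') ha) hy'
  rw [h3]
  exact (Commute.mul_right (show Commute y'' a from hcom) (hc _ h4)).eq

lemma mem_sup_iff (hN₂ : N₂.Normal) {g : G} :
    g ∈ N₁ ⊔ N₂ ↔ ∃ a ∈ N₁, ∃ b ∈ N₂, a * b = g := Subgroup.mem_sup_of_normal_right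

lemma J3 (hN₁ : N₁.Normal) (hN₂ : N₂.Normal) (h₁ : RK N₁) (h₂ : RK N₂) {a g : G}
    (ha : a ∈ N₁) (hg : g ∈ N₁ ⊔ N₂) : ∃ n ∈ N₁, cj a g = cj a n := by
  obtain ⟨x, hx, y, hy, rfl⟩ := Subgroup.mem_sup_of_normal_right.1 hg
  obtain ⟨n, hn, h3⟩ := J2 hN₁ hN₂ h₁ h₂ (cj_mem ha hx) hy
  exact ⟨x * n, N₁.mul_mem hx hn, by rw [← cj_cj, h3, cj_cj]⟩

lemma Q_sup (hN₁ : N₁.Normal) (hN₂ : N₂.Normal) (h₁ : RK N₁) (h₂ : RK N₂) {a : G}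
    (ha : a ∈ N₁) : Q (N₁ ⊔ N₂) a = Q N₁ a := by
  apply Set.Subset.antisymm
  · rintro p ⟨x, hx, y, hy, rfl⟩
    obtain ⟨x', hx', hxx⟩ := J3 hN₁ hN₂ h₁ h₂ ha hx
    obtain ⟨y', hy', hyy⟩ := J3 hN₁ hN₂ h₁ h₂ ha hy
    exact ⟨x', hx', y', hy', by rw [cc, hxx, hyy, cc]⟩
  · rintro p ⟨x, hx, y, hy, rfl⟩
    exact ⟨x, Subgroup.mem_sup_left hx, y, Subgroup.mem_sup_left hy, rfl⟩

lemma J4 (hN₁ : N₁.Normal) (hN₂ : N₂.Normal) (h₁ : RK N₁) (h₂ : RK N₂) {a y : G}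
    (ha : a ∈ N₁) (hy : y ∈ N₂) : ∃ y' ∈ Q N₁ a, y' ∈ N₂ ∧ ∃ w ∈ N₂,
      (∀ q ∈ Q N₁ a, w * q = q * w) ∧ y = y' * w := by
  have hA : ∀ p ∈ Q N₁ a, ∀ g ∈ N₁ ⊔ N₂, cj p g ∈ Q N₁ a := by
    intro p hp g hg
    rw [← Q_sup hN₁ hN₂ h₁ h₂ ha] at hp ⊢
    exact cj_mem_Q hp hg
  have hcmA : ∀ p ∈ Q N₁ a, ∀ g ∈ N₁ ⊔ N₂, cm p g ∈ Q N₁ a := fun p hp g hg =>
    h₁.mul_mem ha (inv_mem_Q hp) (hA p hp g hg)
  obtain ⟨k₁, hk₁, k₂, hk₂, H⟩ := h₁.commutators ha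
  have hk₁' := Q_subset ha hk₁
  have hk₂' := Q_subset ha hk₂
  -- first splitting
  have hd₁ : cm k₁ y ∈ N₁ := cm_mem_left hN₁ hk₁' y
  have hd₁' : cm k₁ y ∈ N₂ := cm_mem_right hN₂ hy k₁
  have hE₁ := Q_inf hN₁ hN₂ h₁ h₂ hd₁ hd₁'
  obtain ⟨y₁, hy₁, z₁, hz₁, hc₁, hyz₁⟩ := h₂.decomp hd₁' hy
  have hy₁N := Q_subset hd₁' hy₁
  rw [← hE₁] at hy₁ hc₁
  have c1 : z₁ * k₁ = k₁ * z₁ :=
    J1 hN₁ hN₂ h₁ h₂ hk₁' hy hd₁ hd₁' (h₁.self_mem hd₁) hyz₁ hy₁ hc₁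
  -- second splitting
  have hd₂ : cm k₂ z₁ ∈ N₁ := cm_mem_left hN₁ hk₂' z₁
  have hd₂' : cm k₂ z₁ ∈ N₂ := cm_mem_right hN₂ hz₁ k₂
  have hE₂ := Q_inf hN₁ hN₂ h₁ h₂ hd₂ hd₂'
  obtain ⟨y₂, hy₂, w, hw, hc₂, hyz₂⟩ := h₂.decomp hd₂' hz₁
  have hy₂N := Q_subset hd₂' hy₂
  rw [← hE₂] at hy₂ hc₂
  have c2 : w * k₂ = k₂ * w :=
    J1 hN₁ hN₂ h₁ h₂ hk₂' hz₁ hd₂ hd₂' (h₁.self_mem hd₂) hyz₂ hy₂ hc₂
  have c3 : w * k₁ = k₁ * w := by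
    refine J1 hN₁ hN₂ h₁ h₂ hk₁' hz₁ hd₂ hd₂' ?_ hyz₂ hy₂ hc₂
    rw [cm_eq_one_of_comm c1]
    exact one_mem_Q _ _
  -- membership in `A`
  have m₁ : y₁ ∈ Q N₁ a :=
    h₁.Q_mono ha (hcmA _ hk₁ _ (Subgroup.mem_sup_right hy)) hy₁
  have m₂ : y₂ ∈ Q N₁ a :=
    h₁.Q_mono ha (hcmA _ hk₂ _ (Subgroup.mem_sup_right hz₁)) hy₂
  refine ⟨y₁ * y₂, h₁.mul_mem ha m₁ m₂, N₂.mul_mem hy₁N hy₂N, w, hw, ?_, ?_⟩
  · intro x hx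
    have hxN := Q_subset ha hx
    have hzA : cm x w ∈ Q N₁ a := hcmA _ hx _ (Subgroup.mem_sup_right hw)
    have hz : cm x w ∈ N₁ := cm_mem_left hN₁ hxN w
    have hz' : cm x w ∈ N₂ := cm_mem_right hN₂ hw x
    have hE := Q_inf hN₁ hN₂ h₁ h₂ hz hz'
    obtain ⟨w', hw', w'', hw'', hc, hww⟩ := h₂.decomp hz' hw
    rw [← hE] at hw' hc
    have hone : ∀ k, w * k = k * w → cm k w ∈ Q N₁ (cm x w) := by
      intro k hk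
      rw [cm_eq_one_of_comm hk]
      exact one_mem_Q _ _
    have d1 : w'' * k₁ = k₁ * w'' :=
      J1 hN₁ hN₂ h₁ h₂ hk₁' hw hz hz' (hone _ c3) hww hw' hc
    have d2 : w'' * k₂ = k₂ * w'' :=
      J1 hN₁ hN₂ h₁ h₂ hk₂' hw hz hz' (hone _ c2) hww hw' hc
    have hw'eq : w' = w * w''⁻¹ := by rw [hww, mul_inv_cancel_right]
    have e1 : Commute w' k₁ := by
      rw [hw'eq]
      exact Commute.mul_left c3 (Commute.inv_left d1)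
    have e2 : Commute w' k₂ := by
      rw [hw'eq]
      exact Commute.mul_left c2 (Commute.inv_left d2)
    have hw'A : w' ∈ Q N₁ a := h₁.Q_mono ha hzA hw'
    obtain ⟨p, hp, q, hq, hpq⟩ := H w' hw'A
    rw [cm_eq_one_of_comm e1.symm.eq, Q_one] at hp
    rw [cm_eq_one_of_comm e2.symm.eq, Q_one] at hq
    have hw'1 : w' = 1 := by
      rw [hpq, Set.mem_singleton_iff.1 hp, Set.mem_singleton_iff.1 hq, one_mul]
    have hweq : w = w'' := by rw [hww, hw'1, one_mul]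
    rw [hweq]
    exact J1 hN₁ hN₂ h₁ h₂ hxN hw hz hz' (h₁.self_mem hz) hww hw' hc
  · rw [mul_assoc, ← hyz₂, ← hyz₁]

lemma J5 (hN₁ : N₁.Normal) (hN₂ : N₂.Normal) (h₁ : RK N₁) (h₂ : RK N₂) {a g : G}
    (ha : a ∈ N₁) (hg : g ∈ N₁ ⊔ N₂) : ∃ n ∈ Q N₁ a, ∃ w ∈ N₁ ⊔ N₂,
      (∀ q ∈ Q N₁ a, w * q = q * w) ∧ g = n * w := by
  obtain ⟨x, hx, y, hy, rfl⟩ := Subgroup.mem_sup_of_normal_right.1 hg
  obtain ⟨n₁, hn₁, w₁, hw₁, hc₁, rfl⟩ := h₁.decomp ha hx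
  obtain ⟨n₂, hn₂, _, w₂, hw₂, hc₂, rfl⟩ := J4 hN₁ hN₂ h₁ h₂ ha hy
  refine ⟨n₁ * n₂, h₁.mul_mem ha hn₁ hn₂, w₁ * w₂, Subgroup.mul_mem _
    (Subgroup.mem_sup_left hw₁) (Subgroup.mem_sup_right hw₂), ?_, ?_⟩
  · intro q hq
    exact (Commute.mul_left (show Commute w₁ q from hc₁ q hq) (hc₂ q hq)).eq
  · calc n₁ * w₁ * (n₂ * w₂) = n₁ * (w₁ * n₂) * w₂ := by group
      _ = n₁ * (n₂ * w₁) * w₂ := by rw [hc₁ _ hn₂]
      _ = n₁ * n₂ * (w₁ * w₂) := by group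

lemma J6 (hN₁ : N₁.Normal) (hN₂ : N₂.Normal) (h₁ : RK N₁) (h₂ : RK N₂) {g : G}
    (hg : g ∈ N₁ ⊔ N₂) : ∃ g₁ ∈ N₁, ∃ g₂ ∈ N₂, g = g₁ * g₂ ∧
      ∀ p ∈ Q N₁ g₁, ∀ q ∈ Q N₂ g₂, p * q = q * p := by
  obtain ⟨a, ha, b, hb, rfl⟩ := Subgroup.mem_sup_of_normal_right.1 hg
  obtain ⟨b', hb', hb'N, w, hw, hc, rfl⟩ := J4 hN₁ hN₂ h₁ h₂ ha hb
  have hg₁ : a * b' ∈ Q N₁ a := h₁.mul_mem ha (h₁.self_mem ha) hb'
  refine ⟨a * b', Q_subset ha hg₁, w, hw, by group, ?_⟩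
  have hA : ∀ p ∈ Q N₁ a, ∀ x ∈ N₂, Commute (cj w x) p := by
    intro p hp x hx
    have hp' : cj p x⁻¹ ∈ Q N₁ a := by
      rw [← Q_sup hN₁ hN₂ h₁ h₂ ha] at hp ⊢
      exact cj_mem_Q hp (Subgroup.mem_sup_right (N₂.inv_mem hx))
    have h3 := congrArg (fun z => cj z x) (hc _ hp')
    simp only [cj_mul, cj_cj, inv_mul_cancel, cj_one'] at h3
    exact h3
  intro p hp q hq
  have hpA : p ∈ Q N₁ a := h₁.Q_mono ha hg₁ hp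
  obtain ⟨x, hx, y, hy, rfl⟩ := hq
  exact ((hA p hpA x hx).mul_left (hA p hpA y hy).inv_left).eq.symm

/-- Data of two commuting principal normal subgroups. -/
structure Pair (M : Subgroup G) (g₁ g₂ : G) : Prop where
  mem₁ : g₁ ∈ M
  mem₂ : g₂ ∈ M
  self₁ : g₁ ∈ Q M g₁
  self₂ : g₂ ∈ Q M g₂
  mul₁ : ∀ p ∈ Q M g₁, ∀ q ∈ Q M g₁, p * q ∈ Q M g₁
  mul₂ : ∀ p ∈ Q M g₂, ∀ q ∈ Q M g₂, p * q ∈ Q M g₂
  comm : ∀ p ∈ Q M g₁, ∀ q ∈ Q M g₂, p * q = q * p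
  dec₁ : ∀ g ∈ M, ∃ n ∈ Q M g₁, ∃ w ∈ M, (∀ q ∈ Q M g₁, w * q = q * w) ∧ g = n * w
  dec₂ : ∀ g ∈ M, ∃ n ∈ Q M g₂, ∃ w ∈ M, (∀ q ∈ Q M g₂, w * q = q * w) ∧ g = n * w

lemma Pair.Q_mul {M : Subgroup G} {g₁ g₂ : G} (P : Pair M g₁ g₂) {b₁ b₂ : G}
    (hb₁ : b₁ ∈ Q M g₁) (hb₂ : b₂ ∈ Q M g₂) (z : G) :
    z ∈ Q M (b₁ * b₂) ↔ ∃ p ∈ Q M b₁, ∃ q ∈ Q M b₂, z = p * q := by
  have key : ∀ x ∈ M, ∀ y ∈ M, cc (b₁ * b₂) x y = cc b₁ x y * cc b₂ x y := by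
    intro x hx y hy
    have h3 : Commute (cj b₁ y) (cj b₂ x * (cj b₂ y)⁻¹) :=
      (P.comm _ (cj_mem_Q hb₁ hy) _
        (P.mul₂ _ (cj_mem_Q hb₂ hx) _ (inv_mem_Q (cj_mem_Q hb₂ hy))))
    have h4 := h3.inv_left.eq
    calc cc (b₁ * b₂) x y = cj b₁ x * ((cj b₂ x * (cj b₂ y)⁻¹) * (cj b₁ y)⁻¹) := by
          simp only [cc, cj_mul]; group
      _ = cj b₁ x * ((cj b₁ y)⁻¹ * (cj b₂ x * (cj b₂ y)⁻¹)) := by rw [h4]
      _ = cc b₁ x y * cc b₂ x y := by simp only [cc]; group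
  constructor
  · rintro ⟨x, hx, y, hy, rfl⟩
    exact ⟨_, ⟨x, hx, y, hy, rfl⟩, _, ⟨x, hx, y, hy, rfl⟩, key x hx y hy⟩
  · rintro ⟨_, ⟨x₁, hx₁, y₁, hy₁, rfl⟩, _, ⟨x₂, hx₂, y₂, hy₂, rfl⟩, rfl⟩
    have step : ∀ u ∈ M, ∀ v ∈ M, ∃ w ∈ M, cj b₁ u = cj b₁ w ∧ cj b₂ v = cj b₂ w := by
      intro u hu v hv
      obtain ⟨n₁, hn₁, w₁, _, hc₁, rfl⟩ := P.dec₁ u hu
      obtain ⟨n₂, hn₂, w₂, _, hc₂, rfl⟩ := P.dec₂ v hv
      have hn₁M := Q_subset P.mem₁ hn₁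
      have hn₂M := Q_subset P.mem₂ hn₂
      refine ⟨n₁ * n₂, M.mul_mem hn₁M hn₂M, ?_, ?_⟩
      · rw [← cj_cj, ← cj_cj, cj_eq_of_comm (hc₁ _ (cj_mem_Q hb₁ hn₁M)),
          cj_eq_of_comm (P.comm _ (cj_mem_Q hb₁ hn₁M) _ hn₂).symm]
      · rw [← cj_cj, ← cj_cj, cj_eq_of_comm (hc₂ _ (cj_mem_Q hb₂ hn₂M)),
          cj_eq_of_comm (P.comm _ hn₁ _ hb₂)]
    obtain ⟨x, hx, hx1, hx2⟩ := step x₁ hx₁ x₂ hx₂
    obtain ⟨y, hy, hy1, hy2⟩ := step y₁ hy₁ y₂ hy₂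
    refine ⟨x, hx, y, hy, ?_⟩
    rw [key x hx y hy]
    simp only [cc, hx1, hx2, hy1, hy2]

/-- The join of two normal subgroups satisfying the axioms satisfies them. -/
theorem RK.sup (hN₁ : N₁.Normal) (hN₂ : N₂.Normal) (h₁ : RK N₁) (h₂ : RK N₂) :
    RK (N₁ ⊔ N₂) := by
  have main : ∀ g ∈ N₁ ⊔ N₂, ∃ g₁ g₂, g = g₁ * g₂ ∧ Pair (N₁ ⊔ N₂) g₁ g₂ ∧
      (∃ h ∈ Q (N₁ ⊔ N₂) g₁, ∃ k ∈ Q (N₁ ⊔ N₂) g₁, ∀ x ∈ Q (N₁ ⊔ N₂) g₁,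
        ∃ p ∈ Q (N₁ ⊔ N₂) (cm x h), ∃ q ∈ Q (N₁ ⊔ N₂) (cm x k), x = p * q) ∧
      (∃ h ∈ Q (N₁ ⊔ N₂) g₂, ∃ k ∈ Q (N₁ ⊔ N₂) g₂, ∀ x ∈ Q (N₁ ⊔ N₂) g₂,
        ∃ p ∈ Q (N₁ ⊔ N₂) (cm x h), ∃ q ∈ Q (N₁ ⊔ N₂) (cm x k), x = p * q) := by
    intro g hg
    obtain ⟨g₁, hg₁, g₂, hg₂, rfl, hcomm⟩ := J6 hN₁ hN₂ h₁ h₂ hg
    have e₁ : ∀ a ∈ N₁, Q (N₁ ⊔ N₂) a = Q N₁ a := fun a ha => Q_sup hN₁ hN₂ h₁ h₂ ha
    have e₂ : ∀ a ∈ N₂, Q (N₁ ⊔ N₂) a = Q N₂ a := fun a ha => by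
      rw [sup_comm]; exact Q_sup hN₂ hN₁ h₂ h₁ ha
    refine ⟨g₁, g₂, rfl, ⟨Subgroup.mem_sup_left hg₁, Subgroup.mem_sup_right hg₂, ?_, ?_, ?_, ?_,
      ?_, ?_, ?_⟩, ?_, ?_⟩
    · rw [e₁ _ hg₁]; exact h₁.self_mem hg₁
    · rw [e₂ _ hg₂]; exact h₂.self_mem hg₂
    · rw [e₁ _ hg₁]; exact fun p hp q hq => h₁.mul_mem hg₁ hp hq
    · rw [e₂ _ hg₂]; exact fun p hp q hq => h₂.mul_mem hg₂ hp hq
    · rw [e₁ _ hg₁, e₂ _ hg₂]; exact hcomm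
    · rw [e₁ _ hg₁]; exact fun a ha => J5 hN₁ hN₂ h₁ h₂ hg₁ ha
    · rw [e₂ _ hg₂, sup_comm]; exact fun a ha => J5 hN₂ hN₁ h₂ h₁ hg₂ ha
    · obtain ⟨h, hh, k, hk, H⟩ := h₁.commutators hg₁
      have hcm : ∀ x ∈ N₁, ∀ y ∈ N₁, cm x y ∈ N₁ := fun x hx y hy =>
        N₁.mul_mem (N₁.inv_mem hx) (cj_mem hx hy)
      rw [e₁ _ hg₁]
      refine ⟨h, hh, k, hk, fun x hx => ?_⟩
      rw [e₁ _ (hcm _ (Q_subset hg₁ hx) _ (Q_subset hg₁ hh)),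
        e₁ _ (hcm _ (Q_subset hg₁ hx) _ (Q_subset hg₁ hk))]
      exact H x hx
    · obtain ⟨h, hh, k, hk, H⟩ := h₂.commutators hg₂
      have hcm : ∀ x ∈ N₂, ∀ y ∈ N₂, cm x y ∈ N₂ := fun x hx y hy =>
        N₂.mul_mem (N₂.inv_mem hx) (cj_mem hx hy)
      rw [e₂ _ hg₂]
      refine ⟨h, hh, k, hk, fun x hx => ?_⟩
      rw [e₂ _ (hcm _ (Q_subset hg₂ hx) _ (Q_subset hg₂ hh)),
        e₂ _ (hcm _ (Q_subset hg₂ hx) _ (Q_subset hg₂ hk))]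
      exact H x hx
  constructor
  · intro g hg
    obtain ⟨g₁, g₂, rfl, P, -, -⟩ := main g hg
    exact (P.Q_mul P.self₁ P.self₂ _).2 ⟨g₁, P.self₁, g₂, P.self₂, rfl⟩
  · intro g hg x hx y hy z hz t ht
    obtain ⟨g₁, g₂, rfl, P, -, -⟩ := main g hg
    obtain ⟨p, hp, q, hq, e1⟩ := (P.Q_mul P.self₁ P.self₂ _).1 ⟨x, hx, y, hy, rfl⟩
    obtain ⟨r, hr, s, hs, e2⟩ := (P.Q_mul P.self₁ P.self₂ _).1 ⟨z, hz, t, ht, rfl⟩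
    refine (P.Q_mul P.self₁ P.self₂ _).2 ⟨p * r, P.mul₁ _ hp _ hr, q * s, P.mul₂ _ hq _ hs, ?_⟩
    rw [e1, e2]
    calc p * q * (r * s) = p * (q * r) * s := by group
      _ = p * (r * q) * s := by rw [P.comm _ hr _ hq]
      _ = p * r * (q * s) := by group
  · intro g hg a ha
    obtain ⟨g₁, g₂, rfl, P, -, -⟩ := main g hg
    obtain ⟨b₁, hb₁, c₁, hc₁, hcc₁, rfl⟩ := P.dec₁ a ha
    obtain ⟨b₂, hb₂, c₂, hc₂, hcc₂, rfl⟩ := P.dec₂ c₁ hc₁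
    have hc : ∀ q ∈ Q (N₁ ⊔ N₂) g₁, Commute c₂ q := by
      intro q hq
      have h3 : Commute (b₂ * c₂) q := hcc₁ q hq
      have h4 : Commute b₂ q := (P.comm _ hq _ hb₂).symm
      have h5 : c₂ = b₂⁻¹ * (b₂ * c₂) := by group
      rw [h5]
      exact h4.inv_left.mul_left h3
    obtain ⟨u, hu, v, hv, huv⟩ :=
      (P.Q_mul P.self₁ P.self₂ (b₁ * b₂)).2 ⟨b₁, hb₁, b₂, hb₂, rfl⟩
    refine ⟨u, hu, v, hv, c₂, hc₂, ?_, ?_⟩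
    · rw [← huv]; group
    · intro y hy
      rw [cj_mul]
      exact ((hc _ (cj_mem_Q P.self₁ hy)).mul_right (hcc₂ _ (cj_mem_Q P.self₂ hy))).eq
  · intro g hg
    obtain ⟨g₁, g₂, rfl, P, ⟨h, hh, k, hk, H⟩, ⟨h', hh', k', hk', H'⟩⟩ := main g hg
    obtain ⟨a, ha, b, hb, e1⟩ :=
      (P.Q_mul P.self₁ P.self₂ (h * h')).2 ⟨h, hh, h', hh', rfl⟩
    obtain ⟨c, hc, d, hd, e2⟩ :=
      (P.Q_mul P.self₁ P.self₂ (k * k')).2 ⟨k, hk, k', hk', rfl⟩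
    refine ⟨a, ha, b, hb, c, hc, d, hd, fun u hu v hv => ?_⟩
    obtain ⟨x, hx, x', hx', e3⟩ := (P.Q_mul P.self₁ P.self₂ _).1 ⟨u, hu, v, hv, rfl⟩
    rw [← e1, ← e2, e3]
    have hcm₁ : ∀ x ∈ Q (N₁ ⊔ N₂) g₁, ∀ y ∈ Q (N₁ ⊔ N₂) g₁, cm x y ∈ Q (N₁ ⊔ N₂) g₁ :=
      fun x hx y hy => P.mul₁ _ (inv_mem_Q hx) _ (cj_mem_Q hx (Q_subset P.mem₁ hy))
    have hcm₂ : ∀ x ∈ Q (N₁ ⊔ N₂) g₂, ∀ y ∈ Q (N₁ ⊔ N₂) g₂, cm x y ∈ Q (N₁ ⊔ N₂) g₂ :=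
      fun x hx y hy => P.mul₂ _ (inv_mem_Q hx) _ (cj_mem_Q hx (Q_subset P.mem₂ hy))
    have hcm : ∀ y ∈ Q (N₁ ⊔ N₂) g₁, ∀ y' ∈ Q (N₁ ⊔ N₂) g₂,
        cm (x * x') (y * y') = cm x y * cm x' y' := by
      intro y hy y' hy'
      have h3 : cj (x * x') (y * y') = cj x y * cj x' y' := by
        rw [cj_mul]
        congr 1
        · rw [← cj_cj]
          exact cj_eq_of_comm (P.comm _ (cj_mem_Q hx (Q_subset P.mem₁ hy)) _ hy').symm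
        · rw [← cj_cj, cj_eq_of_comm (P.comm _ hy _ hx')]
      have h4 : Commute (x' ⁻¹) (cm x y) := ((show Commute (cm x y) x' from
        P.comm _ (hcm₁ _ hx _ hy) _ hx').symm).inv_left
      calc cm (x * x') (y * y') = x'⁻¹ * cm x y * cj x' y' := by
            rw [cm, h3, cm]; group
        _ = cm x y * x'⁻¹ * cj x' y' := by rw [h4.eq]
        _ = cm x y * cm x' y' := by rw [cm, cm]; group
    obtain ⟨p, hp, q, hq, e4⟩ := H x hx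
    obtain ⟨p', hp', q', hq', e5⟩ := H' x' hx'
    rw [hcm h hh h' hh', hcm k hk k' hk']
    obtain ⟨s1, hs1, s2, hs2, e6⟩ :=
      (P.Q_mul (hcm₁ _ hx _ hh) (hcm₂ _ hx' _ hh') (p * p')).2 ⟨p, hp, p', hp', rfl⟩
    obtain ⟨s3, hs3, s4, hs4, e7⟩ :=
      (P.Q_mul (hcm₁ _ hx _ hk) (hcm₂ _ hx' _ hk') (q * q')).2 ⟨q, hq, q', hq', rfl⟩
    refine ⟨s1, hs1, s2, hs2, s3, hs3, s4, hs4, ?_⟩
    rw [← e6, ← e7]
    have mono₁ : ∀ z ∈ Q (N₁ ⊔ N₂) g₁, ∀ w ∈ Q (N₁ ⊔ N₂) z, w ∈ Q (N₁ ⊔ N₂) g₁ := by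
      rintro z hz w ⟨u, hu, v, hv, rfl⟩
      exact P.mul₁ _ (cj_mem_Q hz hu) _ (inv_mem_Q (cj_mem_Q hz hv))
    have mono₂ : ∀ z ∈ Q (N₁ ⊔ N₂) g₂, ∀ w ∈ Q (N₁ ⊔ N₂) z, w ∈ Q (N₁ ⊔ N₂) g₂ := by
      rintro z hz w ⟨u, hu, v, hv, rfl⟩
      exact P.mul₂ _ (cj_mem_Q hz hu) _ (inv_mem_Q (cj_mem_Q hz hv))
    have h5 : q * p' = p' * q :=
      P.comm _ (mono₁ _ (hcm₁ _ hx _ hk) _ hq) _ (mono₂ _ (hcm₂ _ hx' _ hh') _ hp')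
    conv_lhs => rw [e4, e5]
    calc p * q * (p' * q') = p * (q * p') * q' := by group
      _ = p * (p' * q) * q' := by rw [h5]
      _ = p * p' * (q * q') := by group

end Join

section Absolute

variable (G) in
/-- The class of groups. -/
def IsK : Prop := RK (⊤ : Subgroup G)

lemma coe_cj {N : Subgroup G} (x y : N) : ((cj x y : N) : G) = cj (x : G) (y : G) := rfl
lemma coe_cc {N : Subgroup G} (g x y : N) : ((cc g x y : N) : G) = cc (g : G) (x : G) (y : G) :=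
  rfl
lemma coe_cm {N : Subgroup G} (x y : N) : ((cm x y : N) : G) = cm (x : G) (y : G) := rfl

lemma isK_iff (N : Subgroup G) : IsK N ↔ RK N := by
  constructor
  · intro h
    constructor
    · intro g hg
      obtain ⟨x, -, y, -, h1⟩ := h.r1 ⟨g, hg⟩ trivial
      exact ⟨x, x.2, y, y.2, congrArg Subtype.val h1⟩
    · intro g hg x hx y hy z hz t ht
      obtain ⟨u, -, v, -, h1⟩ := h.r2 ⟨g, hg⟩ trivial ⟨x, hx⟩ trivial ⟨y, hy⟩ trivial ⟨z, hz⟩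
        trivial ⟨t, ht⟩ trivial
      exact ⟨u, u.2, v, v.2, congrArg Subtype.val h1⟩
    · intro g hg a ha
      obtain ⟨u, -, v, -, w, -, h1, h2⟩ := h.r3 ⟨g, hg⟩ trivial ⟨a, ha⟩ trivial
      exact ⟨u, u.2, v, v.2, w, w.2, congrArg Subtype.val h1,
        fun y hy => congrArg Subtype.val (h2 ⟨y, hy⟩ trivial)⟩
    · intro g hg
      obtain ⟨a, -, b, -, c, -, d, -, h1⟩ := h.r4 ⟨g, hg⟩ trivial
      refine ⟨a, a.2, b, b.2, c, c.2, d, d.2, fun u hu v hv => ?_⟩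
      obtain ⟨p, -, q, -, r, -, s, -, h2⟩ := h1 ⟨u, hu⟩ trivial ⟨v, hv⟩ trivial
      exact ⟨p, p.2, q, q.2, r, r.2, s, s.2, congrArg Subtype.val h2⟩
  · intro h
    constructor
    · intro g _
      obtain ⟨x, hx, y, hy, h1⟩ := h.r1 g g.2
      exact ⟨⟨x, hx⟩, trivial, ⟨y, hy⟩, trivial, Subtype.ext h1⟩
    · intro g _ x _ y _ z _ t _
      obtain ⟨u, hu, v, hv, h1⟩ := h.r2 g g.2 x x.2 y y.2 z z.2 t t.2
      exact ⟨⟨u, hu⟩, trivial, ⟨v, hv⟩, trivial, Subtype.ext h1⟩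
    · intro g _ a _
      obtain ⟨u, hu, v, hv, w, hw, h1, h2⟩ := h.r3 g g.2 a a.2
      exact ⟨⟨u, hu⟩, trivial, ⟨v, hv⟩, trivial, ⟨w, hw⟩, trivial, Subtype.ext h1,
        fun y _ => Subtype.ext (h2 y y.2)⟩
    · intro g _
      obtain ⟨a, ha, b, hb, c, hc, d, hd, h1⟩ := h.r4 g g.2
      refine ⟨⟨a, ha⟩, trivial, ⟨b, hb⟩, trivial, ⟨c, hc⟩, trivial, ⟨d, hd⟩, trivial,
        fun u _ v _ => ?_⟩
      obtain ⟨p, hp, q, hq, r, hr, s, hs, h2⟩ := h1 u u.2 v v.2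
      exact ⟨⟨p, hp⟩, trivial, ⟨q, hq⟩, trivial, ⟨r, hr⟩, trivial, ⟨s, hs⟩, trivial,
        Subtype.ext h2⟩

lemma IsK.subgroup (h : IsK G) {N : Subgroup G} (hN : N.Normal) : IsK N :=
  (isK_iff N).2 (RK.normal h le_top fun _ hm n _ => cj_mem_of_normal hN hm n)

variable {H : Type u} [Group H]

lemma map_cj (f : G →* H) (x y : G) : f (cj x y) = cj (f x) (f y) := by simp [cj]
lemma map_cc (f : G →* H) (g x y : G) : f (cc g x y) = cc (f g) (f x) (f y) := by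
  simp [cc, map_cj]
lemma map_cm (f : G →* H) (x y : G) : f (cm x y) = cm (f x) (f y) := by
  simp [cm, map_cj]

lemma IsK.of_surjective (h : IsK G) (f : G →* H) (hf : Function.Surjective f) : IsK H := by
  constructor
  · intro g _
    obtain ⟨g, rfl⟩ := hf g
    obtain ⟨x, -, y, -, h1⟩ := h.r1 g trivial
    exact ⟨f x, trivial, f y, trivial, by rw [← map_cc, ← h1]⟩
  · intro g _ x _ y _ z _ t _
    obtain ⟨g, rfl⟩ := hf g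
    obtain ⟨x, rfl⟩ := hf x
    obtain ⟨y, rfl⟩ := hf y
    obtain ⟨z, rfl⟩ := hf z
    obtain ⟨t, rfl⟩ := hf t
    obtain ⟨u, -, v, -, h1⟩ := h.r2 g trivial x trivial y trivial z trivial t trivial
    exact ⟨f u, trivial, f v, trivial, by rw [← map_cc, ← map_cc, ← map_cc, ← map_mul, h1]⟩
  · intro g _ a _
    obtain ⟨g, rfl⟩ := hf g
    obtain ⟨a, rfl⟩ := hf a
    obtain ⟨u, -, v, -, w, -, h1, h2⟩ := h.r3 g trivial a trivial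
    refine ⟨f u, trivial, f v, trivial, f w, trivial, by rw [← map_cc, ← map_mul, ← h1], ?_⟩
    intro y _
    obtain ⟨y, rfl⟩ := hf y
    rw [← map_cj, ← map_mul, ← map_mul, h2 y trivial]
  · intro g _
    obtain ⟨g, rfl⟩ := hf g
    obtain ⟨a, -, b, -, c, -, d, -, h1⟩ := h.r4 g trivial
    refine ⟨f a, trivial, f b, trivial, f c, trivial, f d, trivial, fun u _ v _ => ?_⟩
    obtain ⟨u, rfl⟩ := hf u
    obtain ⟨v, rfl⟩ := hf v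
    obtain ⟨p, -, q, -, r, -, s, -, h2⟩ := h1 u trivial v trivial
    refine ⟨f p, trivial, f q, trivial, f r, trivial, f s, trivial, ?_⟩
    have h3 := congrArg f h2
    simpa only [map_mul, map_cc, map_cm] using h3

lemma RK.bot : RK (⊥ : Subgroup G) := by
  constructor
  · intro g hg
    rw [Subgroup.mem_bot] at hg
    subst hg
    exact ⟨1, rfl, 1, rfl, by simp [cc]⟩
  · intro g hg x hx y hy z hz t ht
    rw [Subgroup.mem_bot] at hg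
    subst hg
    exact ⟨1, rfl, 1, rfl, by simp [cc_one]⟩
  · intro g hg a ha
    rw [Subgroup.mem_bot] at hg ha
    subst hg
    subst ha
    exact ⟨1, rfl, 1, rfl, 1, rfl, by simp [cc_one], fun y _ => by simp⟩
  · intro g hg
    rw [Subgroup.mem_bot] at hg
    subst hg
    exact ⟨1, rfl, 1, rfl, 1, rfl, 1, rfl, fun u _ v _ => ⟨1, rfl, 1, rfl, 1, rfl, 1, rfl, by
      simp [cc_one, cm, cj_one]⟩⟩

/-- Closure under joins of normal subgroups. -/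
theorem IsK.of_sSup (h : sSup {N : Subgroup G | N.Normal ∧ IsK N} = ⊤) : IsK G := by
  set 𝒩 : Set (Subgroup G) := {N : Subgroup G | N.Normal ∧ IsK N} with h𝒩
  have hne : 𝒩.Nonempty := ⟨⊥, inferInstance, (isK_iff _).2 RK.bot⟩
  have hdir : DirectedOn (· ≤ ·) 𝒩 := by
    rintro A ⟨hA, hA'⟩ B ⟨hB, hB'⟩
    refine ⟨A ⊔ B, ⟨?_, ?_⟩, le_sup_left, le_sup_right⟩
    · exact Subgroup.sup_normal A B
    · exact (isK_iff _).2 (RK.sup hA hB ((isK_iff _).1 hA') ((isK_iff _).1 hB'))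
  have hmem : ∀ g : G, ∃ N ∈ 𝒩, g ∈ N := by
    intro g
    have h1 : g ∈ sSup 𝒩 := by rw [h]; trivial
    exact (Subgroup.mem_sSup_of_directedOn hne hdir).1 h1
  have hmem2 : ∀ (N : Subgroup G), N ∈ 𝒩 → ∀ g : G, ∃ M ∈ 𝒩, N ≤ M ∧ g ∈ M := by
    intro N hN g
    obtain ⟨N', hN', hg⟩ := hmem g
    obtain ⟨M, hM, h1, h2⟩ := hdir N hN N' hN'
    exact ⟨M, hM, h1, h2 hg⟩
  have hinner : ∀ (N : Subgroup G), N ∈ 𝒩 → ∀ g ∈ N, ∀ x : G, ∃ n ∈ N, cj g x = cj g n := by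
    intro N hN g hg x
    obtain ⟨M, hM, hNM, hx⟩ := hmem2 N hN x
    have hM' : RK M := (isK_iff _).1 hM.2
    obtain ⟨n, hn, h1⟩ := hM'.inner (hNM hg) hx
    rw [hM'.Q_eq hNM (fun m hm n _ => cj_mem_of_normal hN.1 hm n) hg] at hn
    exact ⟨n, Q_subset hg hn, h1 g (hM'.self_mem (hNM hg))⟩
  constructor
  · intro g _
    obtain ⟨N, hN, hg⟩ := hmem g
    obtain ⟨x, -, y, -, h1⟩ := ((isK_iff _).1 hN.2).r1 g hg
    exact ⟨x, trivial, y, trivial, h1⟩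
  · intro g _ x _ y _ z _ t _
    obtain ⟨N, hN, hg⟩ := hmem g
    obtain ⟨x', hx', hxx⟩ := hinner N hN g hg x
    obtain ⟨y', hy', hyy⟩ := hinner N hN g hg y
    obtain ⟨z', hz', hzz⟩ := hinner N hN g hg z
    obtain ⟨t', ht', htt⟩ := hinner N hN g hg t
    obtain ⟨u, -, v, -, h1⟩ := ((isK_iff _).1 hN.2).r2 g hg x' hx' y' hy' z' hz' t' ht'
    refine ⟨u, trivial, v, trivial, ?_⟩
    rw [← h1]
    simp only [cc, hxx, hyy, hzz, htt]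
  · intro g _ a _
    obtain ⟨N₀, hN₀, hg₀⟩ := hmem g
    obtain ⟨N, hN, hle, ha⟩ := hmem2 N₀ hN₀ a
    have hg := hle hg₀
    obtain ⟨u, -, v, -, w, -, h1, h2⟩ := ((isK_iff _).1 hN.2).r3 g hg a ha
    refine ⟨u, trivial, v, trivial, w, trivial, h1, fun y _ => ?_⟩
    obtain ⟨y', hy', hyy⟩ := hinner N hN g hg y
    rw [hyy]
    exact h2 y' hy'
  · intro g _
    obtain ⟨N, hN, hg⟩ := hmem g
    obtain ⟨a, -, b, -, c, -, d, -, h1⟩ := ((isK_iff _).1 hN.2).r4 g hg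
    refine ⟨a, trivial, b, trivial, c, trivial, d, trivial, fun u _ v _ => ?_⟩
    obtain ⟨u', hu', huu⟩ := hinner N hN g hg u
    obtain ⟨v', hv', hvv⟩ := hinner N hN g hg v
    have e1 : cc g u v = cc g u' v' := by simp only [cc, huu, hvv]
    obtain ⟨p, -, q, -, r, -, s, -, h2⟩ := h1 u' hu' v' hv'
    exact ⟨p, trivial, q, trivial, r, trivial, s, trivial, by rw [e1]; exact h2⟩

end Absolute

end Basic

end Pool.Agent.helper42.RadClass
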