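import Mathlib
import Pool.Agent.helper42.RadClass

/-!
The group `SL₂(K)`, `K` algebraically closed of characteristic two, lies in the radical class.
-/

set_option autoImplicit false

namespace Pool.Agent.helper42.RadClass

universe u

open Matrix

variable {K : Type u} [Field K] [CharP K 2]

lemma two_eq_zero : (2 : K) = 0 := CharP.cast_eq_zero K 2

lemma add_self' (a : K) : a + a = 0 := by
  linear_combination a * two_eq_zero (K := K)

lemma eq_one_of_sq {a : K} (h : a * a = 1) : a = 1 := by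
  have h1 : (a - 1) * (a - 1) = 0 := by
    linear_combination h - (a - 1) * two_eq_zero (K := K)
  have h2 := mul_self_eq_zero.1 h1
  linear_combination h2

/-- The trace. -/
def tr (g : SpecialLinearGroup (Fin 2) K) : K := g 0 0 + g 1 1

/-- The companion matrix. -/
def comp (τ : K) : SpecialLinearGroup (Fin 2) K :=
  ⟨!![0, 1; 1, τ], by
    rw [Matrix.det_fin_two_of]
    linear_combination -(two_eq_zero (K := K))⟩

omit [CharP K 2] in
lemma det_eq (g : SpecialLinearGroup (Fin 2) K) : g 0 0 * g 1 1 - g 0 1 * g 1 0 = 1 := by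
  have := g.det_coe
  rwa [Matrix.det_fin_two] at this

lemma eq_one_of_scalar (g : SpecialLinearGroup (Fin 2) K) (h1 : g 0 1 = 0) (h2 : g 1 0 = 0)
    (h3 : g 1 1 = g 0 0) : g = 1 := by
  have h4 := det_eq g
  rw [h1, h2, h3] at h4
  have h5 : g 0 0 = 1 := eq_one_of_sq (by linear_combination h4)
  apply Subtype.ext
  ext i j
  fin_cases i <;> fin_cases j
  · exact h5
  · exact h1
  · exact h2
  · exact h3.trans h5

lemma exists_conj_comp [IsAlgClosed K] {g : SpecialLinearGroup (Fin 2) K} (hg : g ≠ 1) :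
    ∃ X : SpecialLinearGroup (Fin 2) K, g * X = X * comp (tr g) := by
  obtain ⟨p, q, hpq⟩ : ∃ p q : K, p * (g 1 0 * p + g 1 1 * q) - q * (g 0 0 * p + g 0 1 * q) ≠ 0 := by
    by_cases h1 : g 1 0 = 0
    · by_cases h2 : g 0 1 = 0
      · refine ⟨1, 1, fun h3 => hg (eq_one_of_scalar g h2 h1 ?_)⟩
        linear_combination h3 - h1 + h2
      · refine ⟨0, 1, fun h3 => h2 ?_⟩
        linear_combination -h3
    · refine ⟨1, 0, fun h3 => h1 ?_⟩
      linear_combination h3
  obtain ⟨l, hl⟩ := IsAlgClosed.exists_pow_nat_eq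
    (p * (g 1 0 * p + g 1 1 * q) - q * (g 0 0 * p + g 0 1 * q))⁻¹ (n := 2) (by norm_num)
  have hl' : l ^ 2 * (p * (g 1 0 * p + g 1 1 * q) - q * (g 0 0 * p + g 0 1 * q)) = 1 := by
    rw [hl, inv_mul_cancel₀ hpq]
  refine ⟨⟨!![l * p, l * (g 0 0 * p + g 0 1 * q); l * q, l * (g 1 0 * p + g 1 1 * q)], ?_⟩, ?_⟩
  · rw [Matrix.det_fin_two_of]
    linear_combination hl'
  · have hdet := det_eq g
    have h2 := two_eq_zero (K := K)
    apply Subtype.ext
    ext i j
    fin_cases i <;> fin_cases j <;>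
      simp [comp, tr, Matrix.mul_apply, Fin.sum_univ_two]
    · ring
    · linear_combination (-l * p) * hdet - l * p * h2
    · ring
    · linear_combination (-l * q) * hdet - l * q * h2

lemma conj_of_tr_eq [IsAlgClosed K] {g h : SpecialLinearGroup (Fin 2) K} (hg : g ≠ 1) (hh : h ≠ 1)
    (htr : tr g = tr h) : ∃ x, h = cj g x := by
  obtain ⟨X, hX⟩ := exists_conj_comp hg
  obtain ⟨Y, hY⟩ := exists_conj_comp hh
  refine ⟨X * Y⁻¹, ?_⟩
  have h1 : comp (tr g) = X⁻¹ * g * X := by rw [mul_assoc, hX, inv_mul_cancel_left]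
  have h2 : h = Y * comp (tr h) * Y⁻¹ := by rw [← hY, mul_inv_cancel_right]
  rw [h2, ← htr, h1, cj]
  group

lemma exists_cc_comp [IsAlgClosed K] {g : SpecialLinearGroup (Fin 2) K} (hg : g ≠ 1) (σ : K) :
    ∃ x y, comp σ = cc g x y := by
  obtain ⟨t, ht0, ht1⟩ : ∃ t : K, t ≠ 0 ∧ t ≠ 1 := by
    classical
    have : Infinite K := IsAlgClosed.instInfinite
    obtain ⟨t, ht⟩ := Infinite.exists_notMem_finset ({0, 1} : Finset K)
    simp only [Finset.mem_insert, Finset.mem_singleton, not_or] at ht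
    exact ⟨t, ht.1, ht.2⟩
  set τ := tr g with hτ
  have h2 := two_eq_zero (K := K)
  -- find `r`
  obtain ⟨r, hr⟩ : ∃ r : K, r * r + (τ + σ * t) * r + (τ * t + t * t + 1) = 0 := by
    let P : Polynomial K := Polynomial.X ^ 2 + Polynomial.C (τ + σ * t) * Polynomial.X +
      Polynomial.C (τ * t + t * t + 1)
    have hdeg : P.degree = 2 := by
      have := Polynomial.degree_quadratic (a := (1 : K)) (b := τ + σ * t)
        (c := τ * t + t * t + 1) one_ne_zero
      simpa [P] using this
    obtain ⟨r, hr⟩ := IsAlgClosed.exists_root P (by rw [hdeg]; norm_num)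
    refine ⟨r, ?_⟩
    have h3 : r ^ 2 + (τ + σ * t) * r + (τ * t + t * t + 1) = 0 := by
      simpa [P, Polynomial.IsRoot.def] using hr
    linear_combination h3
  let v : SpecialLinearGroup (Fin 2) K := ⟨!![τ + t, τ + σ * t + r; r, t], by
    rw [Matrix.det_fin_two_of]
    linear_combination -hr + (τ * t + t * t) * h2⟩
  have hv : v ≠ 1 := by
    intro h
    apply ht1
    have h3 := congrArg (fun z : SpecialLinearGroup (Fin 2) K => z 1 1) h
    simpa [v] using h3
  have hw : comp σ * v ≠ 1 := by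
    intro h
    apply ht0
    have h3 := congrArg (fun z : SpecialLinearGroup (Fin 2) K => z 0 1) h
    simpa [v, comp, Matrix.mul_apply, Fin.sum_univ_two] using h3
  have htv : tr g = tr v := by
    rw [← hτ]
    simp [tr, v]
    linear_combination -t * h2
  have htw : tr g = tr (comp σ * v) := by
    rw [← hτ]
    simp [tr, v, comp, Matrix.mul_apply, Fin.sum_univ_two]
    linear_combination (-r - σ * t) * h2
  obtain ⟨x, hx⟩ := conj_of_tr_eq hg hw htw
  obtain ⟨y, hy⟩ := conj_of_tr_eq hg hv htv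
  refine ⟨x, y, ?_⟩
  rw [cc, ← hx, ← hy, mul_inv_cancel_right]

lemma exists_cc [IsAlgClosed K] {g : SpecialLinearGroup (Fin 2) K} (hg : g ≠ 1)
    (s : SpecialLinearGroup (Fin 2) K) : ∃ x y, s = cc g x y := by
  by_cases hs : s = 1
  · exact ⟨1, 1, by rw [hs, cc, mul_inv_cancel]⟩
  · obtain ⟨X, hX⟩ := exists_conj_comp hs
    obtain ⟨x, y, hxy⟩ := exists_cc_comp hg (tr s)
    refine ⟨x * X⁻¹, y * X⁻¹, ?_⟩
    rw [← cj_cc, ← hxy, cj, inv_inv, ← hX, mul_inv_cancel_right]

/-- The upper transvection. -/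
def up : SpecialLinearGroup (Fin 2) K := ⟨!![1, 1; 0, 1], by simp [Matrix.det_fin_two_of]⟩

/-- The lower transvection. -/
def lo : SpecialLinearGroup (Fin 2) K := ⟨!![1, 0; 1, 1], by simp [Matrix.det_fin_two_of]⟩

lemma eq_one_of_comm (x : SpecialLinearGroup (Fin 2) K) (h1 : up * x = x * up)
    (h2 : lo * x = x * lo) : x = 1 := by
  have e1 := congrArg (fun z : SpecialLinearGroup (Fin 2) K => z 0 0) h1
  have e2 := congrArg (fun z : SpecialLinearGroup (Fin 2) K => z 0 1) h1
  have e3 := congrArg (fun z : SpecialLinearGroup (Fin 2) K => z 0 0) h2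
  simp [up, lo, Matrix.mul_apply, Fin.sum_univ_two] at e1 e2 e3
  refine eq_one_of_scalar x e3 e1 ?_
  linear_combination e2

lemma cm_eq_one_iff {G : Type u} [Group G] {x y : G} (h : cm x y = 1) : y * x = x * y := by
  rw [cm, inv_mul_eq_one] at h
  exact comm_of_cj_eq h.symm

/-- The group `SL₂(K)` lies in the class. -/
theorem isK_SL2 [IsAlgClosed K] : IsK (SpecialLinearGroup (Fin 2) K) := by
  have hone : ∀ g : SpecialLinearGroup (Fin 2) K, cc g 1 1 = 1 := fun g => by
    rw [cc, mul_inv_cancel]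
  constructor
  · intro g _
    by_cases hg : g = 1
    · exact ⟨1, trivial, 1, trivial, by rw [hg, cc_one]⟩
    · obtain ⟨x, y, h⟩ := exists_cc hg g
      exact ⟨x, trivial, y, trivial, h⟩
  · intro g _ x _ y _ z _ t _
    by_cases hg : g = 1
    · exact ⟨1, trivial, 1, trivial, by rw [hg]; simp only [cc_one, mul_one]⟩
    · obtain ⟨u, v, h⟩ := exists_cc hg (cc g x y * cc g z t)
      exact ⟨u, trivial, v, trivial, h⟩
  · intro g _ a _
    by_cases hg : g = 1
    · exact ⟨1, trivial, 1, trivial, a, trivial, by rw [hg, cc_one, one_mul], fun y _ => by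
        rw [hg, cj_one, mul_one, one_mul]⟩
    · obtain ⟨u, v, h⟩ := exists_cc hg a
      exact ⟨u, trivial, v, trivial, 1, trivial, by rw [mul_one, ← h], fun y _ => by
        rw [mul_one, one_mul]⟩
  · intro g _
    by_cases hg : g = 1
    · refine ⟨1, trivial, 1, trivial, 1, trivial, 1, trivial, fun u _ v _ =>
        ⟨1, trivial, 1, trivial, 1, trivial, 1, trivial, ?_⟩⟩
      rw [hg]
      simp only [cc_one, cm, cj_one, inv_one, mul_one]
    · obtain ⟨a, b, hab⟩ := exists_cc hg up
      obtain ⟨c, d, hcd⟩ := exists_cc hg lo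
      refine ⟨a, trivial, b, trivial, c, trivial, d, trivial, fun u _ v _ => ?_⟩
      rw [← hab, ← hcd]
      set x := cc g u v with hx
      by_cases hx1 : x = 1
      · exact ⟨1, trivial, 1, trivial, 1, trivial, 1, trivial, by rw [hone, hone, hx1, mul_one]⟩
      · by_cases h1 : cm x up = 1
        · have h2 : cm x lo ≠ 1 := fun h2 => hx1 (eq_one_of_comm x (cm_eq_one_iff h1)
            (cm_eq_one_iff h2))
          obtain ⟨r, s, hrs⟩ := exists_cc h2 x
          exact ⟨1, trivial, 1, trivial, r, trivial, s, trivial, by rw [hone, one_mul, ← hrs]⟩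
        · obtain ⟨p, q, hpq⟩ := exists_cc h1 x
          exact ⟨p, trivial, q, trivial, 1, trivial, 1, trivial, by rw [hone, mul_one, ← hpq]⟩

end Pool.Agent.helper42.RadClass
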